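import Pool.Agent.Helper580_sidon.Bounds

set_option autoImplicit false

namespace Pool.Agent.Helper580_sidon

/-- `F_p^r × [0,(N+1)/2)` sits inside `F_p^r × Z_N`. -/
theorem slab_to_cyc (p r N : ℕ) (x : ℝ) (h : Big (Slab p r ((N + 1) / 2)) x) :
    Big (Set.univ : Set ((Fin r → ZMod p) × ZMod N)) x := by
  refine Big.transfer (fun w => (w.1, ((w.2 : ℤ) : ZMod N))) (fun _ _ => Set.mem_univ _) ?_ h
  rintro ⟨v1, y1⟩ h1 ⟨v2, y2⟩ h2 ⟨v3, y3⟩ h3 ⟨v4, y4⟩ h4 he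
  simp only [Slab, Set.mem_ofPred_eq] at h1 h2 h3 h4
  simp only [Prod.mk_add_mk, Prod.mk.injEq] at he ⊢
  refine ⟨he.1, ?_⟩
  have e := he.2
  rw [← Int.cast_add, ← Int.cast_add, ZMod.intCast_eq_intCast_iff'] at e
  have hN2 : 2 * (((N + 1) / 2 : ℕ) : ℤ) ≤ N + 1 := by
    have : 2 * ((N + 1) / 2) ≤ N + 1 := Nat.mul_div_le _ _
    exact_mod_cast this
  rw [Int.emod_eq_of_lt (by linarith) (by linarith), Int.emod_eq_of_lt (by linarith) (by linarith)]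
    at e
  exact e

/-- Near-optimal Sidon sets in `F_p^r × Z_N`, `p^r ≤ N^(p-1)`. -/
theorem elem_cyc (p : ℕ) (hp : p.Prime) (hp2 : p ≠ 2) :
    ∃ C : ℝ, 0 < C ∧ ∀ r N : ℕ, 1 ≤ N → p ^ r ≤ N ^ (p - 1) →
      Big (Set.univ : Set ((Fin r → ZMod p) × ZMod N))
        (C * Real.sqrt ((p : ℝ) ^ r * N) / (1 + Real.log ((p : ℝ) ^ r * N))) := by
  have : Fact p.Prime := ⟨hp⟩
  have hp3 : 3 ≤ p := by
    have := hp.two_le
    omega
  have hppos : 0 < p := hp.pos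
  have hpR : (1 : ℝ) ≤ p := by exact_mod_cast hppos
  refine ⟨1 / (18 * (p : ℝ) ^ (p + 1)), by positivity, ?_⟩
  intro r N hN hrN
  apply slab_to_cyc p r N
  have hN' : 1 ≤ (N + 1) / 2 := by omega
  have hcond : p ^ r ≤ (p * ((N + 1) / 2)) ^ (p - 1) := by
    refine hrN.trans (Nat.pow_le_pow_left ?_ _)
    have h1 : N ≤ 2 * ((N + 1) / 2) := by omega
    have h2 : 2 * ((N + 1) / 2) ≤ p * ((N + 1) / 2) := Nat.mul_le_mul_right _ (by omega)
    omega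
  apply (iml1 p hp2 r ((N + 1) / 2) hN' hcond).mono
  have hNR : (1 : ℝ) ≤ N := by exact_mod_cast hN
  have hN'R : (1 : ℝ) ≤ (((N + 1) / 2 : ℕ) : ℝ) := by exact_mod_cast hN'
  have hpr : (1 : ℝ) ≤ (p : ℝ) ^ r := one_le_pow₀ hpR
  have hle : (((N + 1) / 2 : ℕ) : ℝ) ≤ N := by
    have : (N + 1) / 2 ≤ N := by omega
    exact_mod_cast this
  have hge : (N : ℝ) ≤ 4 * (((N + 1) / 2 : ℕ) : ℝ) := by
    have : N ≤ 4 * ((N + 1) / 2) := by omega
    exact_mod_cast this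
  set Q : ℝ := (p : ℝ) ^ r * N with hQ
  set Q' : ℝ := (p : ℝ) ^ r * (((N + 1) / 2 : ℕ) : ℝ) with hQ'
  have hQ'1 : 1 ≤ Q' := by
    calc (1 : ℝ) = 1 * 1 := (one_mul 1).symm
      _ ≤ Q' := mul_le_mul hpr hN'R (by norm_num) (by positivity)
  have hQQ : Q' ≤ Q := mul_le_mul_of_nonneg_left hle (by positivity)
  have hQQ4 : Q ≤ 4 * Q' := by
    rw [hQ, hQ']
    nlinarith [mul_le_mul_of_nonneg_left hge (show (0 : ℝ) ≤ (p : ℝ) ^ r by positivity)]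
  have hlog : Real.log Q' ≤ Real.log Q := Real.log_le_log (by positivity) hQQ
  have hlog0 : 0 ≤ Real.log Q' := Real.log_nonneg hQ'1
  have hsq : Real.sqrt Q ≤ 2 * Real.sqrt Q' := by
    have h1 : Real.sqrt Q ≤ Real.sqrt (4 * Q') := Real.sqrt_le_sqrt hQQ4
    have h2 : Real.sqrt (4 * Q') = 2 * Real.sqrt Q' := by
      rw [Real.sqrt_mul (by norm_num)]
      congr 1
      rw [show (4 : ℝ) = 2 ^ 2 by norm_num]
      exact Real.sqrt_sq (by norm_num)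
    rw [h2] at h1
    exact h1
  have hP : (0 : ℝ) < (p : ℝ) ^ (p + 1) := by positivity
  have hL' : 0 < 1 + Real.log Q' := by linarith
  have hL : 0 < 1 + Real.log Q := by linarith
  rw [div_le_div_iff₀ hL (by positivity)]
  have h3 : 1 / (18 * (p : ℝ) ^ (p + 1)) * Real.sqrt Q *
      (9 * (p : ℝ) ^ (p + 1) * (1 + Real.log Q')) = Real.sqrt Q / 2 * (1 + Real.log Q') := by
    field_simp
    ring
  rw [h3]
  apply mul_le_mul _ _ hL'.le (Real.sqrt_nonneg _)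
  · linarith
  · linarith

end Pool.Agent.Helper580_sidon
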