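import Pool.Agent.Helper580_sidon.Block3
import Pool.Agent.Helper580_sidon.ElemCyc

set_option autoImplicit false

namespace Pool.Agent.Helper580_sidon

/-- The box of `∏ ZMod (m i)`. -/
theorem slab_to_prod (p r : ℕ) {n : ℕ} (m : Fin n → ℕ) (hm : ∀ i, Odd (m i)) (x : ℝ)
    (h : Big (Slab p r (∏ i, (m i + 1) / 2)) x) :
    Big (Set.univ : Set ((Fin r → ZMod p) × ((i : Fin n) → ZMod (m i)))) x := by
  refine Big.transfer (fun w => (w.1, fun i => ((dig (fun i => (m i + 1) / 2) w.2 i : ℕ) :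
    ZMod (m i)))) (fun _ _ => Set.mem_univ _) ?_ h
  rintro ⟨v1, y1⟩ h1 ⟨v2, y2⟩ h2 ⟨v3, y3⟩ h3 ⟨v4, y4⟩ h4 he
  simp only [Slab, Set.mem_ofPred_eq] at h1 h2 h3 h4
  simp only [Prod.mk_add_mk, Prod.mk.injEq] at he ⊢
  refine ⟨he.1, ?_⟩
  have hdig : ∀ i, dig (fun i => (m i + 1) / 2) y1 i + dig (fun i => (m i + 1) / 2) y2 i =
      dig (fun i => (m i + 1) / 2) y3 i + dig (fun i => (m i + 1) / 2) y4 i := by
    intro i
    have e4 := congrFun he.2 i
    simp only [Pi.add_apply] at e4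
    rw [← Nat.cast_add, ← Nat.cast_add, ZMod.natCast_eq_natCast_iff'] at e4
    have a1 := dig_lt (fun i => (m i + 1) / 2) y1 h1.1 h1.2 i
    have a2 := dig_lt (fun i => (m i + 1) / 2) y2 h2.1 h2.2 i
    have a3 := dig_lt (fun i => (m i + 1) / 2) y3 h3.1 h3.2 i
    have a4 := dig_lt (fun i => (m i + 1) / 2) y4 h4.1 h4.2 i
    obtain ⟨j, hj⟩ := hm i
    rw [Nat.mod_eq_of_lt (by omega), Nat.mod_eq_of_lt (by omega)] at e4
    exact e4
  rw [dig_sum _ y1 h1.1 h1.2, dig_sum _ y2 h2.1 h2.2, dig_sum _ y3 h3.1 h3.2,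
    dig_sum _ y4 h4.1 h4.2, ← Finset.sum_add_distrib, ← Finset.sum_add_distrib]
  apply Finset.sum_congr rfl
  intro i _
  rw [← add_mul, ← add_mul]
  congr 1
  exact_mod_cast hdig i

/-- Subbox followed by the near-optimal construction. -/
theorem bndF (p : ℕ) [hp : Fact p.Prime] (hp2 : p ≠ 2) (r N : ℕ) (hN : 1 ≤ N) (ρ : ℝ)
    (hρ : Real.log p - Real.log ((p + 1) / 2 : ℕ) ≤
      ρ * (Real.log p + (p - 1) * Real.log ((p + 1) / 2 : ℕ)))
    (hX : (p - 1) * Real.log N ≤ r * Real.log p) :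
    Big (Slab p r N) (Real.exp (1 / 2 * (r * Real.log p + Real.log N -
      ρ * (r * Real.log p - (p - 1) * Real.log N)) - 1) /
      (9 * (p : ℝ) ^ (p + 1) * (1 + (r * Real.log p + Real.log N)))) := by
  classical
  have hp3 : 3 ≤ p := by
    have := hp.out.two_le
    omega
  have hppos : 0 < p := hp.out.pos
  have hp1 : 1 < p := hp.out.one_lt
  have hpR : (1 : ℝ) ≤ p := by exact_mod_cast hppos
  have hpR0 : (0 : ℝ) < p := by positivity
  have hlogp := one_le_log hp3
  have hY0 : 0 ≤ Real.log N := Real.log_nonneg (by exact_mod_cast hN)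
  have hNpos : (0 : ℝ) < N := by exact_mod_cast hN
  set hh := (p + 1) / 2 with hhh
  have hhpos : 0 < hh := by omega
  have hh2 : 2 ≤ hh := by omega
  have hhR : (0 : ℝ) < (hh : ℝ) := by exact_mod_cast hhpos
  set L := Real.log p with hL
  set θ := Real.log (hh : ℝ) with hθ
  set X := (r : ℝ) * L with hXdef
  set Y := Real.log N with hYdef
  have hθ0 : 0 ≤ θ := Real.log_nonneg (by exact_mod_cast hhpos)
  have hθL : θ ≤ L := by
    apply Real.log_le_log hhR
    have : hh ≤ p := by omega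
    exact_mod_cast this
  have hLθ : L - θ ≤ 1 := by
    have h1 : (p : ℝ) ≤ 2 * hh := by
      have : p ≤ 2 * hh := by omega
      exact_mod_cast this
    have h2 : L ≤ Real.log (2 * hh) := Real.log_le_log hpR0 h1
    rw [Real.log_mul (by norm_num) hhR.ne'] at h2
    have := Real.log_two_lt_d9
    linarith
  have hpm : (0 : ℝ) ≤ (p : ℝ) - 1 := by linarith
  have hD : 0 < L + (p - 1) * θ := by
    have := mul_nonneg hpm hθ0
    linarith
  have hρ0 : 0 ≤ ρ := by
    by_contra hcon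
    push Not at hcon
    have : ρ * (L + (p - 1) * θ) < 0 := mul_neg_of_neg_of_pos hcon hD
    linarith
  have hex : ∃ r1 : ℕ, p ^ (r - r1) ≤ (p * (N * hh ^ r1)) ^ (p - 1) := by
    refine ⟨r, ?_⟩
    rw [Nat.sub_self, pow_zero]
    apply Nat.one_le_pow
    positivity
  have hr1 := Nat.find_spec hex
  have hr1min := fun m hm => Nat.find_min hex (m := m) hm
  have hr1le : Nat.find hex ≤ r := by
    apply Nat.find_min'
    rw [Nat.sub_self, pow_zero]
    apply Nat.one_le_pow
    positivity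
  set r1 := Nat.find hex with hr1def
  have hN' : 1 ≤ N * hh ^ r1 := by
    have : 0 < N * hh ^ r1 := by positivity
    omega
  have hB := bnd1 p hp2 (r - r1) (N * hh ^ r1) hN' hr1
  apply (subbox p hp2 (r - r1) r1 r N (by omega) _ hB).mono
  have hlogN' : Real.log ((N * hh ^ r1 : ℕ) : ℝ) = Y + r1 * θ := by
    push_cast
    rw [Real.log_mul hNpos.ne' (by positivity), Real.log_pow]
  have hcast : ((r - r1 : ℕ) : ℝ) = r - r1 := by
    rw [Nat.cast_sub hr1le]
  rw [hlogN', hcast]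
  have hr10 : (0 : ℝ) ≤ r1 := Nat.cast_nonneg _
  have hr1R : (r1 : ℝ) ≤ r := by exact_mod_cast hr1le
  have hS : ((r : ℝ) - r1) * Real.log p + (Y + r1 * θ) = X + Y - r1 * (L - θ) := by
    rw [hXdef]; ring
  rw [hS]
  have hkey : (r1 : ℝ) * (L - θ) ≤ ρ * (X - (p - 1) * Y) + 1 := by
    rcases Nat.eq_zero_or_pos r1 with h0 | h0
    · rw [h0]
      have : 0 ≤ ρ * (X - (p - 1) * Y) := mul_nonneg hρ0 (by linarith)
      simp only [Nat.cast_zero, zero_mul]
      linarith
    · have h1 := hr1min (r1 - 1) (by omega)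
      push Not at h1
      have h2 : Real.log (((p * (N * hh ^ (r1 - 1))) ^ (p - 1) : ℕ) : ℝ) <
          Real.log ((p ^ (r - (r1 - 1)) : ℕ) : ℝ) := by
        apply Real.log_lt_log
        · have : 0 < (p * (N * hh ^ (r1 - 1))) ^ (p - 1) := by positivity
          exact_mod_cast this
        · exact_mod_cast h1
      push_cast at h2
      rw [Real.log_pow, Real.log_pow, Real.log_mul hpR0.ne' (by positivity),
        Real.log_mul hNpos.ne' (by positivity), Real.log_pow] at h2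
      have e1 : ((r - (r1 - 1) : ℕ) : ℝ) = r - r1 + 1 := by
        have : r - (r1 - 1) = r - r1 + 1 := by omega
        rw [this]
        push_cast
        rw [hcast]
      have e2 : ((r1 - 1 : ℕ) : ℝ) = r1 - 1 := by
        rw [Nat.cast_sub h0, Nat.cast_one]
      have e3 : ((p - 1 : ℕ) : ℝ) = p - 1 := by
        rw [Nat.cast_sub (by omega), Nat.cast_one]
      rw [e1, e2, e3] at h2
      have h3 : ((r1 : ℝ) - 1) * (L + (p - 1) * θ) ≤ X - (p - 1) * Y := by
        have h4 : 0 ≤ ((p : ℝ) - 1) * L := mul_nonneg hpm (by linarith)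
        have h5 : ((p : ℝ) - 1) * (L + (Y + ((r1 : ℝ) - 1) * θ)) < ((r : ℝ) - r1 + 1) * L := h2
        rw [hXdef]
        linarith
      have h4 : ((r1 : ℝ) - 1) * (L - θ) ≤ ρ * (X - (p - 1) * Y) := by
        have h6 : (0 : ℝ) ≤ (r1 : ℝ) - 1 := by
          have : (1 : ℝ) ≤ r1 := by exact_mod_cast h0
          linarith
        calc ((r1 : ℝ) - 1) * (L - θ) ≤ ((r1 : ℝ) - 1) * (ρ * (L + (p - 1) * θ)) :=
              mul_le_mul_of_nonneg_left hρ h6
          _ = ρ * (((r1 : ℝ) - 1) * (L + (p - 1) * θ)) := by ring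
          _ ≤ ρ * (X - (p - 1) * Y) := mul_le_mul_of_nonneg_left h3 hρ0
      linarith
  have hr1L : 0 ≤ (r1 : ℝ) * (L - θ) := mul_nonneg hr10 (by linarith)
  have hX' : (0 : ℝ) ≤ X + Y - r1 * (L - θ) := by
    have h1 : (r1 : ℝ) * (L - θ) ≤ r * L := mul_le_mul hr1R (by linarith) (by linarith)
      (Nat.cast_nonneg _)
    rw [hXdef]
    linarith
  have hP : (0 : ℝ) < 9 * (p : ℝ) ^ (p + 1) := by positivity
  apply div_le_div₀ (Real.exp_pos _).le
  · apply Real.exp_le_exp.mpr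
    linarith
  · apply mul_pos hP
    linarith
  · apply mul_le_mul_of_nonneg_left _ hP.le
    linarith

/-- Absorbing the logarithm. -/
theorem absorb (K E T S : ℝ) (hK : 0 < K) (hS : 0 ≤ S) (hE : 4769 / 10000 * S - T ≤ E) :
    Real.exp (-T) / (2000 * K) * Real.exp (10 / 21 * S) ≤ Real.exp E / (K * (1 + S)) := by
  have h1 : (0 : ℝ) < 1 + S := by linarith
  have h2 : 1 + S ≤ 2000 * Real.exp (7 / 10000 * S) := by
    have := Real.add_one_le_exp (7 / 10000 * S)
    nlinarith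
  rw [div_mul_eq_mul_div, div_le_div_iff₀ (by positivity) (by positivity), ← Real.exp_add]
  have h3 : Real.exp (-T + 10 / 21 * S) * Real.exp (7 / 10000 * S) ≤ Real.exp E := by
    rw [← Real.exp_add]
    apply Real.exp_le_exp.mpr
    linarith
  calc Real.exp (-T + 10 / 21 * S) * (K * (1 + S))
      ≤ Real.exp (-T + 10 / 21 * S) * (K * (2000 * Real.exp (7 / 10000 * S))) := by
        apply mul_le_mul_of_nonneg_left _ (Real.exp_pos _).le
        exact mul_le_mul_of_nonneg_left h2 hK.le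
    _ = (Real.exp (-T + 10 / 21 * S) * Real.exp (7 / 10000 * S)) * (2000 * K) := by ring
    _ ≤ Real.exp E * (2000 * K) := mul_le_mul_of_nonneg_right h3 (by positivity)

/-- `ρ` for `p ≥ 5`. -/
theorem rho_ge5 (p : ℕ) (hp : 5 ≤ p) (hodd : Odd p) (hp6 : p ≠ 5 → 7 ≤ p) :
    Real.log p - Real.log ((p + 1) / 2 : ℕ) ≤
      (852 / 10000 : ℝ) * (Real.log p + (p - 1) * Real.log ((p + 1) / 2 : ℕ)) := by
  have hlog2 := Real.log_two_lt_d9
  have hlog2' := Real.log_two_gt_d9
  by_cases h5 : p = 5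
  · subst h5
    have h1 : ((5 + 1) / 2 : ℕ) = 3 := by norm_num
    rw [h1]
    have h2 : (43 : ℝ) * Real.log 5 ≤ 63 * Real.log 3 := by
      have h3 : Real.log ((5 : ℝ) ^ 43) ≤ Real.log ((3 : ℝ) ^ 63) := by
        apply Real.log_le_log (by positivity)
        norm_num
      rw [Real.log_pow, Real.log_pow] at h3
      exact_mod_cast h3
    push_cast
    have h4 : 0 ≤ Real.log 5 := Real.log_nonneg (by norm_num)
    linarith
  · have h7 : 7 ≤ p := hp6 h5
    have hpR : (7 : ℝ) ≤ p := by exact_mod_cast h7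
    have hpR0 : (0 : ℝ) < p := by linarith
    have hhpos : 0 < (p + 1) / 2 := by omega
    have hhR : (0 : ℝ) < (((p + 1) / 2 : ℕ) : ℝ) := by exact_mod_cast hhpos
    have h1 : Real.log p - Real.log 2 ≤ Real.log ((p + 1) / 2 : ℕ) := by
      have h1 : (p : ℝ) ≤ 2 * (((p + 1) / 2 : ℕ) : ℝ) := by
        have : p ≤ 2 * ((p + 1) / 2) := by omega
        exact_mod_cast this
      have h2 : Real.log p ≤ Real.log (2 * (((p + 1) / 2 : ℕ) : ℝ)) := Real.log_le_log hpR0 h1
      rw [Real.log_mul (by norm_num) hhR.ne'] at h2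
      linarith
    have h7log : (2.8 : ℝ) * Real.log 2 ≤ Real.log p := by
      have h3 : Real.log ((2 : ℝ) ^ 14) ≤ Real.log ((p : ℝ) ^ 5) := by
        apply Real.log_le_log (by positivity)
        calc (2 : ℝ) ^ 14 ≤ 7 ^ 5 := by norm_num
          _ ≤ (p : ℝ) ^ 5 := pow_le_pow_left₀ (by norm_num) hpR 5
      rw [Real.log_pow, Real.log_pow] at h3
      push_cast at h3
      linarith
    set θ := Real.log (((p + 1) / 2 : ℕ) : ℝ)
    set L := Real.log (p : ℝ)
    have h8 : (6 : ℝ) * θ ≤ ((p : ℝ) - 1) * θ := by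
      apply mul_le_mul_of_nonneg_right _ (by linarith)
      linarith
    linarith

theorem log3_bounds : (1.583 : ℝ) * Real.log 2 ≤ Real.log 3 ∧
    (41 : ℝ) * Real.log 3 ≤ 65 * Real.log 2 := by
  have h2 := Real.log_two_gt_d9
  constructor
  · have h3 : Real.log ((2 : ℝ) ^ 19) ≤ Real.log ((3 : ℝ) ^ 12) := by
      apply Real.log_le_log (by positivity)
      norm_num
    rw [Real.log_pow, Real.log_pow] at h3
    push_cast at h3
    linarith
  · have h3 : Real.log ((3 : ℝ) ^ 41) ≤ Real.log ((2 : ℝ) ^ 65) := by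
      apply Real.log_le_log (by positivity)
      norm_num
    rw [Real.log_pow, Real.log_pow] at h3
    push_cast at h3
    exact h3

/-- `F_3^{5g} × [0, 3^g)` contains a Sidon set of size `27^g / 27`. -/
theorem block3' (g : ℕ) : Big (Slab 3 (5 * g) (3 ^ g)) ((27 : ℝ) ^ g / 27) := by
  by_cases hg : g < 2
  · apply Big.of_le_one 0 (slab_zero_mem 3 (5 * g) (3 ^ g) (Nat.one_le_pow _ _ (by norm_num)))
    have : g = 0 ∨ g = 1 := by omega
    rcases this with h | h <;> subst h <;> norm_num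
  push Not at hg
  obtain ⟨s, h1, h2⟩ := block3 g (by omega)
  have : Fact (Nat.Prime 3) := ⟨Nat.prime_three⟩
  apply (slab_mono 3 (5 * g) (5 * g) (3 ^ g - 1) (3 ^ g) le_rfl (Nat.sub_le _ _) _ h2).mono
  set t : ℝ := (3 : ℝ) ^ g with ht
  have h3 : (9 : ℝ) ≤ t := by
    have : (3 : ℝ) ^ 2 ≤ (3 : ℝ) ^ g := pow_le_pow_right₀ (by norm_num) hg
    linarith
  have h4 : t ^ 3 ≤ 9 * s + 3 * t ^ 2 + t := by
    have : (((3 ^ g) ^ 3 : ℕ) : ℝ) ≤ ((9 * s + 3 * (3 ^ g) ^ 2 + 3 ^ g : ℕ) : ℝ) := by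
      exact_mod_cast h1
    push_cast at this
    exact this
  have h5 : (27 : ℝ) ^ g = t ^ 3 := by
    rw [ht, ← pow_mul, mul_comm, pow_mul]
    norm_num
  rw [h5]
  have h6 : 9 * t ^ 2 ≤ t ^ 3 := by nlinarith [sq_nonneg t]
  have h7 : t ≤ t ^ 2 := by nlinarith
  linarith

/-- The slab bound for `p ≥ 5`. -/
theorem slab_ge5 (p : ℕ) [hp : Fact p.Prime] (hp5 : 5 ≤ p) :
    ∃ c : ℝ, 0 < c ∧ ∀ r N : ℕ, 1 ≤ N →
      Big (Slab p r N) (c * Real.exp (10 / 21 * (r * Real.log p + Real.log N))) := by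
  have hp2 : p ≠ 2 := by omega
  have hodd : Odd p := hp.out.odd_of_ne_two hp2
  have hp7 : p ≠ 5 → 7 ≤ p := by
    intro h
    obtain ⟨j, hj⟩ := hodd
    omega
  have hρ := rho_ge5 p hp5 hodd hp7
  have hpR : (5 : ℝ) ≤ p := by exact_mod_cast hp5
  have hpR0 : (0 : ℝ) < p := by linarith
  set K : ℝ := 9 * (p : ℝ) ^ (p + 1) with hK
  have hK0 : 0 < K := by positivity
  have hK1 : 3 * (p : ℝ) ≤ K := by
    have h1 : (p : ℝ) ≤ (p : ℝ) ^ (p + 1) := by
      apply le_self_pow₀ (by linarith) (by omega)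
    linarith
  refine ⟨Real.exp (-1) / (2000 * K), by positivity, ?_⟩
  intro r N hN
  have hlogp := one_le_log (show 3 ≤ p by omega)
  have hY0 : 0 ≤ Real.log N := Real.log_nonneg (by exact_mod_cast hN)
  have hX0 : 0 ≤ (r : ℝ) * Real.log p := mul_nonneg (Nat.cast_nonneg _) (by linarith)
  by_cases hX : (p - 1) * Real.log N ≤ r * Real.log p
  · have hF := bndF p hp2 r N hN _ hρ hX
    have hG := bnd3 p hp2 r N hN
    set X := (r : ℝ) * Real.log p with hXdef
    set Y := Real.log N with hYdef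
    by_cases hcase : 4769 / 10000 * (X + Y) ≤ 1 / 2 * X + 1 / 4 * Y
    · apply hG.mono
      rw [div_mul_eq_mul_div, div_le_div_iff₀ (by positivity) (by positivity), ← Real.exp_add]
      have h1 : Real.exp (-1 + 10 / 21 * (X + Y)) ≤ Real.exp (1 / 2 * X + 1 / 4 * Y) := by
        apply Real.exp_le_exp.mpr
        linarith
      apply mul_le_mul h1 _ (by positivity) (Real.exp_pos _).le
      linarith
    · apply hF.mono
      apply absorb K _ 1 (X + Y) hK0 (by linarith)
      push Not at hcase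
      have h4 : 4 * Y ≤ (p - 1) * Y := mul_le_mul_of_nonneg_right (by linarith) hY0
      linarith
  · push Not at hX
    have hcond : p ^ r ≤ (p * N) ^ (p - 1) := by
      have h1 : ((p : ℝ)) ^ r ≤ ((p : ℝ) * N) ^ (p - 1) := by
        have hNpos : (0 : ℝ) < N := by exact_mod_cast hN
        rw [← Real.log_le_log_iff (by positivity) (by positivity), Real.log_pow, Real.log_pow,
          Real.log_mul hpR0.ne' hNpos.ne', Nat.cast_sub (by omega), Nat.cast_one]
        nlinarith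
      exact_mod_cast h1
    apply (bnd1 p hp2 r N hN hcond).mono
    apply absorb K _ 1 _ hK0 (by linarith)
    linarith

/-- The labelled block, `3^r ≤ N^5`. -/
theorem labelled (r N : ℕ) (hN : 1 ≤ N) (hr : 3 ^ r ≤ N ^ 5) :
    Big (Slab 3 r N) (Real.exp (3 / 11 * (2 * (r * Real.log 3) + Real.log N) - 10)) := by
  classical
  have : Fact (Nat.Prime 3) := ⟨Nat.prime_three⟩
  have hNpos : (0 : ℝ) < N := by exact_mod_cast hN
  have hex : ∃ k : ℕ, N * 9 ^ r < 72 * 3 ^ (11 * k) := by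
    refine ⟨N + r, ?_⟩
    have h1 : N < 3 ^ N := Nat.lt_pow_self (by norm_num)
    have h2 : (3 : ℕ) ^ N * 9 ^ r ≤ 3 ^ (11 * (N + r)) := by
      have : (9 : ℕ) = 3 ^ 2 := by norm_num
      rw [this, ← pow_mul, ← pow_add]
      apply Nat.pow_le_pow_right (by norm_num)
      omega
    have h3 : N * 9 ^ r < 3 ^ N * 9 ^ r := Nat.mul_lt_mul_of_pos_right h1 (by positivity)
    have h4 : 0 < 3 ^ (11 * (N + r)) := by positivity
    omega
  have hk1 := Nat.find_spec hex
  have hk2 := fun m hm => Nat.find_min hex (m := m) hm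
  set k := Nat.find hex with hk
  have hlog3 := one_le_log (show 3 ≤ 3 by norm_num)
  have hlog3' : Real.log ((3 : ℕ) : ℝ) = Real.log 3 := by norm_num
  rw [hlog3'] at hlog3
  have hlb := log3_bounds
  have hlog2 := Real.log_two_lt_d9
  -- the size estimate
  have hsize : ∀ g : ℕ, g + 1 = k → Real.exp (3 / 11 * (2 * (r * Real.log 3) + Real.log N) - 10) ≤
      (27 : ℝ) ^ g / 27 := by
    intro g hg
    have h1 : Real.log ((N * 9 ^ r : ℕ) : ℝ) < Real.log ((72 * 3 ^ (11 * k) : ℕ) : ℝ) := by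
      apply Real.log_lt_log
      · have : 0 < N * 9 ^ r := by positivity
        exact_mod_cast this
      · exact_mod_cast hk1
    push_cast at h1
    have h9 : Real.log 9 = 2 * Real.log 3 := by
      rw [show (9 : ℝ) = 3 ^ 2 by norm_num, Real.log_pow]
      norm_num
    have h72 : Real.log 72 = 3 * Real.log 2 + 2 * Real.log 3 := by
      rw [show (72 : ℝ) = 2 ^ 3 * 3 ^ 2 by norm_num, Real.log_mul (by norm_num) (by norm_num),
        Real.log_pow, Real.log_pow]
      norm_num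
    rw [Real.log_mul hNpos.ne' (by positivity), Real.log_mul (by norm_num) (by positivity),
      Real.log_pow, Real.log_pow, h9, h72] at h1
    have h27 : (27 : ℝ) ^ g / 27 = Real.exp ((g - 1) * (3 * Real.log 3)) := by
      have h2 : (27 : ℝ) = Real.exp (3 * Real.log 3) := by
        rw [show (3 : ℝ) * Real.log 3 = Real.log (3 ^ 3) by rw [Real.log_pow]; norm_num,
          Real.exp_log (by norm_num)]
        norm_num
      rw [sub_mul, Real.exp_sub, one_mul, ← h2, Real.exp_nat_mul, ← h2]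
    rw [h27]
    apply Real.exp_le_exp.mpr
    have h3 : ((11 * k : ℕ) : ℝ) = 11 * (g + 1) := by
      rw [← hg]
      push_cast
      ring
    have h3' : ((11 * k : ℕ) : ℝ) * Real.log 3 = 11 * (g + 1) * Real.log 3 := by rw [h3]
    push_cast at h3'
    nlinarith
  rcases Nat.eq_zero_or_pos k with h0 | h0
  · apply Big.of_le_one 0 (slab_zero_mem 3 r N hN)
    rw [h0] at hk1
    have h1 : Real.log ((N * 9 ^ r : ℕ) : ℝ) < Real.log ((72 * 3 ^ (11 * 0) : ℕ) : ℝ) := by
      apply Real.log_lt_log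
      · have : 0 < N * 9 ^ r := by positivity
        exact_mod_cast this
      · exact_mod_cast hk1
    push_cast at h1
    have h9 : Real.log 9 = 2 * Real.log 3 := by
      rw [show (9 : ℝ) = 3 ^ 2 by norm_num, Real.log_pow]
      norm_num
    have h72 : Real.log 72 = 3 * Real.log 2 + 2 * Real.log 3 := by
      rw [show (72 : ℝ) = 2 ^ 3 * 3 ^ 2 by norm_num, Real.log_mul (by norm_num) (by norm_num),
        Real.log_pow, Real.log_pow]
      norm_num
    rw [Real.log_mul hNpos.ne' (by positivity), Real.log_pow, h9, h72] at h1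
    rw [← Real.exp_zero]
    apply Real.exp_le_exp.mpr
    linarith
  obtain ⟨g, hg⟩ : ∃ g, g + 1 = k := ⟨k - 1, by omega⟩
  have hg1 := hk2 g (by omega)
  push Not at hg1
  apply Big.mono _ (hsize g hg)
  by_cases hgr : 5 * g ≤ r
  · -- then `3^g ≤ N`
    have h1 : 3 ^ g ≤ N := by
      have h2 : (3 ^ g) ^ 5 ≤ N ^ 5 := by
        rw [← pow_mul, mul_comm g 5]
        exact (Nat.pow_le_pow_right (by norm_num) hgr).trans hr
      exact (Nat.pow_le_pow_iff_left (by norm_num)).mp h2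
    exact slab_mono 3 (5 * g) r (3 ^ g) N hgr h1 _ (block3' g)
  · push Not at hgr
    obtain ⟨t, ht⟩ : ∃ t, r + t = 5 * g := ⟨5 * g - r, by omega⟩
    have h36 : 1 ≤ 36 * 9 ^ t := by
      have : 0 < 36 * 9 ^ t := by positivity
      omega
    obtain ⟨S, hS1, hS2, hS3⟩ := big_interval (36 * 9 ^ t) h36
    have hS4 : 3 ^ t ≤ S.card := by
      have h2 : Real.sqrt ((36 * 9 ^ t : ℕ) : ℝ) = 6 * 3 ^ t := by
        rw [show ((36 * 9 ^ t : ℕ) : ℝ) = (6 * 3 ^ t) ^ 2 by
          push_cast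
          rw [mul_pow, ← pow_mul, mul_comm t 2, pow_mul]
          norm_num]
        exact Real.sqrt_sq (by positivity)
      rw [h2] at hS3
      have h3 : ((3 : ℝ)) ^ t ≤ S.card := by linarith
      exact_mod_cast h3
    have hN2 : 2 * 3 ^ g * (36 * 9 ^ t) ≤ N := by
      have h3 : 2 * 3 ^ g * (36 * 9 ^ t) * 9 ^ r ≤ N * 9 ^ r := by
        have h4 : 2 * 3 ^ g * (36 * 9 ^ t) * 9 ^ r = 72 * 3 ^ (11 * g) := by
          have h5 : 11 * g = g + 2 * t + 2 * r := by omega
          rw [h5, pow_add, pow_add, pow_mul, pow_mul]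
          norm_num
          ring
        rw [h4]
        exact hg1
      exact Nat.le_of_mul_le_mul_right h3 (by positivity)
    apply compose_label2 3 r t (3 ^ g) (36 * 9 ^ t) N hN2 S hS1 hS2 hS4
    rw [ht]
    exact block3' g

/-- The block followed by the subbox, `N^5 ≤ 3^r`. -/
theorem subblock (r N : ℕ) (hN : 1 ≤ N) (hr : N ^ 5 ≤ 3 ^ r) :
    Big (Slab 3 r N) (Real.exp (4555 / 10000 * (r * Real.log 3) + 721 / 1000 * Real.log N - 10)) := by
  classical
  have : Fact (Nat.Prime 3) := ⟨Nat.prime_three⟩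
  have hNpos : (0 : ℝ) < N := by exact_mod_cast hN
  have hlog3 := one_le_log (show 3 ≤ 3 by norm_num)
  have hlog3' : Real.log ((3 : ℕ) : ℝ) = Real.log 3 := by norm_num
  rw [hlog3'] at hlog3
  have hlb := log3_bounds
  have hlog2 := Real.log_two_lt_d9
  have hY0 : 0 ≤ Real.log N := Real.log_nonneg (by exact_mod_cast hN)
  -- largest `g` with `3^g * 2^(5g) ≤ N * 2^r`
  have hex : ∃ k : ℕ, N * 2 ^ r < 3 ^ k * 2 ^ (5 * k) := by
    refine ⟨N + r, ?_⟩
    have h1 : N < 3 ^ N := Nat.lt_pow_self (by norm_num)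
    have h3 : (3 : ℕ) ^ N ≤ 3 ^ (N + r) := Nat.pow_le_pow_right (by norm_num) (by omega)
    have h2 : (2 : ℕ) ^ r ≤ 2 ^ (5 * (N + r)) := Nat.pow_le_pow_right (by norm_num) (by omega)
    exact Nat.mul_lt_mul_of_lt_of_le (h1.trans_le h3) h2 (by positivity)
  have hk1 := Nat.find_spec hex
  have hk2 := fun m hm => Nat.find_min hex (m := m) hm
  set k := Nat.find hex with hk
  have hk0 : 0 < k := by
    rcases Nat.eq_zero_or_pos k with h | h
    · rw [h] at hk1
      have : 0 < N * 2 ^ r := by positivity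
      simp at hk1
      omega
    · exact h
  obtain ⟨g, hg⟩ : ∃ g, g + 1 = k := ⟨k - 1, by omega⟩
  have hg1 := hk2 g (by omega)
  push Not at hg1
  have h5g : 5 * g ≤ r := by
    by_contra hcon
    push Not at hcon
    have h1 : 3 ^ g ≤ N := by
      by_contra hcon2
      push Not at hcon2
      have : N * 2 ^ r < 3 ^ g * 2 ^ (5 * g) :=
        Nat.mul_lt_mul_of_lt_of_le hcon2 (Nat.pow_le_pow_right (by norm_num) hcon.le)
          (by positivity)
      omega
    have h2 : (3 ^ g) ^ 5 ≤ 3 ^ r := (Nat.pow_le_pow_left h1 5).trans hr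
    rw [← pow_mul] at h2
    have h3 := (Nat.pow_le_pow_iff_right (by norm_num)).mp h2
    omega
  have hN' : 3 ^ g ≤ N * 2 ^ (r - 5 * g) := by
    have h1 : 3 ^ g * 2 ^ (5 * g) ≤ N * 2 ^ (r - 5 * g) * 2 ^ (5 * g) := by
      rw [mul_assoc, ← pow_add, Nat.sub_add_cancel h5g]
      exact hg1
    exact Nat.le_of_mul_le_mul_right h1 (by positivity)
  have hB := slab_mono 3 (5 * g) (5 * g) (3 ^ g) (N * 2 ^ (r - 5 * g)) le_rfl hN' _ (block3' g)
  apply (subbox 3 (by norm_num) (5 * g) (r - 5 * g) r N (by omega) _ hB).mono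
  have h27 : (27 : ℝ) ^ g / 27 = Real.exp ((g - 1) * (3 * Real.log 3)) := by
    have h2 : (27 : ℝ) = Real.exp (3 * Real.log 3) := by
      rw [show (3 : ℝ) * Real.log 3 = Real.log (3 ^ 3) by rw [Real.log_pow]; norm_num,
        Real.exp_log (by norm_num)]
      norm_num
    rw [sub_mul, Real.exp_sub, one_mul, ← h2, Real.exp_nat_mul, ← h2]
  rw [h27]
  apply Real.exp_le_exp.mpr
  have h1 : Real.log ((N * 2 ^ r : ℕ) : ℝ) < Real.log ((3 ^ k * 2 ^ (5 * k) : ℕ) : ℝ) := by
    apply Real.log_lt_log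
    · have : 0 < N * 2 ^ r := by positivity
      exact_mod_cast this
    · exact_mod_cast hk1
  push_cast at h1
  rw [Real.log_mul hNpos.ne' (by positivity), Real.log_mul (by positivity) (by positivity),
    Real.log_pow, Real.log_pow, Real.log_pow, ← hg] at h1
  push_cast at h1
  set Y := Real.log N
  set L := Real.log 3
  set M := Real.log 2
  -- `Y + r M < (g+1) (L + 5 M)`
  have h2 : Y + r * M < (g + 1) * (L + 5 * M) := by linarith
  have hM0 : 0 < M := by linarith [Real.log_two_gt_d9]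
  have hr0 : (0 : ℝ) ≤ r := Nat.cast_nonneg _
  have hD : 0 < L + 5 * M := by linarith
  -- compare
  have h3 : (4555 / 10000 * (r * L) + 721 / 1000 * Y) * (L + 5 * M) ≤ 3 * L * (Y + r * M) := by
    have a1 : 4555 / 10000 * (L + 5 * M) ≤ 3 * M := by linarith
    have a2 : 721 / 1000 * (L + 5 * M) ≤ 3 * L := by linarith
    have b1 := mul_le_mul_of_nonneg_left a1 (mul_nonneg hr0 (by linarith : (0 : ℝ) ≤ L))
    have b2 := mul_le_mul_of_nonneg_left a2 hY0
    linarith
  have h4 : (4555 / 10000 * (r * L) + 721 / 1000 * Y) * (L + 5 * M) ≤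
      3 * L * ((g + 1) * (L + 5 * M)) :=
    h3.trans (mul_le_mul_of_nonneg_left h2.le (by linarith))
  have h5 : 4555 / 10000 * (r * L) + 721 / 1000 * Y ≤ 3 * L * (g + 1) := by
    by_contra hcon
    push Not at hcon
    have := mul_lt_mul_of_pos_right hcon hD
    linarith
  nlinarith

/-- The slab bound for `p = 3`. -/
theorem slab_3 :
    ∃ c : ℝ, 0 < c ∧ ∀ r N : ℕ, 1 ≤ N →
      Big (Slab 3 r N) (c * Real.exp (10 / 21 * (r * Real.log 3 + Real.log N))) := by
  have : Fact (Nat.Prime 3) := ⟨Nat.prime_three⟩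
  set K : ℝ := 9 * (3 : ℝ) ^ (3 + 1) with hK
  have hK0 : 0 < K := by positivity
  refine ⟨Real.exp (-10) / (2000 * K), by positivity, ?_⟩
  intro r N hN
  have hlog3 := one_le_log (show 3 ≤ 3 by norm_num)
  have hlog3' : Real.log ((3 : ℕ) : ℝ) = Real.log 3 := by norm_num
  rw [hlog3'] at hlog3
  have hlb := log3_bounds
  have hlog2 := Real.log_two_lt_d9
  have hNpos : (0 : ℝ) < N := by exact_mod_cast hN
  have hY0 : 0 ≤ Real.log N := Real.log_nonneg (by exact_mod_cast hN)
  have hX0 : 0 ≤ (r : ℝ) * Real.log 3 := mul_nonneg (Nat.cast_nonneg _) (by linarith)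
  have hpure : ∀ E : ℝ, 10 / 21 * (r * Real.log 3 + Real.log N) - 10 ≤ E →
      Real.exp (-10) / (2000 * K) * Real.exp (10 / 21 * (r * Real.log 3 + Real.log N)) ≤
        Real.exp E / 9 := by
    intro E hE
    rw [div_mul_eq_mul_div, div_le_div_iff₀ (by positivity) (by positivity), ← Real.exp_add]
    apply mul_le_mul _ _ (by positivity) (Real.exp_pos _).le
    · apply Real.exp_le_exp.mpr
      linarith
    · rw [hK]; norm_num
  by_cases h5 : 5 * Real.log N ≤ r * Real.log 3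
  · have hr : N ^ 5 ≤ 3 ^ r := by
      have h1 : (N : ℝ) ^ 5 ≤ (3 : ℝ) ^ r := by
        rw [← Real.log_le_log_iff (by positivity) (by positivity), Real.log_pow, Real.log_pow]
        push_cast
        exact h5
      exact_mod_cast h1
    have hF := subblock r N hN hr
    have hG := bnd3 3 (by norm_num) r N hN
    rw [hlog3'] at hG
    by_cases hcase : 4769 / 10000 * (r * Real.log 3 + Real.log N) ≤
        1 / 2 * (r * Real.log 3) + 1 / 4 * Real.log N
    · apply hG.mono
      have h9 : (3 : ℝ) * ((3 : ℕ) : ℝ) = 9 := by norm_num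
      rw [h9]
      apply hpure
      linarith
    · apply hF.mono
      apply (hpure (4555 / 10000 * (r * Real.log 3) + 721 / 1000 * Real.log N - 10) _).trans
      · apply div_le_self (Real.exp_pos _).le (by norm_num)
      · push Not at hcase
        linarith
  push Not at h5
  by_cases h2 : 2 * Real.log N ≤ r * Real.log 3
  · have hr : 3 ^ r ≤ N ^ 5 := by
      have h1 : (3 : ℝ) ^ r ≤ (N : ℝ) ^ 5 := by
        rw [← Real.log_le_log_iff (by positivity) (by positivity), Real.log_pow, Real.log_pow]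
        push_cast
        exact h5.le
      exact_mod_cast h1
    have hH := labelled r N hN hr
    have hρ : Real.log ((3 : ℕ) : ℝ) - Real.log (((3 + 1) / 2 : ℕ) : ℝ) ≤
        (1633 / 10000 : ℝ) * (Real.log ((3 : ℕ) : ℝ) + (((3 : ℕ) : ℝ) - 1) *
          Real.log (((3 + 1) / 2 : ℕ) : ℝ)) := by
      have e1 : ((3 + 1) / 2 : ℕ) = 2 := by norm_num
      rw [e1, hlog3']
      push_cast
      linarith
    have hX' : (((3 : ℕ) : ℝ) - 1) * Real.log N ≤ r * Real.log ((3 : ℕ) : ℝ) := by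
      rw [hlog3']
      push_cast
      linarith
    have hF := bndF 3 (by norm_num) r N hN _ hρ hX'
    rw [hlog3'] at hF
    push_cast at hF
    by_cases hcase : 4769 / 10000 * (r * Real.log 3 + Real.log N) ≤
        3 / 11 * (2 * (r * Real.log 3) + Real.log N)
    · apply hH.mono
      apply (hpure (3 / 11 * (2 * (r * Real.log 3) + Real.log N) - 10) _).trans
      · apply div_le_self (Real.exp_pos _).le (by norm_num)
      · linarith
    · push Not at hcase
      apply hF.mono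
      apply absorb K _ 10 _ hK0 (by linarith)
      linarith
  · push Not at h2
    have hcond : 3 ^ r ≤ (3 * N) ^ (3 - 1) := by
      have h1 : ((3 : ℝ)) ^ r ≤ ((3 : ℝ) * N) ^ 2 := by
        rw [← Real.log_le_log_iff (by positivity) (by positivity), Real.log_pow, Real.log_pow,
          Real.log_mul (by norm_num) hNpos.ne']
        push_cast
        linarith
      have h3 : 3 ^ r ≤ (3 * N) ^ 2 := by exact_mod_cast h1
      exact h3
    have hB := bnd1 3 (by norm_num) r N hN hcond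
    rw [hlog3'] at hB
    push_cast at hB
    apply hB.mono
    apply absorb K _ 10 _ hK0 (by linarith)
    linarith

/-- All slabs, all odd primes. -/
theorem slab_all (p : ℕ) [hp : Fact p.Prime] (hp2 : p ≠ 2) :
    ∃ c : ℝ, 0 < c ∧ ∀ r N : ℕ, 1 ≤ N →
      Big (Slab p r N) (c * Real.exp (10 / 21 * (r * Real.log p + Real.log N))) := by
  by_cases h3 : p = 3
  · subst h3
    obtain ⟨c, hc, h⟩ := slab_3
    refine ⟨c, hc, ?_⟩
    have hlog3' : Real.log ((3 : ℕ) : ℝ) = Real.log 3 := by norm_num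
    rw [hlog3']
    exact h
  · have h5 : 5 ≤ p := by
      have h1 := hp.out.two_le
      obtain ⟨j, hj⟩ := hp.out.odd_of_ne_two hp2
      omega
    exact slab_ge5 p h5

/-- The final bound for `F_p^r × H`, `H` a product of `k` cyclic groups of odd order. -/
theorem all_ranks (p : ℕ) (hp : p.Prime) (hp2 : p ≠ 2) (k : ℕ) :
    ∃ C : ℝ, 0 < C ∧ ∀ (r : ℕ) (m : Fin k → ℕ), (∀ i, Odd (m i)) →
      Big (Set.univ : Set ((Fin r → ZMod p) × ((i : Fin k) → ZMod (m i))))
        (C * ((p : ℝ) ^ r * ∏ i, (m i : ℝ)) ^ (10 / 21 : ℝ)) := by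
  have : Fact p.Prime := ⟨hp⟩
  obtain ⟨c, hc, h⟩ := slab_all p hp2
  refine ⟨c / 2 ^ k, by positivity, ?_⟩
  intro r m hm
  apply slab_to_prod p r m hm
  have hN : 1 ≤ ∏ i, (m i + 1) / 2 := by
    have : 0 < ∏ i, (m i + 1) / 2 := by
      apply Finset.prod_pos
      intro i _
      have := (hm i).pos
      omega
    omega
  apply (h r _ hN).mono
  set N := ∏ i, (m i + 1) / 2 with hNdef
  have hNpos : (0 : ℝ) < N := by exact_mod_cast hN
  have hppos : (0 : ℝ) < p := by exact_mod_cast hp.pos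
  have hQ : (0 : ℝ) < (p : ℝ) ^ r * N := by positivity
  have h1 : Real.exp (10 / 21 * (r * Real.log p + Real.log N)) =
      ((p : ℝ) ^ r * N) ^ (10 / 21 : ℝ) := by
    rw [Real.rpow_def_of_pos hQ, Real.log_mul (by positivity) hNpos.ne', Real.log_pow, mul_comm]
  rw [h1]
  have h2 : ∏ i, (m i : ℝ) ≤ 2 ^ k * N := by
    have h3 : ∏ i, (m i : ℝ) ≤ ∏ i, (2 * (((m i + 1) / 2 : ℕ) : ℝ)) := by
      apply Finset.prod_le_prod
      · intro i _
        exact Nat.cast_nonneg _
      · intro i _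
        have : m i ≤ 2 * ((m i + 1) / 2) := by omega
        exact_mod_cast this
    rw [Finset.prod_mul_distrib, Finset.prod_const, Finset.card_univ, Fintype.card_fin] at h3
    rw [hNdef]
    push_cast at h3 ⊢
    exact h3
  have h4 : (0 : ℝ) ≤ ∏ i, (m i : ℝ) := Finset.prod_nonneg (fun i _ => Nat.cast_nonneg _)
  have h5 : ((p : ℝ) ^ r * ∏ i, (m i : ℝ)) ^ (10 / 21 : ℝ) ≤
      2 ^ k * ((p : ℝ) ^ r * N) ^ (10 / 21 : ℝ) := by
    have h6 : (p : ℝ) ^ r * ∏ i, (m i : ℝ) ≤ 2 ^ k * ((p : ℝ) ^ r * N) := by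
      calc (p : ℝ) ^ r * ∏ i, (m i : ℝ) ≤ (p : ℝ) ^ r * (2 ^ k * N) :=
            mul_le_mul_of_nonneg_left h2 (by positivity)
        _ = 2 ^ k * ((p : ℝ) ^ r * N) := by ring
    calc ((p : ℝ) ^ r * ∏ i, (m i : ℝ)) ^ (10 / 21 : ℝ)
        ≤ (2 ^ k * ((p : ℝ) ^ r * N)) ^ (10 / 21 : ℝ) :=
          Real.rpow_le_rpow (by positivity) h6 (by norm_num)
      _ = ((2 : ℝ) ^ k) ^ (10 / 21 : ℝ) * ((p : ℝ) ^ r * N) ^ (10 / 21 : ℝ) :=
          Real.mul_rpow (by positivity) hQ.le
      _ ≤ 2 ^ k * ((p : ℝ) ^ r * N) ^ (10 / 21 : ℝ) := by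
          apply mul_le_mul_of_nonneg_right _ (by positivity)
          have h7 : (1 : ℝ) ≤ 2 ^ k := one_le_pow₀ (by norm_num)
          calc ((2 : ℝ) ^ k) ^ (10 / 21 : ℝ) ≤ ((2 : ℝ) ^ k) ^ (1 : ℝ) :=
                Real.rpow_le_rpow_of_exponent_le h7 (by norm_num)
            _ = 2 ^ k := Real.rpow_one _
  calc c / 2 ^ k * ((p : ℝ) ^ r * ∏ i, (m i : ℝ)) ^ (10 / 21 : ℝ)
      ≤ c / 2 ^ k * (2 ^ k * ((p : ℝ) ^ r * N) ^ (10 / 21 : ℝ)) :=
        mul_le_mul_of_nonneg_left h5 (by positivity)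
    _ = c * ((p : ℝ) ^ r * N) ^ (10 / 21 : ℝ) := by
        field_simp

end Pool.Agent.Helper580_sidon
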