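import Mathlib

set_option autoImplicit false

namespace Pool.Agent.Helper580_sidon

/-- Sidon sets in an additive structure. -/
def IsSidon {G : Type*} [Add G] (A : Finset G) : Prop :=
  ∀ a ∈ A, ∀ b ∈ A, ∀ c ∈ A, ∀ d ∈ A, a + b = c + d → (a = c ∧ b = d) ∨ (a = d ∧ b = c)

/-- `D` contains a finite Sidon set with at least `x` elements. -/
def Big {W : Type*} [Add W] (D : Set W) (x : ℝ) : Prop :=
  ∃ A : Finset W, (∀ a ∈ A, a ∈ D) ∧ IsSidon A ∧ x ≤ (A.card : ℝ)

theorem Big.mono {W : Type*} [Add W] {D : Set W} {x y : ℝ} (h : Big D x) (hyx : y ≤ x) :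
    Big D y := by
  obtain ⟨A, h1, h2, h3⟩ := h
  exact ⟨A, h1, h2, hyx.trans h3⟩

theorem Big.of_le_one {W : Type*} [Add W] {D : Set W} {x : ℝ} (w : W) (hw : w ∈ D)
    (hx : x ≤ 1) : Big D x := by
  refine ⟨{w}, ?_, ?_, ?_⟩
  · intro a ha
    rw [Finset.mem_singleton] at ha
    rw [ha]; exact hw
  · intro a ha b hb c hc d hd _
    rw [Finset.mem_singleton] at ha hb hc hd
    left
    exact ⟨ha.trans hc.symm, hb.trans hd.symm⟩
  · simpa using hx

/-- Transfer of Sidon sets along a map which reflects additive quadruples. -/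
theorem Big.transfer {W G : Type*} [AddCommGroup W] [AddCommGroup G] {D : Set W} {E : Set G}
    {x : ℝ} (φ : W → G) (hE : ∀ a ∈ D, φ a ∈ E)
    (h : ∀ a ∈ D, ∀ b ∈ D, ∀ c ∈ D, ∀ d ∈ D, φ a + φ b = φ c + φ d → a + b = c + d)
    (hB : Big D x) : Big E x := by
  classical
  obtain ⟨A, hA1, hA2, hA3⟩ := hB
  have hinj : Set.InjOn φ (A : Set W) := by
    intro a ha b hb hab
    have h1 : a + a = a + b :=
      h a (hA1 a ha) a (hA1 a ha) a (hA1 a ha) b (hA1 b hb) (by rw [hab])
    exact add_left_cancel h1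
  refine ⟨A.image φ, ?_, ?_, ?_⟩
  · intro g hg
    rw [Finset.mem_image] at hg
    obtain ⟨a, ha, rfl⟩ := hg
    exact hE a (hA1 a ha)
  · intro a ha b hb c hc d hd habcd
    rw [Finset.mem_image] at ha hb hc hd
    obtain ⟨a, ha, rfl⟩ := ha
    obtain ⟨b, hb, rfl⟩ := hb
    obtain ⟨c, hc, rfl⟩ := hc
    obtain ⟨d, hd, rfl⟩ := hd
    have h1 := h a (hA1 a ha) b (hA1 b hb) c (hA1 c hc) d (hA1 d hd) habcd
    rcases hA2 a ha b hb c hc d hd h1 with ⟨h2, h3⟩ | ⟨h2, h3⟩
    · left; exact ⟨by rw [h2], by rw [h3]⟩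
    · right; exact ⟨by rw [h2], by rw [h3]⟩
  · rw [Finset.card_image_of_injOn hinj]
    exact hA3

/-- The interval `[0,N)` in the integers. -/
def Ico0 (N : ℕ) : Set ℤ := {z | 0 ≤ z ∧ z < (N : ℤ)}

/-- `F_p^r × [0,N)`. -/
def Slab (p r N : ℕ) : Set ((Fin r → ZMod p) × ℤ) := {w | 0 ≤ w.2 ∧ w.2 < (N : ℤ)}

/-- The interval `[0,N)` contains a Sidon set of size at least `√N / 6`. -/
theorem big_interval (N : ℕ) (hN : 1 ≤ N) : Big (Ico0 N) (Real.sqrt N / 6) := by
  classical
  by_cases h32 : N < 32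
  · apply Big.of_le_one 0
    · constructor
      · exact le_refl _
      · exact_mod_cast hN
    · have h1 : Real.sqrt N ≤ 6 := by
        rw [Real.sqrt_le_left (by norm_num)]
        have : (N : ℝ) < 32 := by exact_mod_cast h32
        linarith
      linarith
  push Not at h32
  set n := Nat.sqrt (N / 8) with hn
  have hn2 : 2 ≤ n := by
    rw [hn, Nat.le_sqrt]
    omega
  obtain ⟨l, hl, hnl, hl2⟩ := Nat.exists_prime_lt_and_le_two_mul n (by omega)
  have hn8 : n * n ≤ N / 8 := Nat.sqrt_le (N / 8)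
  have hlN : 2 * l * l ≤ N := by
    have h1 : l * l ≤ (2 * n) * (2 * n) := Nat.mul_le_mul hl2 hl2
    have h2 : 8 * (N / 8) ≤ N := Nat.mul_div_le N 8
    nlinarith
  have hlN2 : N < 8 * (l * l) := by
    have h1 : N / 8 < (n + 1) * (n + 1) := by
      have := Nat.lt_succ_sqrt (N / 8)
      simpa [hn] using this
    have h2 : (n + 1) * (n + 1) ≤ l * l := Nat.mul_le_mul hnl hnl
    have h3 : N / 8 < l * l := lt_of_lt_of_le h1 h2
    omega
  have : Fact l.Prime := ⟨hl⟩
  have hlpos : 0 < l := hl.pos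
  let f : ℕ → ℤ := fun k => 2 * (l : ℤ) * k + ((k : ℤ) * k) % l
  have hf0 : ∀ k : ℕ, 0 ≤ ((k : ℤ) * k) % l := fun k =>
    Int.emod_nonneg _ (by exact_mod_cast hlpos.ne')
  have hf1 : ∀ k : ℕ, ((k : ℤ) * k) % l < l := fun k =>
    Int.emod_lt_of_pos _ (by exact_mod_cast hlpos)
  have key : ∀ k1 < l, ∀ k2 < l, ∀ k3 < l, ∀ k4 < l, f k1 + f k2 = f k3 + f k4 →
      (k1 = k3 ∧ k2 = k4) ∨ (k1 = k4 ∧ k2 = k3) := by
    intro k1 h1 k2 h2 k3 h3 k4 h4 he
    have hl0 : (0 : ℤ) < l := by exact_mod_cast hlpos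
    simp only [f] at he
    have e1 : (k1 : ℤ) + k2 = k3 + k4 := by
      have a1 := hf0 k1; have a2 := hf0 k2; have a3 := hf0 k3; have a4 := hf0 k4
      have b1 := hf1 k1; have b2 := hf1 k2; have b3 := hf1 k3; have b4 := hf1 k4
      have h5 : 2 * (l : ℤ) * ((k1 : ℤ) + k2 - (k3 + k4)) =
        (((k3 : ℤ) * k3) % l + ((k4 : ℤ) * k4) % l) - (((k1 : ℤ) * k1) % l + ((k2 : ℤ) * k2) % l) := by
        linarith
      have h6 : 2 * (l : ℤ) * ((k1 : ℤ) + k2 - (k3 + k4)) < 2 * l := by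
        rw [h5]; linarith
      have h7 : -(2 * (l : ℤ)) < 2 * (l : ℤ) * ((k1 : ℤ) + k2 - (k3 + k4)) := by
        rw [h5]; linarith
      have h8 : ((k1 : ℤ) + k2 - (k3 + k4)) < 1 := by
        by_contra hcon
        push Not at hcon
        nlinarith
      have h9 : -1 < ((k1 : ℤ) + k2 - (k3 + k4)) := by
        by_contra hcon
        push Not at hcon
        nlinarith
      omega
    have e2 : (((k1 : ℤ) * k1) % l + ((k2 : ℤ) * k2) % l) =
        (((k3 : ℤ) * k3) % l + ((k4 : ℤ) * k4) % l) := by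
      have : 2 * (l : ℤ) * (k1 + k2) = 2 * (l : ℤ) * (k3 + k4) := by rw [e1]
      linarith
    have e3 : ((k1 : ZMod l)) * k1 + (k2 : ZMod l) * k2 = (k3 : ZMod l) * k3 + (k4 : ZMod l) * k4 := by
      have h := congrArg (fun z : ℤ => (z : ZMod l)) e2
      simp only [Int.cast_add] at h
      have hm : ∀ k : ℕ, ((((k : ℤ) * k) % (l : ℤ) : ℤ) : ZMod l) = (k : ZMod l) * k := by
        intro k
        have := ZMod.intCast_mod ((k : ℤ) * k) l
        rw [this]; push_cast; ring
      rw [hm, hm, hm, hm] at h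
      exact h
    have e4 : (k1 : ZMod l) + k2 = (k3 : ZMod l) + k4 := by
      have h := congrArg (fun z : ℤ => (z : ZMod l)) e1
      push_cast at h
      exact h
    have e5 : (2 : ZMod l) * (((k1 : ZMod l) - k3) * ((k1 : ZMod l) - k4)) = 0 := by
      have hk2 : (k2 : ZMod l) = k3 + k4 - k1 := by rw [← e4]; ring
      rw [hk2] at e3
      linear_combination e3
    have h2ne : (2 : ZMod l) ≠ 0 := by
      intro h20
      have h21 : ((2 : ℕ) : ZMod l) = 0 := by exact_mod_cast h20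
      rw [ZMod.natCast_eq_zero_iff] at h21
      have := Nat.le_of_dvd (by norm_num) h21
      omega
    have hcast : ∀ a < l, ∀ b < l, (a : ZMod l) - b = 0 → a = b := by
      intro a ha b hb hab
      have h' : (a : ZMod l) = b := sub_eq_zero.mp hab
      rw [ZMod.natCast_eq_natCast_iff'] at h'
      rwa [Nat.mod_eq_of_lt ha, Nat.mod_eq_of_lt hb] at h'
    rcases mul_eq_zero.mp e5 with h | h
    · exact absurd h h2ne
    rcases mul_eq_zero.mp h with h | h
    · left
      have h13 := hcast k1 h1 k3 h3 h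
      refine ⟨h13, ?_⟩
      subst h13
      have : (k2 : ℤ) = k4 := by linarith
      exact_mod_cast this
    · right
      have h14 := hcast k1 h1 k4 h4 h
      refine ⟨h14, ?_⟩
      subst h14
      have : (k2 : ℤ) = k3 := by linarith
      exact_mod_cast this
  have hinj : Set.InjOn f (Finset.range l : Set ℕ) := by
    intro a ha b hb hab
    have ha' : a < l := by simpa using ha
    have hb' : b < l := by simpa using hb
    rcases key a ha' a ha' a ha' b hb' (by rw [hab]) with ⟨_, h⟩ | ⟨h, _⟩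
    · exact h
    · exact h
  refine ⟨(Finset.range l).image f, ?_, ?_, ?_⟩
  · intro z hz
    rw [Finset.mem_image] at hz
    obtain ⟨k, hk, rfl⟩ := hz
    rw [Finset.mem_range] at hk
    have a1 := hf0 k
    have b1 := hf1 k
    have hk' : (k : ℤ) + 1 ≤ l := by exact_mod_cast hk
    have hl0 : (0 : ℤ) < l := by exact_mod_cast hlpos
    have hlN' : 2 * (l : ℤ) * l ≤ N := by exact_mod_cast hlN
    have hk0 : (0 : ℤ) ≤ k := by positivity
    constructor
    · simp only [f]
      positivity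
    · simp only [f]
      have : 2 * (l : ℤ) * ((k : ℤ) + 1) ≤ 2 * (l : ℤ) * l :=
        mul_le_mul_of_nonneg_left hk' (by positivity)
      nlinarith
  · intro a ha b hb c hc d hd habcd
    rw [Finset.mem_image] at ha hb hc hd
    obtain ⟨a, ha, rfl⟩ := ha
    obtain ⟨b, hb, rfl⟩ := hb
    obtain ⟨c, hc, rfl⟩ := hc
    obtain ⟨d, hd, rfl⟩ := hd
    rw [Finset.mem_range] at ha hb hc hd
    rcases key a ha b hb c hc d hd habcd with ⟨h2, h3⟩ | ⟨h2, h3⟩
    · left; exact ⟨by rw [h2], by rw [h3]⟩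
    · right; exact ⟨by rw [h2], by rw [h3]⟩
  · rw [Finset.card_image_of_injOn hinj, Finset.card_range]
    have h1 : Real.sqrt N ≤ 6 * l := by
      rw [Real.sqrt_le_left (by positivity)]
      have h2 : (N : ℝ) < 8 * (l * l) := by exact_mod_cast hlN2
      have h3 : (0 : ℝ) ≤ l * l := by positivity
      nlinarith
    linarith

end Pool.Agent.Helper580_sidon
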