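import Pool.Agent.Helper580_sidon.GaloisRing

set_option autoImplicit false

namespace Pool.Agent.Helper580_sidon

theorem half_set (K : Type) [Field K] [Fintype K] (h2 : (2 : K) ≠ 0) (Y : Finset K)
    (hsym : ∀ x ∈ Y, -x ∈ Y) :
    ∃ X : Finset K, (∀ x ∈ X, x ∈ Y) ∧ (∀ x ∈ X, ∀ y ∈ X, x + y = 0 → x = 0 ∧ y = 0) ∧
      Y.card ≤ 2 * X.card := by
  classical
  let e := Fintype.equivFin K
  let X := Y.filter (fun x => e x ≤ e (-x))
  have hX : ∀ x ∈ X, x ∈ Y ∧ e x ≤ e (-x) := fun x hx => Finset.mem_filter.mp hx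
  refine ⟨X, fun x hx => (hX x hx).1, ?_, ?_⟩
  · intro x hx y hy hxy
    have hy' : y = -x := by linear_combination hxy
    have h3 := (hX x hx).2
    have h4 := (hX y hy).2
    rw [hy', neg_neg] at h4
    have h5 : x = -x := e.injective (le_antisymm h3 h4)
    have h6 : (2 : K) * x = 0 := by linear_combination h5
    rcases mul_eq_zero.mp h6 with h | h
    · exact absurd h h2
    · refine ⟨h, ?_⟩
      rw [hy', h, neg_zero]
  · have hsub : Y ⊆ X ∪ X.image (fun x => -x) := by
      intro x hx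
      rw [Finset.mem_union, Finset.mem_image]
      rcases le_total (e x) (e (-x)) with h | h
      · left
        exact Finset.mem_filter.mpr ⟨hx, h⟩
      · right
        refine ⟨-x, Finset.mem_filter.mpr ⟨hsym x hx, ?_⟩, neg_neg x⟩
        rw [neg_neg]
        exact h
    calc Y.card ≤ (X ∪ X.image (fun x => -x)).card := Finset.card_le_card hsub
      _ ≤ X.card + (X.image (fun x => -x)).card := Finset.card_union_le _ _
      _ ≤ X.card + X.card := Nat.add_le_add_left Finset.card_image_le _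
      _ = 2 * X.card := (two_mul _).symm

/-- A family reflecting additive quadruples gives a Sidon set. -/
theorem big_of_key {K R : Type} [AddCommGroup R] (X : Finset K) (T : K → R)
    (key : ∀ x ∈ X, ∀ y ∈ X, ∀ u ∈ X, ∀ v ∈ X, T x + T y = T u + T v →
      (x = u ∧ y = v) ∨ (x = v ∧ y = u)) :
    Big (Set.univ : Set R) X.card := by
  classical
  have hinj : Set.InjOn T (X : Set K) := by
    intro x hx y hy hxy
    rcases key x hx x hx x hx y hy (by rw [hxy]) with ⟨_, h⟩ | ⟨h, _⟩
    · exact h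
    · exact h
  refine ⟨X.image T, fun _ _ => Set.mem_univ _, ?_, ?_⟩
  · intro a ha b hb c hc d hd habcd
    rw [Finset.mem_image] at ha hb hc hd
    obtain ⟨a, ha, rfl⟩ := ha
    obtain ⟨b, hb, rfl⟩ := hb
    obtain ⟨c, hc, rfl⟩ := hc
    obtain ⟨d, hd, rfl⟩ := hd
    rcases key a ha b hb c hc d hd habcd with ⟨h2, h3⟩ | ⟨h2, h3⟩
    · left; exact ⟨by rw [h2], by rw [h3]⟩
    · right; exact ⟨by rw [h2], by rw [h3]⟩
  · rw [Finset.card_image_of_injOn hinj]

theorem pair_eq {K : Type} [Field K] {x y u v : K} (hs : x + y = u + v) (hm : x * y = u * v) :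
    (x = u ∧ y = v) ∨ (x = v ∧ y = u) := by
  have h : (x - u) * (x - v) = 0 := by
    have hy : y = u + v - x := by rw [← hs]; ring
    rw [hy] at hm
    linear_combination -hm
  rcases mul_eq_zero.mp h with h | h
  · left
    have hx : x = u := sub_eq_zero.mp h
    refine ⟨hx, ?_⟩
    rw [hx] at hs
    exact add_left_cancel hs
  · right
    have hx : x = v := sub_eq_zero.mp h
    refine ⟨hx, ?_⟩
    rw [hx, add_comm u v] at hs
    exact add_left_cancel hs

theorem add_eq_of_pow {K : Type} [Field K] (p : ℕ) [Fact p.Prime] [CharP K p] {x y u v : K}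
    (h : x ^ p + y ^ p = u ^ p + v ^ p) : x + y = u + v := by
  have h1 : (x + y) ^ p = (u + v) ^ p := by rw [add_pow_char, add_pow_char, h]
  exact frobenius_inj K p h1

theorem nine (r : ℕ) : Big (Set.univ : Set (Fin r → ZMod (3 ^ 2))) ((3 : ℝ) ^ r / 2) := by
  classical
  by_cases hr : r = 0
  · subst hr
    apply Big.of_le_one 0 (Set.mem_univ _)
    norm_num
  have : Fact (Nat.Prime 3) := ⟨Nat.prime_three⟩
  obtain ⟨R, K, iR, iK, iF, ρ, l, hρ, hcard, hchar, hker, htors, hsq, hl, ⟨E⟩⟩ :=
    galois_ring 3 (by norm_num) r (Nat.pos_of_ne_zero hr)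
  have h2 : (2 : K) ≠ 0 := by
    intro h
    have h' : ((2 : ℕ) : K) = 0 := by exact_mod_cast h
    rw [CharP.cast_eq_zero_iff K 3] at h'
    omega
  obtain ⟨X, _, hX2, hX3⟩ := half_set K h2 Finset.univ (fun x _ => Finset.mem_univ _)
  choose lf hlf using hρ
  have h9 : (9 : R) = 0 := by
    have : ((3 : ℕ) : R) ^ 2 = 9 := by push_cast; norm_num
    rw [← this]
    exact hsq
  have key : ∀ x ∈ X, ∀ y ∈ X, ∀ u ∈ X, ∀ v ∈ X, (lf x) ^ 3 + (lf y) ^ 3 = (lf u) ^ 3 + (lf v) ^ 3 →
      (x = u ∧ y = v) ∨ (x = v ∧ y = u) := by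
    intro x hx y hy u hu v hv h
    have h1 := congrArg ρ h
    simp only [map_add, map_pow, hlf] at h1
    have hs : x + y = u + v := add_eq_of_pow 3 h1
    by_cases hs0 : x + y = 0
    · obtain ⟨hx0, hy0⟩ := hX2 x hx y hy hs0
      obtain ⟨hu0, hv0⟩ := hX2 u hu v hv (hs ▸ hs0)
      left
      rw [hx0, hy0, hu0, hv0]
      exact ⟨rfl, rfl⟩
    have hz : ρ (lf x + lf y - (lf u + lf v)) = 0 := by
      simp only [map_add, map_sub, hlf]
      rw [hs, sub_self]
    obtain ⟨w, hw⟩ := hker _ hz
    push_cast at hw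
    have h3 : ((3 : ℕ) : R) * (lf x * lf y * (lf x + lf y) - lf u * lf v * (lf u + lf v)) = 0 := by
      push_cast
      linear_combination (-1) * h + ((lf x + lf y) ^ 2 + (lf x + lf y) * (lf u + lf v + 3 * w) +
        (lf u + lf v + 3 * w) ^ 2) * hw + (w * (lf u + lf v) ^ 2 + 3 * w ^ 2 * (lf u + lf v) +
        3 * w ^ 3) * h9
    have h4 := htors _ h3
    simp only [map_add, map_sub, map_mul, hlf] at h4
    have h5 : (x + y) * (x * y - u * v) = 0 := by
      rw [← hs] at h4
      linear_combination h4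
    rcases mul_eq_zero.mp h5 with h | h
    · exact absurd h hs0
    · exact pair_eq hs (sub_eq_zero.mp h)
  have hB := big_of_key (R := R) X (fun x => (lf x) ^ 3) key
  have hB2 : Big (Set.univ : Set (Fin r → ZMod (3 ^ 2))) X.card := by
    refine Big.transfer E (fun _ _ => Set.mem_univ _) ?_ hB
    intro a _ b _ c _ d _ he
    rw [← map_add, ← map_add] at he
    exact E.injective he
  apply hB2.mono
  rw [Finset.card_univ, hcard] at hX3
  have : (3 : ℝ) ^ r ≤ 2 * X.card := by exact_mod_cast hX3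
  linarith

theorem card_fibre_one (p : ℕ) [hp : Fact p.Prime] (K : Type) [Field K] [Fintype K]
    (l : K →+ ZMod p) (hl : Function.Surjective l) :
    p * (Finset.univ.filter (fun z : K => l z = 1)).card = Fintype.card K := by
  classical
  have h1 : ∀ c : ZMod p, (Finset.univ.filter (fun z : K => l z = c)).card =
      (Finset.univ.filter (fun z : K => l z = 1)).card := by
    intro c
    obtain ⟨z0, hz0⟩ := hl (1 - c)
    apply Finset.card_bij (fun z _ => z + z0)
    · intro z hz
      rw [Finset.mem_filter] at hz ⊢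
      refine ⟨Finset.mem_univ _, ?_⟩
      rw [map_add, hz.2, hz0]
      ring
    · intro a _ b _ hab
      exact add_right_cancel hab
    · intro b hb
      rw [Finset.mem_filter] at hb
      refine ⟨b - z0, ?_, by ring⟩
      rw [Finset.mem_filter]
      refine ⟨Finset.mem_univ _, ?_⟩
      rw [map_sub, hb.2, hz0]
      ring
  have h2 : Fintype.card K = ∑ c : ZMod p, (Finset.univ.filter (fun z : K => l z = c)).card := by
    rw [← Finset.card_univ]
    exact Finset.card_eq_sum_card_fiberwise (fun z _ => Finset.mem_coe.mpr (Finset.mem_univ _))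
  rw [h2, Finset.sum_congr rfl (fun c _ => h1 c), Finset.sum_const, Finset.card_univ, ZMod.card,
    smul_eq_mul]

theorem exists_beta (p : ℕ) [hp : Fact p.Prime] (K : Type) [Field K] [Fintype K]
    (l : K →+ ZMod p) (hl : Function.Surjective l) :
    ∃ β : K, Fintype.card K ≤
      p * (Finset.univ.filter (fun x : K => l (β * x ^ 2) = 1)).card + 1 := by
  classical
  set t := (Finset.univ.filter (fun z : K => l z = 1)).card with ht
  have hpt : p * t = Fintype.card K := card_fibre_one p K l hl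
  have hcount : ∀ x : K, x ≠ 0 → (Finset.univ.filter (fun β : K => l (β * x ^ 2) = 1)).card = t := by
    intro x hx
    have hx2 : x ^ 2 ≠ 0 := pow_ne_zero 2 hx
    apply Finset.card_bij (fun β _ => β * x ^ 2)
    · intro β hβ
      rw [Finset.mem_filter] at hβ ⊢
      exact ⟨Finset.mem_univ _, hβ.2⟩
    · intro a _ b _ hab
      exact mul_right_cancel₀ hx2 hab
    · intro b hb
      rw [Finset.mem_filter] at hb
      refine ⟨b / x ^ 2, ?_, div_mul_cancel₀ b hx2⟩
      rw [Finset.mem_filter, div_mul_cancel₀ b hx2]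
      exact ⟨Finset.mem_univ _, hb.2⟩
  have hsum : ∑ β : K, (Finset.univ.filter (fun x : K => l (β * x ^ 2) = 1)).card =
      ∑ x : K, (Finset.univ.filter (fun β : K => l (β * x ^ 2) = 1)).card := by
    simp_rw [Finset.card_filter]
    exact Finset.sum_comm
  have hge : (Fintype.card K - 1) * t ≤
      ∑ x : K, (Finset.univ.filter (fun β : K => l (β * x ^ 2) = 1)).card := by
    calc (Fintype.card K - 1) * t = ∑ x ∈ Finset.univ.erase (0 : K), t := by
          rw [Finset.sum_const, Finset.card_erase_of_mem (Finset.mem_univ _), Finset.card_univ,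
            smul_eq_mul]
      _ = ∑ x ∈ Finset.univ.erase (0 : K),
          (Finset.univ.filter (fun β : K => l (β * x ^ 2) = 1)).card := by
          apply Finset.sum_congr rfl
          intro x hx
          exact (hcount x (Finset.ne_of_mem_erase hx)).symm
      _ ≤ _ := Finset.sum_le_sum_of_subset (Finset.erase_subset _ _)
  by_contra hcon
  push Not at hcon
  have hK : 0 < Fintype.card K := Fintype.card_pos
  have h3 : ∀ β : K, p * (Finset.univ.filter (fun x : K => l (β * x ^ 2) = 1)).card + 2 ≤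
      Fintype.card K := fun β => hcon β
  have h4 : ∑ β : K, (p * (Finset.univ.filter (fun x : K => l (β * x ^ 2) = 1)).card + 2) ≤
      ∑ _β : K, Fintype.card K := Finset.sum_le_sum (fun β _ => h3 β)
  rw [Finset.sum_add_distrib, ← Finset.mul_sum, hsum, Finset.sum_const, Finset.sum_const,
    Finset.card_univ, smul_eq_mul, smul_eq_mul] at h4
  have h5 : p * ((Fintype.card K - 1) * t) ≤
      p * ∑ x : K, (Finset.univ.filter (fun β : K => l (β * x ^ 2) = 1)).card :=
    Nat.mul_le_mul_left _ hge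
  have h6 : p * ((Fintype.card K - 1) * t) = (Fintype.card K - 1) * Fintype.card K := by
    rw [← hpt]; ring
  rw [h6] at h5
  have h7 : (Fintype.card K - 1) * Fintype.card K + Fintype.card K * 2 ≤
      Fintype.card K * Fintype.card K := by linarith
  obtain ⟨c, hc⟩ : ∃ c, Fintype.card K = c + 1 := ⟨Fintype.card K - 1, by omega⟩
  rw [hc, Nat.add_sub_cancel] at h7
  nlinarith

theorem four_ne : (1 : ZMod 5) + 1 + (1 + 1) ≠ 0 := by decide

theorem twentyfive (r : ℕ) :
    Big (Set.univ : Set (Fin r → ZMod (5 ^ 2))) (2 / 25 * (5 : ℝ) ^ r) := by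
  classical
  by_cases hr : r = 0
  · subst hr
    apply Big.of_le_one 0 (Set.mem_univ _)
    norm_num
  have : Fact (Nat.Prime 5) := ⟨Nat.prime_five⟩
  obtain ⟨R, K, iR, iK, iF, ρ, l, hρ, hcard, hchar, hker, htors, hsq, hl, ⟨E⟩⟩ :=
    galois_ring 5 (by norm_num) r (Nat.pos_of_ne_zero hr)
  have h2 : (2 : K) ≠ 0 := by
    intro h
    have h' : ((2 : ℕ) : K) = 0 := by exact_mod_cast h
    rw [CharP.cast_eq_zero_iff K 5] at h'
    omega
  obtain ⟨β, hβ⟩ := exists_beta 5 K l hl
  obtain ⟨X, hX1, hX2, hX3⟩ := half_set K h2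
    (Finset.univ.filter (fun x : K => l (β * x ^ 2) = 1)) (by
      intro x hx
      rw [Finset.mem_filter] at hx ⊢
      rw [neg_sq]
      exact ⟨Finset.mem_univ _, hx.2⟩)
  have hX4 : ∀ x ∈ X, l (β * x ^ 2) = 1 := fun x hx => (Finset.mem_filter.mp (hX1 x hx)).2
  choose lf hlf using hρ
  have h25 : (25 : R) = 0 := by
    have : ((5 : ℕ) : R) ^ 2 = 25 := by push_cast; norm_num
    rw [← this]
    exact hsq
  have key : ∀ x ∈ X, ∀ y ∈ X, ∀ u ∈ X, ∀ v ∈ X, (lf x) ^ 5 + (lf y) ^ 5 = (lf u) ^ 5 + (lf v) ^ 5 →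
      (x = u ∧ y = v) ∨ (x = v ∧ y = u) := by
    intro x hx y hy u hu v hv h
    have h1 := congrArg ρ h
    simp only [map_add, map_pow, hlf] at h1
    have hs : x + y = u + v := add_eq_of_pow 5 h1
    by_cases hs0 : x + y = 0
    · obtain ⟨hx0, hy0⟩ := hX2 x hx y hy hs0
      obtain ⟨hu0, hv0⟩ := hX2 u hu v hv (hs ▸ hs0)
      left
      rw [hx0, hy0, hu0, hv0]
      exact ⟨rfl, rfl⟩
    have hz : ρ (lf x + lf y - (lf u + lf v)) = 0 := by
      simp only [map_add, map_sub, hlf]
      rw [hs, sub_self]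
    obtain ⟨w, hw⟩ := hker _ hz
    push_cast at hw
    have hw' : lf x + lf y = lf u + lf v + 5 * w := by linear_combination hw
    have h3 : ((5 : ℕ) : R) * (lf x * lf y * (lf x + lf y) *
        ((lf x) ^ 2 + lf x * lf y + (lf y) ^ 2) -
        lf u * lf v * (lf u + lf v) * ((lf u) ^ 2 + lf u * lf v + (lf v) ^ 2)) = 0 := by
      have e1 : (lf x + lf y) ^ 5 = (lf u + lf v) ^ 5 := by
        rw [hw']
        linear_combination ((lf u + lf v) ^ 4 * w + 10 * (lf u + lf v) ^ 3 * w ^ 2 +
          50 * (lf u + lf v) ^ 2 * w ^ 3 + 125 * (lf u + lf v) * w ^ 4 + 125 * w ^ 5) * h25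
      push_cast
      linear_combination (-1) * h + e1
    have h4 := htors _ h3
    simp only [map_add, map_sub, map_mul, map_pow, hlf] at h4
    have h5 : (x + y) * ((x * y - u * v) * ((x + y) ^ 2 - x * y - u * v)) = 0 := by
      have e2 : u = x + y - v := by rw [hs]; ring
      rw [e2] at h4 ⊢
      linear_combination h4
    rcases mul_eq_zero.mp h5 with h | h
    · exact absurd h hs0
    rcases mul_eq_zero.mp h with h | h
    · exact pair_eq hs (sub_eq_zero.mp h)
    · exfalso
      have e3 : β * x ^ 2 + β * y ^ 2 + (β * u ^ 2 + β * v ^ 2) = 0 := by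
        have e4 : (u + v) ^ 2 = (x + y) ^ 2 := by rw [hs]
        linear_combination 2 * β * h + β * e4
      have e5 := congrArg l e3
      simp only [map_add, map_zero] at e5
      rw [hX4 x hx, hX4 y hy, hX4 u hu, hX4 v hv] at e5
      exact four_ne e5
  have hB := big_of_key (R := R) X (fun x => (lf x) ^ 5) key
  have hB2 : Big (Set.univ : Set (Fin r → ZMod (5 ^ 2))) X.card := by
    refine Big.transfer E (fun _ _ => Set.mem_univ _) ?_ hB
    intro a _ b _ c _ d _ he
    rw [← map_add, ← map_add] at he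
    exact E.injective he
  apply hB2.mono
  rw [hcard] at hβ
  have h5r : 5 ≤ 5 ^ r := by
    calc 5 = 5 ^ 1 := (pow_one 5).symm
      _ ≤ 5 ^ r := Nat.pow_le_pow_right (by norm_num) (Nat.pos_of_ne_zero hr)
  have hfin : 2 * 5 ^ r ≤ 25 * X.card := by omega
  have : 2 * (5 : ℝ) ^ r ≤ 25 * X.card := by exact_mod_cast hfin
  linarith

end Pool.Agent.Helper580_sidon
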