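import Pool.Agent.Helper580_sidon.Subbox
import Pool.Agent.Helper580_sidon.SquareExp

set_option autoImplicit false

open Polynomial

namespace Pool.Agent.Helper580_sidon

/-- Many irreducible cubics over a finite field. -/
theorem many_cubics (F : Type) [Field F] [Fintype F] (p : ℕ) [hp : Fact p.Prime] [CharP F p] :
    ∃ S : Finset F[X], (∀ P ∈ S, P.Monic ∧ Irreducible P ∧ P.natDegree = 3) ∧
      Fintype.card F ^ 3 ≤ 3 * S.card + Fintype.card F := by
  classical
  let E := FiniteField.Extension F p 3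
  have : Fintype E := Fintype.ofFinite _
  have hcardE : Fintype.card E = Fintype.card F ^ 3 := by
    rw [← Nat.card_eq_fintype_card, ← Nat.card_eq_fintype_card]
    exact FiniteField.natCard_extension F p 3
  have hfr : Module.finrank F E = 3 := by
    have h1 : Fintype.card E = Fintype.card F ^ Module.finrank F E :=
      Module.card_eq_pow_finrank
    rw [hcardE] at h1
    exact (Nat.pow_right_injective (Fintype.one_lt_card (α := F)) h1).symm
  have hint : ∀ x : E, IsIntegral F x := fun x => Algebra.IsIntegral.isIntegral x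
  let f : E → F[X] := fun x => minpoly F x
  let T : Finset E := Finset.univ.filter (fun x => (f x).natDegree = 3)
  have hcover : (Finset.univ : Finset E) ⊆ T ∪ Finset.univ.image (algebraMap F E) := by
    intro x _
    rw [Finset.mem_union, Finset.mem_image]
    have h1 : (f x).natDegree ∣ 3 := by
      rw [← hfr]
      exact minpoly.degree_dvd (hint x)
    rcases (Nat.dvd_prime Nat.prime_three).mp h1 with h | h
    · right
      have h2 : x ∈ (algebraMap F E).range := minpoly.natDegree_eq_one_iff.mp h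
      obtain ⟨y, hy⟩ := h2
      exact ⟨y, Finset.mem_univ _, hy⟩
    · left
      rw [Finset.mem_filter]
      exact ⟨Finset.mem_univ _, h⟩
  have hTcard : Fintype.card F ^ 3 ≤ T.card + Fintype.card F := by
    calc Fintype.card F ^ 3 = (Finset.univ : Finset E).card := by rw [Finset.card_univ, hcardE]
      _ ≤ (T ∪ Finset.univ.image (algebraMap F E)).card := Finset.card_le_card hcover
      _ ≤ T.card + (Finset.univ.image (algebraMap F E)).card := Finset.card_union_le _ _
      _ ≤ T.card + Fintype.card F := Nat.add_le_add_left Finset.card_image_le _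
  refine ⟨T.image f, ?_, ?_⟩
  · intro P hP
    rw [Finset.mem_image] at hP
    obtain ⟨x, hx, rfl⟩ := hP
    rw [Finset.mem_filter] at hx
    exact ⟨minpoly.monic (hint x), minpoly.irreducible (hint x), hx.2⟩
  · have hfib : ∀ P ∈ T.image f, (T.filter (fun x => f x = P)).card ≤ 3 := by
      intro P hP
      rw [Finset.mem_image] at hP
      obtain ⟨y, hy, rfl⟩ := hP
      rw [Finset.mem_filter] at hy
      have hmon : (f y).Monic := minpoly.monic (hint y)
      have hne : (f y).map (algebraMap F E) ≠ 0 := (hmon.map _).ne_zero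
      have hsub : T.filter (fun x => f x = f y) ⊆
          ((f y).map (algebraMap F E)).roots.toFinset := by
        intro x hx
        rw [Finset.mem_filter] at hx
        rw [Multiset.mem_toFinset, mem_roots hne, IsRoot, eval_map_algebraMap, ← hx.2]
        exact minpoly.aeval _ _
      calc (T.filter (fun x => f x = f y)).card
          ≤ (((f y).map (algebraMap F E)).roots.toFinset).card := Finset.card_le_card hsub
        _ ≤ ((f y).map (algebraMap F E)).roots.card := Multiset.toFinset_card_le _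
        _ ≤ ((f y).map (algebraMap F E)).natDegree := card_roots' _
        _ ≤ (f y).natDegree := natDegree_map_le
        _ = 3 := hy.2
    have h1 := Finset.card_le_mul_card_image T 3 hfib
    omega

theorem cubic_form {F : Type} [Field F] {P : F[X]} (hm : P.Monic) (hd : P.natDegree = 3) :
    P = X ^ 3 + C (P.coeff 2) * X ^ 2 + C (P.coeff 1) * X + C (P.coeff 0) := by
  conv_lhs => rw [hm.as_sum, hd]
  simp only [Finset.sum_range_succ, Finset.sum_range_zero, pow_zero, pow_one, mul_one, zero_add]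
  ring

theorem cubic_const_ne {F : Type} [Field F] {P : F[X]} (hm : P.Monic) (hirr : Irreducible P)
    (hd : P.natDegree = 3) : P.coeff 0 ≠ 0 := by
  intro h
  have h1 : X ∣ P := X_dvd_iff.mpr h
  have h2 : Associated X P := irreducible_X.associated_of_dvd hirr h1
  have h3 : (X : F[X]) = P := eq_of_monic_of_associated monic_X hm h2
  rw [← h3, natDegree_X] at hd
  omega

/-- The algebraic core of the block construction in characteristic 3. -/
theorem cubic_core {F : Type} [Field F] [CharP F 3] (a1 b1 c1 a2 b2 c2 a3 b3 c3 a4 b4 c4 : F)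
    (h1 : c1 ≠ 0) (h2 : c2 ≠ 0) (h3 : c3 ≠ 0) (h4 : c4 ≠ 0) (hne : a1 + a2 ≠ 0)
    (e0 : c1 * c2 = c3 * c4)
    (e1 : b1 / c1 + b2 / c2 = b3 / c3 + b4 / c4)
    (e2 : ((b1 / c1) ^ 2 - 2 * (a1 / c1)) + ((b2 / c2) ^ 2 - 2 * (a2 / c2)) =
      ((b3 / c3) ^ 2 - 2 * (a3 / c3)) + ((b4 / c4) ^ 2 - 2 * (a4 / c4)))
    (e3 : a1 + a2 = a3 + a4)
    (e4 : (a1 ^ 2 - 2 * b1) + (a2 ^ 2 - 2 * b2) = (a3 ^ 2 - 2 * b3) + (a4 ^ 2 - 2 * b4))
    (e5 : (a1 ^ 4 - 4 * a1 ^ 2 * b1 + 2 * b1 ^ 2 + 4 * a1 * c1) +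
      (a2 ^ 4 - 4 * a2 ^ 2 * b2 + 2 * b2 ^ 2 + 4 * a2 * c2) =
      (a3 ^ 4 - 4 * a3 ^ 2 * b3 + 2 * b3 ^ 2 + 4 * a3 * c3) +
      (a4 ^ 4 - 4 * a4 ^ 2 * b4 + 2 * b4 ^ 2 + 4 * a4 * c4)) :
    b1 * c2 + c1 * b2 = b3 * c4 + c3 * b4 ∧
    a1 * c2 + b1 * b2 + c1 * a2 = a3 * c4 + b3 * b4 + c3 * a4 ∧
    c1 + c2 + a1 * b2 + b1 * a2 = c3 + c4 + a3 * b4 + b3 * a4 ∧
    b1 + b2 + a1 * a2 = b3 + b4 + a3 * a4 := by
  have h2ne : (2 : F) ≠ 0 := by
    intro h
    have h' : ((2 : ℕ) : F) = 0 := by exact_mod_cast h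
    rw [CharP.cast_eq_zero_iff F 3] at h'
    omega
  have h4ne : (4 : F) ≠ 0 := by
    intro h
    have h' : ((4 : ℕ) : F) = 0 := by exact_mod_cast h
    rw [CharP.cast_eq_zero_iff F 3] at h'
    omega
  have f1 : b1 * c2 + c1 * b2 = b3 * c4 + c3 * b4 := by
    have g1 : b1 * c2 + c1 * b2 = (b1 / c1 + b2 / c2) * (c1 * c2) := by
      field_simp
    have g2 : b3 * c4 + c3 * b4 = (b3 / c3 + b4 / c4) * (c3 * c4) := by
      field_simp
    rw [g1, g2, e1, e0]
  have f2 : a1 * c2 + b1 * b2 + c1 * a2 = a3 * c4 + b3 * b4 + c3 * a4 := by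
    have g1 : 2 * (a1 * c2 + b1 * b2 + c1 * a2) = ((b1 / c1 + b2 / c2) ^ 2 -
        (((b1 / c1) ^ 2 - 2 * (a1 / c1)) + ((b2 / c2) ^ 2 - 2 * (a2 / c2)))) * (c1 * c2) := by
      field_simp
      ring
    have g2 : 2 * (a3 * c4 + b3 * b4 + c3 * a4) = ((b3 / c3 + b4 / c4) ^ 2 -
        (((b3 / c3) ^ 2 - 2 * (a3 / c3)) + ((b4 / c4) ^ 2 - 2 * (a4 / c4)))) * (c3 * c4) := by
      field_simp
      ring
    apply mul_left_cancel₀ h2ne
    rw [g1, g2, e1, e2, e0]
  have f4 : b1 + b2 + a1 * a2 = b3 + b4 + a3 * a4 := by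
    apply mul_left_cancel₀ h2ne
    have g1 : 2 * (b1 + b2 + a1 * a2) = (a1 + a2) ^ 2 - ((a1 ^ 2 - 2 * b1) + (a2 ^ 2 - 2 * b2)) := by
      ring
    have g2 : 2 * (b3 + b4 + a3 * a4) = (a3 + a4) ^ 2 - ((a3 ^ 2 - 2 * b3) + (a4 ^ 2 - 2 * b4)) := by
      ring
    rw [g1, g2, e3, e4]
  refine ⟨f1, f2, ?_, f4⟩
  have key : ∀ a b c a' b' c' : F,
      (a ^ 4 - 4 * a ^ 2 * b + 2 * b ^ 2 + 4 * a * c) +
      (a' ^ 4 - 4 * a' ^ 2 * b' + 2 * b' ^ 2 + 4 * a' * c') =
      (a + a') ^ 4 - 4 * (a + a') ^ 2 * (b + b' + a * a') + 2 * (b + b' + a * a') ^ 2 +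
      4 * (a + a') * (c + c' + a * b' + b * a') - 4 * (a * c' + b * b' + c * a') := by
    intro a b c a' b' c'
    ring
  rw [key, key, ← e3, f4, f2] at e5
  have g : 4 * (a1 + a2) * ((c1 + c2 + a1 * b2 + b1 * a2) - (c3 + c4 + a3 * b4 + b3 * a4)) = 0 := by
    linear_combination e5
  rcases mul_eq_zero.mp g with h | h
  · rcases mul_eq_zero.mp h with h | h
    · exact absurd h h4ne
    · exact absurd h hne
  · exact sub_eq_zero.mp h

/-- Unique factorisation for pairs of monic irreducibles. -/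
theorem irred_pair {F : Type} [Field F] {P1 P2 P3 P4 : F[X]}
    (hP1 : P1.Monic ∧ Irreducible P1) (hP3 : P3.Monic ∧ Irreducible P3)
    (hP4 : P4.Monic ∧ Irreducible P4)
    (heq : P1 * P2 = P3 * P4) : (P1 = P3 ∧ P2 = P4) ∨ (P1 = P4 ∧ P2 = P3) := by
  have hprime : Prime P1 := hP1.2.prime
  have hd1 : P1 ∣ P3 * P4 := heq ▸ dvd_mul_right P1 P2
  rcases hprime.dvd_or_dvd hd1 with h | h
  · left
    have : P1 = P3 := eq_of_monic_of_associated hP1.1 hP3.1 (hP1.2.associated_of_dvd hP3.2 h)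
    refine ⟨this, ?_⟩
    rw [this] at heq
    exact mul_left_cancel₀ hP3.1.ne_zero heq
  · right
    have : P1 = P4 := eq_of_monic_of_associated hP1.1 hP4.1 (hP1.2.associated_of_dvd hP4.2 h)
    refine ⟨this, ?_⟩
    rw [this, mul_comm P3 P4] at heq
    exact mul_left_cancel₀ hP4.1.ne_zero heq

open Classical in
theorem exists_beta1 (p : ℕ) [hp : Fact p.Prime] (K : Type) [Field K] [Fintype K]
    (l : K →+ ZMod p) (hl : Function.Surjective l) {α : Type} (S : Finset α) (a : α → K) :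
    ∃ β : K, (S.filter (fun P => a P ≠ 0)).card ≤
      p * (S.filter (fun P => l (β * a P) = 1)).card := by
  set t := (Finset.univ.filter (fun z : K => l z = 1)).card with ht
  have hpt : p * t = Fintype.card K := card_fibre_one p K l hl
  have hcount : ∀ x : K, x ≠ 0 → (Finset.univ.filter (fun β : K => l (β * x) = 1)).card = t := by
    intro x hx
    apply Finset.card_bij (fun β _ => β * x)
    · intro β hβ
      rw [Finset.mem_filter] at hβ ⊢
      exact ⟨Finset.mem_univ _, hβ.2⟩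
    · intro a _ b _ hab
      exact mul_right_cancel₀ hx hab
    · intro b hb
      rw [Finset.mem_filter] at hb
      refine ⟨b / x, ?_, div_mul_cancel₀ b hx⟩
      rw [Finset.mem_filter, div_mul_cancel₀ b hx]
      exact ⟨Finset.mem_univ _, hb.2⟩
  have hsum : ∑ β : K, (S.filter (fun P => l (β * a P) = 1)).card =
      ∑ P ∈ S, (Finset.univ.filter (fun β : K => l (β * a P) = 1)).card := by
    simp_rw [Finset.card_filter]
    exact Finset.sum_comm
  have hge : (S.filter (fun P => a P ≠ 0)).card * t ≤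
      ∑ P ∈ S, (Finset.univ.filter (fun β : K => l (β * a P) = 1)).card := by
    calc (S.filter (fun P => a P ≠ 0)).card * t = ∑ P ∈ S.filter (fun P => a P ≠ 0), t := by
          rw [Finset.sum_const, smul_eq_mul]
      _ = ∑ P ∈ S.filter (fun P => a P ≠ 0),
          (Finset.univ.filter (fun β : K => l (β * a P) = 1)).card := by
          apply Finset.sum_congr rfl
          intro P hP
          exact (hcount _ (Finset.mem_filter.mp hP).2).symm
      _ ≤ _ := Finset.sum_le_sum_of_subset (Finset.filter_subset _ _)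
  by_contra hcon
  push Not at hcon
  have hK : 0 < Fintype.card K := Fintype.card_pos
  have h4 : ∑ β : K, (p * (S.filter (fun P => l (β * a P) = 1)).card + 1) ≤
      ∑ _β : K, (S.filter (fun P => a P ≠ 0)).card := Finset.sum_le_sum (fun β _ => hcon β)
  rw [Finset.sum_add_distrib, ← Finset.mul_sum, hsum, Finset.sum_const, Finset.sum_const,
    Finset.card_univ, smul_eq_mul, smul_eq_mul] at h4
  have h5 : p * ((S.filter (fun P => a P ≠ 0)).card * t) ≤
      p * ∑ P ∈ S, (Finset.univ.filter (fun β : K => l (β * a P) = 1)).card :=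
    Nat.mul_le_mul_left _ hge
  have h6 : p * ((S.filter (fun P => a P ≠ 0)).card * t) =
      (S.filter (fun P => a P ≠ 0)).card * Fintype.card K := by
    rw [← hpt]; ring
  rw [h6] at h5
  nlinarith

theorem one_add_one_zmod3 : ¬ ((1 : ZMod 3) + 1 = 0) := by decide

/-- The invariants of a cubic. -/
noncomputable def inv5 {F : Type} [Field F] (P : F[X]) : Fin 5 → F :=
  ![P.coeff 1 / P.coeff 0, (P.coeff 1 / P.coeff 0) ^ 2 - 2 * (P.coeff 2 / P.coeff 0), P.coeff 2,
    P.coeff 2 ^ 2 - 2 * P.coeff 1,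
    P.coeff 2 ^ 4 - 4 * P.coeff 2 ^ 2 * P.coeff 1 + 2 * P.coeff 1 ^ 2 + 4 * P.coeff 2 * P.coeff 0]

/-- The block `F_3^{5g} × [0, 3^g - 1)`. -/
theorem block3 (g : ℕ) (hg : 0 < g) :
    ∃ s : ℕ, (3 ^ g) ^ 3 ≤ 9 * s + 3 * (3 ^ g) ^ 2 + 3 ^ g ∧ Big (Slab 3 (5 * g) (3 ^ g - 1)) s := by
  classical
  have : Fact (Nat.Prime 3) := ⟨Nat.prime_three⟩
  let F := GaloisField 3 g
  have : Fintype F := Fintype.ofFinite _
  have hcard : Fintype.card F = 3 ^ g := by
    rw [← Nat.card_eq_fintype_card]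
    exact GaloisField.card 3 g hg.ne'
  have hfr : Module.finrank (ZMod 3) F = g := GaloisField.finrank 3 hg.ne'
  -- a functional
  obtain ⟨l, hl⟩ : ∃ l : F →+ ZMod 3, Function.Surjective l := by
    have hb := Module.finBasis (ZMod 3) F
    have hpos : 0 < Module.finrank (ZMod 3) F := by rw [hfr]; exact hg
    let i0 : Fin (Module.finrank (ZMod 3) F) := ⟨0, hpos⟩
    refine ⟨(hb.coord i0).toAddMonoidHom, ?_⟩
    intro c
    refine ⟨c • hb i0, ?_⟩
    simp
  obtain ⟨S0, hS0, hS0card⟩ := many_cubics F 3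
  obtain ⟨β, hβ⟩ := exists_beta1 3 F l hl S0 (fun P => P.coeff 2)
  set S := S0.filter (fun P => l (β * P.coeff 2) = 1) with hS
  have hzero : (S0.filter (fun P => ¬ (P.coeff 2 ≠ 0))).card ≤ Fintype.card F ^ 2 := by
    have h1 : (S0.filter (fun P => ¬ (P.coeff 2 ≠ 0))).card ≤
        (Finset.univ : Finset (F × F)).card := by
      apply Finset.card_le_card_of_injOn (fun P => (P.coeff 1, P.coeff 0))
      · intro P _
        exact Finset.mem_coe.mpr (Finset.mem_univ _)
      · intro P hP Q hQ hPQ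
        have hP' := Finset.mem_filter.mp hP
        have hQ' := Finset.mem_filter.mp hQ
        have h2 := hS0 P hP'.1
        have h3 := hS0 Q hQ'.1
        have h4 : P.coeff 2 = 0 := by simpa using hP'.2
        have h5 : Q.coeff 2 = 0 := by simpa using hQ'.2
        simp only [Prod.mk.injEq] at hPQ
        rw [cubic_form h2.1 h2.2.2, cubic_form h3.1 h3.2.2, h4, h5, hPQ.1, hPQ.2]
    rw [Finset.card_univ, Fintype.card_prod, ← pow_two] at h1
    exact h1
  have hsplit := Finset.card_filter_add_card_filter_not (s := S0) (fun P => P.coeff 2 ≠ 0)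
  refine ⟨S.card, ?_, ?_⟩
  · rw [hcard] at hS0card hzero
    have : 3 * S0.card ≤ 9 * S.card + 3 * (3 ^ g) ^ 2 := by
      have := hβ
      omega
    omega
  -- the group
  have hSp : ∀ P ∈ S, (P.Monic ∧ Irreducible P ∧ P.natDegree = 3) ∧ l (β * P.coeff 2) = 1 := by
    intro P hP
    have := Finset.mem_filter.mp hP
    exact ⟨hS0 P this.1, this.2⟩
  let u : F[X] → Fˣ × Multiplicative (Fin 5 → F) := fun P =>
    if h : P.coeff 0 ≠ 0 then (Units.mk0 (P.coeff 0) h, Multiplicative.ofAdd (inv5 P)) else 1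
  have hu : ∀ P ∈ S, ((u P).1 : F) = P.coeff 0 ∧ Multiplicative.toAdd (u P).2 = inv5 P := by
    intro P hP
    have h := hSp P hP
    have h1 := cubic_const_ne h.1.1 h.1.2.1 h.1.2.2
    simp only [u, dif_pos h1]
    exact ⟨rfl, rfl⟩
  have key : ∀ P1 ∈ S, ∀ P2 ∈ S, ∀ P3 ∈ S, ∀ P4 ∈ S, u P1 * u P2 = u P3 * u P4 →
      (P1 = P3 ∧ P2 = P4) ∨ (P1 = P4 ∧ P2 = P3) := by
    intro P1 h1 P2 h2 P3 h3 P4 h4 he
    have e0 : P1.coeff 0 * P2.coeff 0 = P3.coeff 0 * P4.coeff 0 := by
      have := congrArg (fun z : Fˣ × Multiplicative (Fin 5 → F) => ((z.1 : Fˣ) : F)) he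
      simp only [Prod.fst_mul, Units.val_mul] at this
      rw [(hu P1 h1).1, (hu P2 h2).1, (hu P3 h3).1, (hu P4 h4).1] at this
      exact this
    have einv : inv5 P1 + inv5 P2 = inv5 P3 + inv5 P4 := by
      have := congrArg (fun z : Fˣ × Multiplicative (Fin 5 → F) => Multiplicative.toAdd z.2) he
      simp only [Prod.snd_mul, toAdd_mul] at this
      rw [(hu P1 h1).2, (hu P2 h2).2, (hu P3 h3).2, (hu P4 h4).2] at this
      exact this
    have e1 := congrFun einv 0
    have e2 := congrFun einv 1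
    have e3 := congrFun einv 2
    have e4 := congrFun einv 3
    have e5 := congrFun einv 4
    simp only [inv5, Pi.add_apply, Matrix.cons_val_zero, Matrix.cons_val_one, Matrix.cons_val]
      at e1 e2 e3 e4 e5
    have k1 := hSp P1 h1
    have k2 := hSp P2 h2
    have k3 := hSp P3 h3
    have k4 := hSp P4 h4
    have hne : P1.coeff 2 + P2.coeff 2 ≠ 0 := by
      intro h0
      have h5 : l (β * P1.coeff 2 + β * P2.coeff 2) = 0 := by
        rw [← mul_add, h0, mul_zero, map_zero]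
      rw [map_add, k1.2, k2.2] at h5
      exact absurd h5 one_add_one_zmod3
    obtain ⟨f1, f2, f3, f4⟩ := cubic_core _ _ _ _ _ _ _ _ _ _ _ _
      (cubic_const_ne k1.1.1 k1.1.2.1 k1.1.2.2) (cubic_const_ne k2.1.1 k2.1.2.1 k2.1.2.2)
      (cubic_const_ne k3.1.1 k3.1.2.1 k3.1.2.2) (cubic_const_ne k4.1.1 k4.1.2.1 k4.1.2.2)
      hne e0 e1 e2 e3 e4 e5
    apply irred_pair ⟨k1.1.1, k1.1.2.1⟩ ⟨k3.1.1, k3.1.2.1⟩ ⟨k4.1.1, k4.1.2.1⟩
    rw [cubic_form k1.1.1 k1.1.2.2, cubic_form k2.1.1 k2.1.2.2, cubic_form k3.1.1 k3.1.2.2,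
      cubic_form k4.1.1 k4.1.2.2]
    have g0 := congrArg (C : F → F[X]) e0
    have g1 := congrArg (C : F → F[X]) f1
    have g2 := congrArg (C : F → F[X]) f2
    have g3 := congrArg (C : F → F[X]) f3
    have g4 := congrArg (C : F → F[X]) f4
    have g5 := congrArg (C : F → F[X]) e3
    simp only [map_add, map_mul] at g0 g1 g2 g3 g4 g5
    linear_combination g0 + X * g1 + X ^ 2 * g2 + X ^ 3 * g3 + X ^ 4 * g4 + X ^ 5 * g5
  have huinj : Set.InjOn u (S : Set _) := by
    intro P hP Q hQ hPQ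
    rcases key P hP P hP Q hQ P hP (by rw [hPQ]) with ⟨h1, _⟩ | ⟨_, h1⟩
    · exact h1
    · exact h1
  have hA : ∀ a ∈ S.image u, ∀ b ∈ S.image u, ∀ c ∈ S.image u, ∀ d ∈ S.image u, a * b = c * d →
      (a = c ∧ b = d) ∨ (a = d ∧ b = c) := by
    intro a ha b hb c hc d hd habcd
    rw [Finset.mem_image] at ha hb hc hd
    obtain ⟨a, ha, rfl⟩ := ha
    obtain ⟨b, hb, rfl⟩ := hb
    obtain ⟨c, hc, rfl⟩ := hc
    obtain ⟨d, hd, rfl⟩ := hd
    rcases key a ha b hb c hc d hd habcd with ⟨h2, h3⟩ | ⟨h2, h3⟩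
    · left; exact ⟨by rw [h2], by rw [h3]⟩
    · right; exact ⟨by rw [h2], by rw [h3]⟩
  -- the parametrisation
  obtain ⟨L, hL⟩ := exists_inj_linear (ZMod 3) (Fin (5 * g) → ZMod 3) (Fin 5 → F) (by
    rw [Module.finrank_fin_fun, Module.finrank_pi_fintype, Finset.sum_const, Finset.card_univ,
      Fintype.card_fin, hfr, smul_eq_mul])
  obtain ⟨ω, hω⟩ := IsCyclic.exists_generator (α := Fˣ)
  have hord : orderOf ω = 3 ^ g - 1 := by
    rw [orderOf_eq_card_of_forall_mem_zpowers hω, Nat.card_units, Nat.card_eq_fintype_card, hcard]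
  let Φ : ((Fin (5 * g) → ZMod 3) × ℤ) → Fˣ × Multiplicative (Fin 5 → F) := fun z => (ω ^ z.2, Multiplicative.ofAdd (L z.1))
  have hΦ : ∀ a b, Φ (a + b) = Φ a * Φ b := by
    intro a b
    simp only [Φ, Prod.fst_add, Prod.snd_add, zpow_add, map_add, ofAdd_add, Prod.mk_mul_mk]
  let Dom : Finset ((Fin (5 * g) → ZMod 3) × ℤ) :=
    Finset.univ ×ˢ Finset.Ico 0 (((3 ^ g - 1 : ℕ)) : ℤ)
  have hinj : Set.InjOn Φ (Dom : Set _) := by
    rintro ⟨v, x⟩ ha ⟨v', x'⟩ hb hab
    simp only [Dom, Finset.coe_product, Set.mem_prod, Finset.mem_coe, Finset.mem_univ,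
      Finset.mem_Ico, true_and] at ha hb
    simp only [Φ, Prod.mk.injEq] at hab
    have h1 : v = v' := hL (Multiplicative.ofAdd.injective hab.2)
    have h3 := hab.1
    rw [← orderOf_dvd_sub_iff_zpow_eq_zpow, hord] at h3
    have h4 : x - x' = 0 := by
      apply Int.eq_zero_of_abs_lt_dvd h3
      rw [abs_lt]
      constructor <;> linarith [ha.1, ha.2, hb.1, hb.2]
    have h5 : x = x' := by linarith
    rw [h1, h5]
  have hDcard : Dom.card = Fintype.card (Fˣ × Multiplicative (Fin 5 → F)) := by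
    simp only [Dom]
    rw [Finset.card_product, Int.card_Ico, Finset.card_univ, sub_zero, Int.toNat_natCast]
    have h1 : Fintype.card (Fin (5 * g) → ZMod 3) = 3 ^ (5 * g) := by
      rw [Fintype.card_fun, ZMod.card, Fintype.card_fin]
    have h2 : Fintype.card (Fˣ × Multiplicative (Fin 5 → F)) = (3 ^ g - 1) * (3 ^ g) ^ 5 := by
      rw [Fintype.card_prod, Fintype.card_units, hcard]
      congr 1
      rw [Fintype.card_multiplicative, Fintype.card_fun, hcard, Fintype.card_fin]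
    rw [h1, h2, ← pow_mul, mul_comm g 5]
    ring
  obtain ⟨B, hB1, hB2, hB3⟩ := pullback Φ hΦ Dom hinj (S.image u) hA
  refine ⟨B, ?_, hB2, ?_⟩
  · intro b hb
    have h1 := hB1 b hb
    simp only [Dom, Finset.mem_product, Finset.mem_univ, Finset.mem_Ico, true_and] at h1
    exact h1
  · rw [hDcard, Finset.card_image_of_injOn huinj] at hB3
    have h1 : 0 < Fintype.card (Fˣ × Multiplicative (Fin 5 → F)) := Fintype.card_pos
    exact_mod_cast Nat.le_of_mul_le_mul_right hB3 h1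

end Pool.Agent.Helper580_sidon
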