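import Pool.Agent.Helper580_sidon.Compose

set_option autoImplicit false

namespace Pool.Agent.Helper580_sidon

theorem sqrt_eq_exp {Q : ℝ} (hQ : 0 < Q) : Real.sqrt Q = Real.exp (Real.log Q / 2) := by
  rw [Real.sqrt_eq_iff_mul_self_eq hQ.le (Real.exp_pos _).le, ← Real.exp_add, add_halves,
    Real.exp_log hQ]

theorem bnd1 (p : ℕ) [hp : Fact p.Prime] (hp2 : p ≠ 2) (r N : ℕ) (hN : 1 ≤ N)
    (hrN : p ^ r ≤ (p * N) ^ (p - 1)) :
    Big (Slab p r N) (Real.exp ((r * Real.log p + Real.log N) / 2) /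
      (9 * (p : ℝ) ^ (p + 1) * (1 + (r * Real.log p + Real.log N)))) := by
  have h := iml1 p hp2 r N hN hrN
  have hQ : (0 : ℝ) < (p : ℝ) ^ r * N := by
    have : 0 < p := hp.out.pos
    positivity
  rw [sqrt_eq_exp hQ, log_pow_mul hp.out.pos hN] at h
  exact h

theorem slab_zero_mem (p r N : ℕ) (hN : 1 ≤ N) : (0 : (Fin r → ZMod p) × ℤ) ∈ Slab p r N := by
  simp only [Slab, Set.mem_ofPred_eq, Prod.snd_zero]
  exact ⟨le_refl _, by exact_mod_cast hN⟩

theorem bnd2 (p : ℕ) [hp : Fact p.Prime] (hp2 : p ≠ 2) (r N : ℕ) (hN : 1 ≤ N)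
    (hrN : N ^ 2 < p ^ r) :
    Big (Slab p r N) (Real.exp (3 / 8 * (r * Real.log p) + 3 / 4 * Real.log N) /
      (9 * (p : ℝ) ^ (p + 2) * (1 + (r * Real.log p + Real.log N)))) := by
  have hp3 : 3 ≤ p := by
    have := hp.out.two_le
    omega
  have hppos : 0 < p := hp.out.pos
  have hp1 : 1 < p := hp.out.one_lt
  have hpR : (1 : ℝ) ≤ p := by exact_mod_cast hppos
  have hpR0 : (0 : ℝ) < p := by positivity
  have hlogp := one_le_log hp3
  have hY0 : 0 ≤ Real.log N := Real.log_nonneg (by exact_mod_cast hN)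
  have hX0 : 0 ≤ (r : ℝ) * Real.log p := by positivity
  by_cases hr1 : r ≤ 1
  · apply Big.of_le_one 0 (slab_zero_mem p r N hN)
    have hNp : N ≤ p := by
      have h1 : N ^ 2 < p ^ 1 := lt_of_lt_of_le hrN (Nat.pow_le_pow_right hppos hr1)
      nlinarith
    have hY1 : Real.log N ≤ Real.log p :=
      Real.log_le_log (by exact_mod_cast hN) (by exact_mod_cast hNp)
    have hr1' : (r : ℝ) ≤ 1 := by exact_mod_cast hr1
    have hX1 : (r : ℝ) * Real.log p ≤ Real.log p := by nlinarith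
    rw [div_le_one (by positivity)]
    have h1 : Real.exp (3 / 8 * (r * Real.log p) + 3 / 4 * Real.log N) ≤ Real.exp (2 * Real.log p) := by
      apply Real.exp_le_exp.mpr
      linarith
    have h2 : Real.exp (2 * Real.log p) = (p : ℝ) ^ 2 := by
      rw [mul_comm, Real.exp_mul, Real.exp_log hpR0]
      norm_cast
    have h3 : (p : ℝ) ^ 2 ≤ (p : ℝ) ^ (p + 2) := pow_le_pow_right₀ hpR (by omega)
    have h4 : (0 : ℝ) < (p : ℝ) ^ (p + 2) := by positivity
    calc _ ≤ (p : ℝ) ^ (p + 2) := h1.trans (h2.le.trans h3)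
      _ ≤ 9 * (p : ℝ) ^ (p + 2) * (1 + (r * Real.log p + Real.log N)) := by
        nlinarith [mul_nonneg h4.le hX0, mul_nonneg h4.le hY0]
  push Not at hr1
  set b := Nat.log p N with hb
  have hb1 : p ^ b ≤ N := Nat.pow_log_le_self p (by omega)
  have hb2 : N < p ^ (b + 1) := Nat.lt_pow_succ_log_self hp1 N
  have hbr : 2 * b < r := by
    have h1 : p ^ (2 * b) < p ^ r := by
      calc p ^ (2 * b) = (p ^ b) ^ 2 := by rw [← pow_mul, mul_comm]
        _ ≤ N ^ 2 := Nat.pow_le_pow_left hb1 2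
        _ < p ^ r := hrN
    exact (Nat.pow_lt_pow_iff_right hp1).mp h1
  set t := (r - 2 * b + 3) / 4 with ht
  have ht1 : 2 * t ≤ r := by omega
  have ht2 : r - 2 * t ≤ 2 * (b + t + 1) := by omega
  have ht3 : 4 * t ≤ r - 2 * b + 3 := by omega
  have hN' : 1 ≤ N * p ^ t := Nat.one_le_iff_ne_zero.mpr (by positivity)
  have hcond : p ^ (r - 2 * t) ≤ (p * (N * p ^ t)) ^ (p - 1) := by
    calc p ^ (r - 2 * t) ≤ p ^ (2 * (b + t + 1)) := Nat.pow_le_pow_right hppos ht2
      _ = (p * (p ^ b * p ^ t)) ^ 2 := by ring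
      _ ≤ (p * (N * p ^ t)) ^ 2 :=
        Nat.pow_le_pow_left (Nat.mul_le_mul_left _ (Nat.mul_le_mul_right _ hb1)) 2
      _ ≤ (p * (N * p ^ t)) ^ (p - 1) :=
        Nat.pow_le_pow_right (by positivity) (by omega)
  have h := compose_slab p hp2 (r - 2 * t) t r N (by omega) _
    (bnd1 p hp2 (r - 2 * t) (N * p ^ t) hN' hcond)
  apply h.mono
  have hrc : ((r - 2 * t : ℕ) : ℝ) = r - 2 * t := by
    push_cast [Nat.cast_sub ht1]
    ring
  have hlogN' : Real.log ((N * p ^ t : ℕ) : ℝ) = Real.log N + t * Real.log p := by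
    push_cast
    rw [Real.log_mul (by positivity) (by positivity), Real.log_pow]
  rw [hrc, hlogN']
  have ht3R : (4 : ℝ) * t ≤ r - 2 * b + 3 := by
    have h1 : (4 : ℝ) * t ≤ ((r - 2 * b + 3 : ℕ) : ℝ) := by exact_mod_cast ht3
    push_cast [Nat.cast_sub hbr.le] at h1
    linarith
  have hYb : Real.log N ≤ (b + 1) * Real.log p := by
    have h1 : Real.log N ≤ Real.log ((p : ℝ) ^ (b + 1)) :=
      Real.log_le_log (by exact_mod_cast hN) (by exact_mod_cast hb2.le)
    rw [Real.log_pow] at h1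
    push_cast at h1
    exact h1
  have hE : (r - 2 * t : ℝ) * Real.log p + (Real.log N + t * Real.log p) =
      (r - t : ℝ) * Real.log p + Real.log N := by ring
  rw [hE]
  have hrt : (t : ℝ) ≤ r := by
    have : t ≤ r := by omega
    exact_mod_cast this
  have hnn : 0 ≤ (r - t : ℝ) * Real.log p := by
    apply mul_nonneg _ (by linarith)
    linarith
  have hexp : 3 / 8 * (r * Real.log p) + 3 / 4 * Real.log N - Real.log p ≤
      ((r - t : ℝ) * Real.log p + Real.log N) / 2 := by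
    have h1 : (r - t : ℝ) * Real.log p ≥ (3 * r + 2 * b - 3) / 4 * Real.log p := by
      apply mul_le_mul_of_nonneg_right _ (by linarith)
      linarith
    nlinarith
  have h5 : Real.exp (3 / 8 * (r * Real.log p) + 3 / 4 * Real.log N) ≤
      p * Real.exp (((r - t : ℝ) * Real.log p + Real.log N) / 2) := by
    calc Real.exp (3 / 8 * (r * Real.log p) + 3 / 4 * Real.log N)
        ≤ Real.exp (Real.log p + (((r - t : ℝ) * Real.log p + Real.log N) / 2)) := by
          apply Real.exp_le_exp.mpr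
          linarith
      _ = p * Real.exp (((r - t : ℝ) * Real.log p + Real.log N) / 2) := by
          rw [Real.exp_add, Real.exp_log hpR0]
  rw [div_le_div_iff₀ (by positivity) (by positivity)]
  have h6 : (1 + ((r - t : ℝ) * Real.log p + Real.log N)) ≤
      1 + (r * Real.log p + Real.log N) := by
    have : (0 : ℝ) ≤ t * Real.log p := by positivity
    nlinarith
  have h7 : (0 : ℝ) < (p : ℝ) ^ (p + 1) := by positivity
  calc Real.exp (3 / 8 * (r * Real.log p) + 3 / 4 * Real.log N) *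
        (9 * (p : ℝ) ^ (p + 1) * (1 + ((r - t : ℝ) * Real.log p + Real.log N)))
      ≤ (p * Real.exp (((r - t : ℝ) * Real.log p + Real.log N) / 2)) *
        (9 * (p : ℝ) ^ (p + 1) * (1 + (r * Real.log p + Real.log N))) := by
        apply mul_le_mul h5 _ (by positivity) (by positivity)
        apply mul_le_mul_of_nonneg_left h6 (by positivity)
    _ = Real.exp (((r - t : ℝ) * Real.log p + Real.log N) / 2) *
        (9 * (p : ℝ) ^ (p + 2) * (1 + (r * Real.log p + Real.log N))) := by ring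

theorem bnd3 (p : ℕ) [hp : Fact p.Prime] (hp2 : p ≠ 2) (r N : ℕ) (hN : 1 ≤ N) :
    Big (Slab p r N) (Real.exp (1 / 2 * (r * Real.log p) + 1 / 4 * Real.log N) /
      (3 * p)) := by
  have hp3 : 3 ≤ p := by
    have := hp.out.two_le
    omega
  have hppos : 0 < p := hp.out.pos
  have hp1 : 1 < p := hp.out.one_lt
  have hpR0 : (0 : ℝ) < p := by positivity
  have hlogp := one_le_log hp3
  have hY0 : 0 ≤ Real.log N := Real.log_nonneg (by exact_mod_cast hN)
  obtain ⟨S, hS1, hS2, hS3⟩ := big_interval N hN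
  have hNpos : (0 : ℝ) < N := by exact_mod_cast hN
  have hsq : 0 < Real.sqrt N := Real.sqrt_pos.mpr hNpos
  have hSpos : (0 : ℝ) < S.card := lt_of_lt_of_le (by positivity) hS3
  have hSpos' : 0 < S.card := by exact_mod_cast hSpos
  set t := Nat.log p S.card with ht
  have ht1 : p ^ t ≤ S.card := Nat.pow_log_le_self p hSpos'.ne'
  have ht2 : S.card < p ^ (t + 1) := Nat.lt_pow_succ_log_self hp1 _
  have h := compose_label p r t N S hS1 hS2 ht1 _ (parabola p hp2 (r + t))
  apply h.mono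
  have h1 : Real.log N / 2 - Real.log 6 ≤ (t + 1) * Real.log p := by
    have h2 : Real.log (Real.sqrt N / 6) ≤ Real.log S.card := Real.log_le_log (by positivity) hS3
    rw [Real.log_div (by positivity) (by norm_num), Real.log_sqrt hNpos.le] at h2
    have h3 : Real.log S.card ≤ Real.log ((p : ℝ) ^ (t + 1)) :=
      Real.log_le_log hSpos (by exact_mod_cast ht2.le)
    rw [Real.log_pow] at h3
    push_cast at h3
    linarith
  have h6 : Real.log 6 ≤ 2 * Real.log 3 := by
    have : 2 * Real.log 3 = Real.log (3 ^ 2) := by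
      rw [Real.log_pow]; norm_num
    rw [this]
    apply Real.log_le_log (by norm_num) (by norm_num)
  have hhalf : ((r : ℝ) + t - 1) / 2 ≤ (((r + t) / 2 : ℕ) : ℝ) := by
    have h7 : r + t ≤ 2 * ((r + t) / 2) + 1 := by omega
    have h8 : ((r + t : ℕ) : ℝ) ≤ 2 * (((r + t) / 2 : ℕ) : ℝ) + 1 := by exact_mod_cast h7
    push_cast at h8 ⊢
    linarith
  have hpow : (p : ℝ) ^ ((r + t) / 2) = Real.exp ((((r + t) / 2 : ℕ) : ℝ) * Real.log p) := by
    rw [mul_comm, Real.exp_mul, Real.exp_log hpR0, Real.rpow_natCast]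
  rw [hpow, div_le_iff₀ (by positivity)]
  have h3p : (3 * p : ℝ) = Real.exp (Real.log 3 + Real.log p) := by
    rw [Real.exp_add, Real.exp_log (by norm_num), Real.exp_log hpR0]
  rw [h3p, ← Real.exp_add]
  apply Real.exp_le_exp.mpr
  have h9 : ((r : ℝ) + t - 1) / 2 * Real.log p ≤ (((r + t) / 2 : ℕ) : ℝ) * Real.log p :=
    mul_le_mul_of_nonneg_right hhalf (by linarith)
  nlinarith

end Pool.Agent.Helper580_sidon
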