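import Pool.Agent.Helper580_sidon.Iml

set_option autoImplicit false

namespace Pool.Agent.Helper580_sidon

theorem exists_label {α : Type} (S : Finset α) (Q : Type) [Fintype Q]
    (h : Fintype.card Q ≤ S.card) : ∃ u : Q → α, Function.Injective u ∧ ∀ q, u q ∈ S := by
  classical
  have h1 : Fintype.card Q ≤ Fintype.card S := by rw [Fintype.card_coe]; exact h
  obtain ⟨e⟩ := Function.Embedding.nonempty_of_card_le h1
  exact ⟨fun q => (e q : α), fun a b hab => e.injective (Subtype.ext hab), fun q => (e q).2⟩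

/-- The composition `F_p^{r'} × [0, N p^t) → F_p^r × [0,N)`, `r' + 2 t ≤ r`. -/
theorem compose_slab (p : ℕ) [hp : Fact p.Prime] (hp2 : p ≠ 2) (r' t r N : ℕ)
    (hr : r' + 2 * t ≤ r) (x : ℝ) (h : Big (Slab p r' (N * p ^ t)) x) : Big (Slab p r N) x := by
  classical
  have hppos : 0 < p := hp.out.pos
  obtain ⟨S, _, hS2, hS3⟩ := parabola p hp2 (2 * t)
  rw [Nat.mul_div_cancel_left t (by norm_num)] at hS3
  have hS4 : p ^ t ≤ S.card := by exact_mod_cast hS3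
  have : NeZero (p ^ t) := ⟨(pow_pos hppos t).ne'⟩
  obtain ⟨u, hu1, hu2⟩ := exists_label S (ZMod (p ^ t)) (by rw [ZMod.card]; exact hS4)
  obtain ⟨L, hL⟩ := exists_inj_linear (ZMod p)
    ((Fin r' → ZMod p) × (Fin (2 * t) → ZMod p)) (Fin r → ZMod p)
    (by
      rw [Module.finrank_prod, Module.finrank_fin_fun, Module.finrank_fin_fun,
        Module.finrank_fin_fun]
      exact hr)
  have hm0 : (0 : ℤ) < ((p ^ t : ℕ) : ℤ) := by exact_mod_cast pow_pos hppos t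
  refine Big.transfer (fun w => (L (w.1, u ((w.2 : ℤ) : ZMod (p ^ t))), w.2 / ((p ^ t : ℕ) : ℤ)))
    ?_ ?_ h
  · rintro ⟨v, y⟩ hw
    simp only [Slab, Set.mem_ofPred_eq] at hw ⊢
    refine ⟨Int.ediv_nonneg hw.1 hm0.le, ?_⟩
    rw [Int.ediv_lt_iff_lt_mul hm0]
    have := hw.2
    push_cast at this ⊢
    exact this
  · rintro ⟨v1, y1⟩ _ ⟨v2, y2⟩ _ ⟨v3, y3⟩ _ ⟨v4, y4⟩ _ he
    simp only [Prod.mk_add_mk, Prod.mk.injEq] at he ⊢
    obtain ⟨e1, e2⟩ := he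
    rw [← map_add, ← map_add] at e1
    have e3 := hL e1
    simp only [Prod.mk_add_mk, Prod.mk.injEq] at e3
    refine ⟨e3.1, ?_⟩
    have hcast : ∀ a b : ℤ, u (a : ZMod (p ^ t)) = u (b : ZMod (p ^ t)) →
        a % ((p ^ t : ℕ) : ℤ) = b % ((p ^ t : ℕ) : ℤ) := by
      intro a b hab
      have := hu1 hab
      rw [ZMod.intCast_eq_intCast_iff'] at this
      exact this
    have d1 := Int.emod_add_mul_ediv y1 ((p ^ t : ℕ) : ℤ)
    have d2 := Int.emod_add_mul_ediv y2 ((p ^ t : ℕ) : ℤ)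
    have d3 := Int.emod_add_mul_ediv y3 ((p ^ t : ℕ) : ℤ)
    have d4 := Int.emod_add_mul_ediv y4 ((p ^ t : ℕ) : ℤ)
    have hmods : y1 % ((p ^ t : ℕ) : ℤ) + y2 % ((p ^ t : ℕ) : ℤ) =
        y3 % ((p ^ t : ℕ) : ℤ) + y4 % ((p ^ t : ℕ) : ℤ) := by
      rcases hS2 _ (hu2 _) _ (hu2 _) _ (hu2 _) _ (hu2 _) e3.2 with ⟨h1, h2⟩ | ⟨h1, h2⟩
      · rw [hcast _ _ h1, hcast _ _ h2]
      · rw [hcast _ _ h1, hcast _ _ h2, add_comm]
    have e4 : ((p ^ t : ℕ) : ℤ) * (y1 / ((p ^ t : ℕ) : ℤ) + y2 / ((p ^ t : ℕ) : ℤ)) =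
        ((p ^ t : ℕ) : ℤ) * (y3 / ((p ^ t : ℕ) : ℤ) + y4 / ((p ^ t : ℕ) : ℤ)) := by
      rw [e2]
    linarith

/-- The composition `F_p^{r+t} → F_p^r × [0,N)` with labels in a Sidon set of the interval. -/
theorem compose_label (p : ℕ) [hp : Fact p.Prime] (r t N : ℕ) (S : Finset ℤ)
    (hS1 : ∀ a ∈ S, a ∈ Ico0 N) (hS2 : IsSidon S) (hS3 : p ^ t ≤ S.card) (x : ℝ)
    (h : Big (Set.univ : Set (Fin (r + t) → ZMod p)) x) : Big (Slab p r N) x := by
  classical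
  have hppos : 0 < p := hp.out.pos
  obtain ⟨u, hu1, hu2⟩ := exists_label S (Fin t → ZMod p) (by
    rw [Fintype.card_fun, ZMod.card, Fintype.card_fin]
    exact hS3)
  refine Big.transfer (fun w => ((fun i => w (Fin.castAdd t i)),
    u (fun i => w (Fin.natAdd r i)))) ?_ ?_ h
  · intro w _
    exact hS1 _ (hu2 _)
  · intro a _ b _ c _ d _ he
    simp only [Prod.mk_add_mk, Prod.mk.injEq] at he
    obtain ⟨e1, e2⟩ := he
    funext i
    refine Fin.addCases (fun j => ?_) (fun j => ?_) i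
    · exact congrFun e1 j
    · rcases hS2 _ (hu2 _) _ (hu2 _) _ (hu2 _) _ (hu2 _) e2 with ⟨h1, h2⟩ | ⟨h1, h2⟩
      · have f1 := congrFun (hu1 h1) j
        have f2 := congrFun (hu1 h2) j
        simp only [Pi.add_apply] at f1 f2 ⊢
        rw [f1, f2]
      · have f1 := congrFun (hu1 h1) j
        have f2 := congrFun (hu1 h2) j
        simp only [Pi.add_apply] at f1 f2 ⊢
        rw [f1, f2, add_comm]

end Pool.Agent.Helper580_sidon
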