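import Pool.Agent.Helper580_sidon.Quot

set_option autoImplicit false

open Polynomial

namespace Pool.Agent.Helper580_sidon

theorem irred_quad {p : ℕ} [hp : Fact p.Prime] {m1 m2 : (ZMod p)[X]} (h1 : m1.Monic)
    (h2 : m2.Monic) (hc : IsCoprime m1 m2) (d : ℕ) (hd : 2 * d ≤ m1.natDegree + m2.natDegree)
    (P1 P2 P3 P4 : (ZMod p)[X])
    (hP1 : P1.Monic ∧ Irreducible P1 ∧ P1.natDegree = d)
    (hP2 : P2.Monic ∧ Irreducible P2 ∧ P2.natDegree = d)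
    (hP3 : P3.Monic ∧ Irreducible P3 ∧ P3.natDegree = d)
    (hP4 : P4.Monic ∧ Irreducible P4 ∧ P4.natDegree = d)
    (e1 : AdjoinRoot.mk m1 (P1 * P2) = AdjoinRoot.mk m1 (P3 * P4))
    (e2 : AdjoinRoot.mk m2 (P1 * P2) = AdjoinRoot.mk m2 (P3 * P4)) :
    (P1 = P3 ∧ P2 = P4) ∨ (P1 = P4 ∧ P2 = P3) := by
  rw [AdjoinRoot.mk_eq_mk] at e1 e2
  have hdvd : m1 * m2 ∣ P1 * P2 - P3 * P4 := hc.mul_dvd e1 e2
  have hm12 : (P1 * P2).Monic := hP1.1.mul hP2.1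
  have hm34 : (P3 * P4).Monic := hP3.1.mul hP4.1
  have hn12 : (P1 * P2).natDegree = 2 * d := by
    rw [hP1.1.natDegree_mul hP2.1, hP1.2.2, hP2.2.2]; ring
  have hn34 : (P3 * P4).natDegree = 2 * d := by
    rw [hP3.1.natDegree_mul hP4.1, hP3.2.2, hP4.2.2]; ring
  have hdeg : (P1 * P2 - P3 * P4).degree < (P1 * P2).degree := by
    apply degree_sub_lt
    · rw [degree_eq_natDegree hm12.ne_zero, degree_eq_natDegree hm34.ne_zero, hn12, hn34]
    · exact hm12.ne_zero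
    · rw [hm12.leadingCoeff, hm34.leadingCoeff]
  have hle : (P1 * P2).degree ≤ (m1 * m2).degree := by
    rw [degree_eq_natDegree hm12.ne_zero, degree_eq_natDegree (h1.mul h2).ne_zero, hn12,
      h1.natDegree_mul h2]
    exact_mod_cast hd
  have heq : P1 * P2 = P3 * P4 :=
    sub_eq_zero.mp (eq_zero_of_dvd_of_degree_lt hdvd (lt_of_lt_of_le hdeg hle))
  have hprime : Prime P1 := hP1.2.1.prime
  have hd1 : P1 ∣ P3 * P4 := heq ▸ dvd_mul_right P1 P2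
  rcases hprime.dvd_or_dvd hd1 with h | h
  · left
    have : P1 = P3 := eq_of_monic_of_associated hP1.1 hP3.1
      (hP1.2.1.associated_of_dvd hP3.2.1 h)
    refine ⟨this, ?_⟩
    rw [this] at heq
    exact mul_left_cancel₀ hP3.1.ne_zero heq
  · right
    have : P1 = P4 := eq_of_monic_of_associated hP1.1 hP4.1
      (hP1.2.1.associated_of_dvd hP4.2.1 h)
    refine ⟨this, ?_⟩
    rw [this, mul_comm P3 P4] at heq
    exact mul_left_cancel₀ hP4.1.ne_zero heq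

theorem coprime_of_irred {p : ℕ} [hp : Fact p.Prime] {P Q : (ZMod p)[X]}
    (hP : P.Monic) (hPi : Irreducible P) (hQ : Q.Monic) (hQi : Irreducible Q) (hne : P ≠ Q) :
    IsCoprime P Q := by
  rw [hPi.coprime_iff_not_dvd]
  intro h
  exact hne (eq_of_monic_of_associated hP hQ (hPi.associated_of_dvd hQi h))

/-- Core construction. -/
theorem core0 {p : ℕ} [hp : Fact p.Prime] (π f : (ZMod p)[X]) (hmon : π.Monic)
    (hirr : Irreducible π) (g : ℕ) (hg : π.natDegree = g) (hg0 : 0 < g)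
    (hf : f.Monic) (h : ℕ) (hh : f.natDegree = h) (hcop : IsCoprime π f)
    (ω3 : (AdjoinRoot f)ˣ) (M2 : ℕ) (hM2 : M2 ≤ orderOf ω3)
    (d : ℕ) (hd : 2 * d ≤ p * g + h) (S : Finset (ZMod p)[X])
    (hS : ∀ P ∈ S, P.Monic ∧ Irreducible P ∧ P.natDegree = d)
    (hSπ : ∀ P ∈ S, IsCoprime P π) (hSf : ∀ P ∈ S, IsCoprime P f) :
    ∃ B : Finset ((Fin ((p - 1) * g) → ZMod p) × ℤ × ℤ), IsSidon B ∧
      (∀ b ∈ B, 0 ≤ b.2.1 ∧ b.2.1 < (p : ℤ) ^ g - 1 ∧ 0 ≤ b.2.2 ∧ b.2.2 < M2) ∧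
      S.card * (p ^ ((p - 1) * g) * (p ^ g - 1) * M2) ≤ B.card * p ^ (p * g + h) := by
  classical
  obtain ⟨ψ, ω, hψ, hψω⟩ := exists_hom π hmon hirr g hg hg0
  have hmonp : (π ^ p).Monic := hmon.pow p
  have hnp : (π ^ p).natDegree = p * g := by rw [hmon.natDegree_pow, hg]
  have hfin1 : Finite (AdjoinRoot (π ^ p)) := (card_adjoin hmonp).1
  have hfin2 : Finite (AdjoinRoot f) := (card_adjoin hf).1
  have hcop' : IsCoprime (π ^ p) f := hcop.pow_left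
  have : Fintype ((AdjoinRoot (π ^ p))ˣ × (AdjoinRoot f)ˣ) := Fintype.ofFinite _
  let Φ : ((Fin ((p - 1) * g) → ZMod p) × ℤ × ℤ) → ((AdjoinRoot (π ^ p))ˣ × (AdjoinRoot f)ˣ) :=
    fun z => (ψ z.1 * ω ^ z.2.1, ω3 ^ z.2.2)
  have hΦ : ∀ a b, Φ (a + b) = Φ a * Φ b := by
    intro a b
    simp only [Φ, Prod.fst_add, Prod.snd_add, hψ, zpow_add, Prod.mk_mul_mk]
    rw [mul_mul_mul_comm]
  let Dom : Finset ((Fin ((p - 1) * g) → ZMod p) × ℤ × ℤ) :=
    Finset.univ ×ˢ (Finset.Ico 0 ((p : ℤ) ^ g - 1) ×ˢ Finset.Ico 0 (M2 : ℤ))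
  have hinj : Set.InjOn Φ (Dom : Set _) := by
    rintro ⟨v, x, y⟩ ha ⟨v', x', y'⟩ hb hab
    simp only [Dom, Finset.coe_product, Set.mem_prod, Finset.mem_coe, Finset.mem_univ,
      Finset.mem_Ico, true_and] at ha hb
    simp only [Φ, Prod.mk.injEq] at hab
    obtain ⟨h1, h2⟩ := hψω v v' x x' ha.1.1 ha.1.2 hb.1.1 hb.1.2 hab.1
    have h3 := hab.2
    rw [← orderOf_dvd_sub_iff_zpow_eq_zpow] at h3
    have h4 : y - y' = 0 := by
      apply Int.eq_zero_of_abs_lt_dvd h3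
      have h5 : (M2 : ℤ) ≤ (orderOf ω3 : ℤ) := by exact_mod_cast hM2
      rw [abs_lt]
      constructor <;> linarith [ha.2.1, ha.2.2, hb.2.1, hb.2.2]
    have h5 : y = y' := by linarith
    rw [h1, h2, h5]
  have hDcard : Dom.card = p ^ ((p - 1) * g) * (p ^ g - 1) * M2 := by
    simp only [Dom]
    rw [Finset.card_product, Finset.card_product, Int.card_Ico, Int.card_Ico, Finset.card_univ]
    have h1 : Fintype.card (Fin ((p - 1) * g) → ZMod p) = p ^ ((p - 1) * g) := by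
      rw [Fintype.card_fun, ZMod.card, Fintype.card_fin]
    have h2 : ((p : ℤ) ^ g - 1 - 0).toNat = p ^ g - 1 := by
      have h3 : 1 ≤ p ^ g := Nat.one_le_pow _ _ hp.out.pos
      have h4 : ((p ^ g - 1 : ℕ) : ℤ) = (p : ℤ) ^ g - 1 := by
        push_cast [Nat.cast_sub h3]
        ring
      rw [sub_zero, ← h4, Int.toNat_natCast]
    rw [h1, h2, sub_zero, Int.toNat_natCast, mul_assoc]
  -- the Sidon set in the unit group
  let u : (ZMod p)[X] → ((AdjoinRoot (π ^ p))ˣ × (AdjoinRoot f)ˣ) := fun P =>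
    if hu : IsUnit (AdjoinRoot.mk (π ^ p) P) ∧ IsUnit (AdjoinRoot.mk f P) then
      (hu.1.unit, hu.2.unit) else 1
  have hu : ∀ P ∈ S, ((u P).1 : AdjoinRoot (π ^ p)) = AdjoinRoot.mk (π ^ p) P ∧
      ((u P).2 : AdjoinRoot f) = AdjoinRoot.mk f P := by
    intro P hP
    have h1 : IsUnit (AdjoinRoot.mk (π ^ p) P) ∧ IsUnit (AdjoinRoot.mk f P) :=
      ⟨isUnit_mk (hSπ P hP).pow_right, isUnit_mk (hSf P hP)⟩
    simp only [u, dif_pos h1, IsUnit.unit_spec, and_self]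
  have key : ∀ P1 ∈ S, ∀ P2 ∈ S, ∀ P3 ∈ S, ∀ P4 ∈ S, u P1 * u P2 = u P3 * u P4 →
      (P1 = P3 ∧ P2 = P4) ∨ (P1 = P4 ∧ P2 = P3) := by
    intro P1 h1 P2 h2 P3 h3 P4 h4 he
    have a1 := congrArg (fun z => ((z.1 : (AdjoinRoot (π ^ p))ˣ) : AdjoinRoot (π ^ p))) he
    have a2 := congrArg (fun z => ((z.2 : (AdjoinRoot f)ˣ) : AdjoinRoot f)) he
    simp only [Prod.fst_mul, Prod.snd_mul, Units.val_mul] at a1 a2
    rw [(hu P1 h1).1, (hu P2 h2).1, (hu P3 h3).1, (hu P4 h4).1, ← map_mul, ← map_mul] at a1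
    rw [(hu P1 h1).2, (hu P2 h2).2, (hu P3 h3).2, (hu P4 h4).2, ← map_mul, ← map_mul] at a2
    exact irred_quad hmonp hf hcop' d (by rw [hnp, hh]; exact hd) P1 P2 P3 P4 (hS P1 h1)
      (hS P2 h2) (hS P3 h3) (hS P4 h4) a1 a2
  have huinj : Set.InjOn u (S : Set _) := by
    intro P hP Q hQ hPQ
    rcases key P hP P hP Q hQ P hP (by rw [hPQ]) with ⟨h1, _⟩ | ⟨_, h1⟩
    · exact h1
    · exact h1
  let A := S.image u
  have hA : ∀ a ∈ A, ∀ b ∈ A, ∀ c ∈ A, ∀ d ∈ A, a * b = c * d →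
      (a = c ∧ b = d) ∨ (a = d ∧ b = c) := by
    intro a ha b hb c hc d hd habcd
    rw [Finset.mem_image] at ha hb hc hd
    obtain ⟨a, ha, rfl⟩ := ha
    obtain ⟨b, hb, rfl⟩ := hb
    obtain ⟨c, hc, rfl⟩ := hc
    obtain ⟨d, hd, rfl⟩ := hd
    rcases key a ha b hb c hc d hd habcd with ⟨h2, h3⟩ | ⟨h2, h3⟩
    · left; exact ⟨by rw [h2], by rw [h3]⟩
    · right; exact ⟨by rw [h2], by rw [h3]⟩
  obtain ⟨B, hB1, hB2, hB3⟩ := pullback Φ hΦ Dom hinj A hA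
  refine ⟨B, hB2, ?_, ?_⟩
  · intro b hb
    have h1 := hB1 b hb
    simp only [Dom, Finset.mem_product, Finset.mem_univ, Finset.mem_Ico, true_and] at h1
    exact ⟨h1.1.1, h1.1.2, h1.2.1, h1.2.2⟩
  · have hAcard : A.card = S.card := Finset.card_image_of_injOn huinj
    have hΓ : Fintype.card ((AdjoinRoot (π ^ p))ˣ × (AdjoinRoot f)ˣ) ≤ p ^ (p * g + h) := by
      rw [← Nat.card_eq_fintype_card, Nat.card_prod, pow_add]
      apply Nat.mul_le_mul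
      · calc Nat.card (AdjoinRoot (π ^ p))ˣ ≤ Nat.card (AdjoinRoot (π ^ p)) :=
            Nat.card_le_card_of_injective _ Units.val_injective
          _ = p ^ (p * g) := by rw [(card_adjoin hmonp).2, hnp]
      · calc Nat.card (AdjoinRoot f)ˣ ≤ Nat.card (AdjoinRoot f) :=
            Nat.card_le_card_of_injective _ Units.val_injective
          _ = p ^ h := by rw [(card_adjoin hf).2, hh]
    calc S.card * (p ^ ((p - 1) * g) * (p ^ g - 1) * M2) = A.card * Dom.card := by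
          rw [hAcard, hDcard]
      _ ≤ B.card * _ := hB3
      _ ≤ B.card * p ^ (p * g + h) := Nat.mul_le_mul_left _ hΓ

end Pool.Agent.Helper580_sidon
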