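import Pool.Agent.Helper580_sidon.Core

set_option autoImplicit false

open Polynomial

namespace Pool.Agent.Helper580_sidon

/-- The length of the second cyclic coordinate. -/
def M2 (p h : ℕ) : ℕ := if h = 0 then 1 else (p ^ h - 1) / 2

theorem exists_irred (p : ℕ) [hp : Fact p.Prime] (hp2 : p ≠ 2) (d : ℕ) (hd : 0 < d) :
    ∃ P : (ZMod p)[X], P.Monic ∧ Irreducible P ∧ P.natDegree = d := by
  obtain ⟨S, hS1, hS2⟩ := many_irred p hp2 d hd
  have h1 : 0 < p ^ d := pow_pos hp.out.pos d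
  have h2 : 0 < S.card := by
    by_contra hcon
    have h3 : S.card = 0 := by omega
    rw [h3, mul_zero] at hS2
    omega
  obtain ⟨P, hP⟩ := Finset.card_pos.mp h2
  exact ⟨P, hS1 P hP⟩

theorem core1 (p : ℕ) [hp : Fact p.Prime] (hp2 : p ≠ 2) (g h : ℕ) (hg0 : 0 < g) (hgh : h ≠ g)
    (d : ℕ) (hd0 : 0 < d) (hd : 2 * d ≤ p * g + h) :
    ∃ s : ℕ, p ^ d ≤ 2 * d * s ∧
    ∃ B : Finset ((Fin ((p - 1) * g) → ZMod p) × ℤ × ℤ), IsSidon B ∧
      (∀ b ∈ B, 0 ≤ b.2.1 ∧ b.2.1 < (p : ℤ) ^ g - 1 ∧ 0 ≤ b.2.2 ∧ b.2.2 < M2 p h) ∧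
      2 * s ≤ 9 * B.card + 4 := by
  classical
  have hp3 : 3 ≤ p := by
    have := hp.out.two_le
    omega
  obtain ⟨π, hπ1, hπ2, hπ3⟩ := exists_irred p hp2 g hg0
  obtain ⟨S', hS1, hS2⟩ := many_irred p hp2 d hd0
  refine ⟨S'.card, hS2, ?_⟩
  -- the second modulus
  have hf : ∃ f : (ZMod p)[X], f.Monic ∧ f.natDegree = h ∧ IsCoprime π f ∧
      (∃ ω3 : (AdjoinRoot f)ˣ, M2 p h ≤ orderOf ω3) ∧
      (∀ P : (ZMod p)[X], P.Monic → Irreducible P → P ≠ f → IsCoprime P f) := by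
    by_cases hh : h = 0
    · refine ⟨1, monic_one, ?_, isCoprime_one_right, ⟨1, ?_⟩, ?_⟩
      · rw [natDegree_one, hh]
      · rw [orderOf_one, M2, if_pos hh]
      · intro P _ _ _
        exact isCoprime_one_right
    · obtain ⟨f, hf1, hf2, hf3⟩ := exists_irred p hp2 h (Nat.pos_of_ne_zero hh)
      refine ⟨f, hf1, hf3, ?_, ?_, ?_⟩
      · apply coprime_of_irred hπ1 hπ2 hf1 hf2
        rintro rfl
        exact hgh (hf3.symm.trans hπ3)
      · have hfin : Finite (AdjoinRoot f) := (card_adjoin hf1).1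
        have : Fact (Irreducible f) := ⟨hf2⟩
        obtain ⟨ω0, hω0⟩ := IsCyclic.exists_generator (α := (AdjoinRoot f)ˣ)
        have : Fintype (AdjoinRoot f) := Fintype.ofFinite _
        refine ⟨ω0, ?_⟩
        rw [orderOf_eq_card_of_forall_mem_zpowers hω0, Nat.card_units, (card_adjoin hf1).2, hf3,
          M2, if_neg hh]
        exact Nat.div_le_self _ _
      · intro P hP1 hP2 hP3
        exact coprime_of_irred hP1 hP2 hf1 hf2 hP3
  obtain ⟨f, hf1, hf2, hf3, ⟨ω3, hω3⟩, hf4⟩ := hf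
  let S := (S'.erase π).erase f
  have hSsub : ∀ P ∈ S, P ≠ f ∧ P ≠ π ∧ P ∈ S' := by
    intro P hP
    rw [Finset.mem_erase, Finset.mem_erase] at hP
    exact hP
  have hScard : S'.card ≤ S.card + 2 := by
    have h1 : S'.card - 1 ≤ (S'.erase π).card := Finset.pred_card_le_card_erase
    have h2 : (S'.erase π).card - 1 ≤ S.card := Finset.pred_card_le_card_erase
    omega
  obtain ⟨B, hB1, hB2, hB3⟩ := core0 π f hπ1 hπ2 g hπ3 hg0 hf1 h hf2 hf3 ω3 (M2 p h) hω3 d hd S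
    (fun P hP => hS1 P (hSsub P hP).2.2)
    (fun P hP => coprime_of_irred (hS1 P (hSsub P hP).2.2).1 (hS1 P (hSsub P hP).2.2).2.1
      hπ1 hπ2 (hSsub P hP).2.1)
    (fun P hP => hf4 P (hS1 P (hSsub P hP).2.2).1 (hS1 P (hSsub P hP).2.2).2.1 (hSsub P hP).1)
  refine ⟨B, hB1, hB2, ?_⟩
  have hpg : 3 ≤ p ^ g := by
    calc 3 ≤ p := hp3
      _ = p ^ 1 := (pow_one p).symm
      _ ≤ p ^ g := Nat.pow_le_pow_right hp.out.pos hg0
  have h1 : 2 * p ^ g ≤ 3 * (p ^ g - 1) := by omega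
  have h2 : p ^ h ≤ 3 * M2 p h := by
    unfold M2
    split_ifs with hh
    · rw [hh]; norm_num
    · have hph : 3 ≤ p ^ h := by
        calc 3 ≤ p := hp3
          _ = p ^ 1 := (pow_one p).symm
          _ ≤ p ^ h := Nat.pow_le_pow_right hp.out.pos (Nat.pos_of_ne_zero hh)
      have hodd : Odd (p ^ h) := (hp.out.odd_of_ne_two hp2).pow
      obtain ⟨k, hk⟩ := hodd
      omega
  have h3 : p ^ (p * g + h) = p ^ ((p - 1) * g) * (p ^ g * p ^ h) := by
    rw [← pow_add, ← pow_add]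
    congr 1
    obtain ⟨q, rfl⟩ : ∃ q, p = q + 1 := ⟨p - 1, by omega⟩
    rw [Nat.add_sub_cancel]
    ring
  have hpos : 0 < p ^ ((p - 1) * g) := pow_pos hp.out.pos _
  have h4 : S.card * ((p ^ g - 1) * M2 p h) ≤ B.card * (p ^ g * p ^ h) := by
    rw [h3] at hB3
    have h5 : p ^ ((p - 1) * g) * (S.card * ((p ^ g - 1) * M2 p h)) ≤
        p ^ ((p - 1) * g) * (B.card * (p ^ g * p ^ h)) := by
      calc _ = S.card * (p ^ ((p - 1) * g) * (p ^ g - 1) * M2 p h) := by ring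
        _ ≤ _ := hB3
        _ = _ := by ring
    exact Nat.le_of_mul_le_mul_left h5 hpos
  have h6 : 2 * S.card ≤ 9 * B.card := by
    have hpos2 : 0 < p ^ g * p ^ h := mul_pos (pow_pos hp.out.pos _) (pow_pos hp.out.pos _)
    have h7 : (2 * S.card) * (p ^ g * p ^ h) ≤ (9 * B.card) * (p ^ g * p ^ h) := by
      calc (2 * S.card) * (p ^ g * p ^ h) = S.card * ((2 * p ^ g) * p ^ h) := by ring
        _ ≤ S.card * ((3 * (p ^ g - 1)) * (3 * M2 p h)) :=
          Nat.mul_le_mul_left _ (Nat.mul_le_mul h1 h2)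
        _ = 9 * (S.card * ((p ^ g - 1) * M2 p h)) := by ring
        _ ≤ 9 * (B.card * (p ^ g * p ^ h)) := Nat.mul_le_mul_left _ h4
        _ = (9 * B.card) * (p ^ g * p ^ h) := by ring
    exact Nat.le_of_mul_le_mul_right h7 hpos2
  omega

/-- The same Sidon set moved to `F_p^r × [0,N)`. -/
theorem core2 (p : ℕ) [hp : Fact p.Prime] (hp2 : p ≠ 2) (g h : ℕ) (hg0 : 0 < g) (hgh : h ≠ g)
    (d : ℕ) (hd0 : 0 < d) (hd : 2 * d ≤ p * g + h) (r N : ℕ) (hr : (p - 1) * g ≤ r)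
    (hN : p ^ (g + h) ≤ N) :
    ∃ s : ℕ, p ^ d ≤ 2 * d * s ∧ Big (Slab p r N) ((2 * (s : ℝ) - 4) / 9) := by
  classical
  obtain ⟨s, hs, B, hB1, hB2, hB3⟩ := core1 p hp2 g h hg0 hgh d hd0 hd
  refine ⟨s, hs, ?_⟩
  obtain ⟨L, hL⟩ := exists_inj_linear (ZMod p) (Fin ((p - 1) * g) → ZMod p) (Fin r → ZMod p)
    (by rw [Module.finrank_fin_fun, Module.finrank_fin_fun]; exact hr)
  let Dm : Set ((Fin ((p - 1) * g) → ZMod p) × ℤ × ℤ) :=
    {b | 0 ≤ b.2.1 ∧ b.2.1 < (p : ℤ) ^ g - 1 ∧ 0 ≤ b.2.2 ∧ b.2.2 < M2 p h}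
  have hBig : Big Dm ((2 * (s : ℝ) - 4) / 9) := by
    refine ⟨B, hB2, hB1, ?_⟩
    have : (2 * (s : ℝ)) ≤ 9 * B.card + 4 := by exact_mod_cast hB3
    linarith
  let c : ℤ := 2 * ((p : ℤ) ^ g - 1) - 1
  refine Big.transfer (fun b => (L b.1, b.2.1 + c * b.2.2)) ?_ ?_ hBig
  · rintro ⟨v, x, y⟩ hb
    simp only [Dm, Set.mem_ofPred_eq] at hb
    obtain ⟨hx0, hx1, hy0, hy1⟩ := hb
    simp only [Slab, Set.mem_ofPred_eq, c]
    have hM : 2 * (M2 p h : ℤ) ≤ 2 * (p : ℤ) ^ h := by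
      have : M2 p h ≤ p ^ h := by
        unfold M2
        split_ifs with hh
        · exact Nat.one_le_pow _ _ hp.out.pos
        · omega
      have : (M2 p h : ℤ) ≤ (p : ℤ) ^ h := by exact_mod_cast this
      linarith
    constructor
    · have : 0 ≤ (2 * ((p : ℤ) ^ g - 1) - 1) := by linarith
      positivity
    · have hN' : (p : ℤ) ^ g * (p : ℤ) ^ h ≤ N := by
        rw [← pow_add]
        exact_mod_cast hN
      have hy2 : y + 1 ≤ M2 p h := by linarith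
      by_cases hh : h = 0
      · have h1 : (M2 p h : ℤ) = 1 := by rw [M2, if_pos hh]; rfl
        have hy3 : y = 0 := by linarith
        have hN2 : (p : ℤ) ^ g ≤ N := by
          rw [hh, pow_zero, mul_one] at hN'
          exact hN'
        rw [hy3, mul_zero, add_zero]
        linarith
      · have h1 : 2 * (M2 p h : ℤ) ≤ (p : ℤ) ^ h := by
          have : 2 * M2 p h ≤ p ^ h := by
            rw [M2, if_neg hh]
            have := Nat.mul_div_le (p ^ h - 1) 2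
            omega
          exact_mod_cast this
        have h2 : (0 : ℤ) ≤ (p : ℤ) ^ g - 1 := by linarith
        have h3 : (0 : ℤ) < (p : ℤ) ^ g := by
          have : 0 < p := hp.out.pos
          positivity
        nlinarith
  · rintro ⟨v1, x1, y1⟩ h1 ⟨v2, x2, y2⟩ h2 ⟨v3, x3, y3⟩ h3 ⟨v4, x4, y4⟩ h4 he
    simp only [Dm, Set.mem_ofPred_eq] at h1 h2 h3 h4
    simp only [Prod.mk_add_mk, Prod.mk.injEq, c] at he ⊢
    obtain ⟨e1, e2⟩ := he
    rw [← map_add, ← map_add] at e1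
    have e3 := hL e1
    refine ⟨e3, ?_⟩
    set P : ℤ := (p : ℤ) ^ g - 1 with hPdef
    have hP0 : 0 < P := by linarith [h1.1, h1.2.1]
    have e4 : (2 * P - 1) * ((y1 + y2) - (y3 + y4)) = (x3 + x4) - (x1 + x2) := by
      linear_combination e2
    have e5 : (x3 + x4) - (x1 + x2) ≤ 2 * P - 2 := by
      have a1 : x3 ≤ P - 1 := by linarith [Int.add_one_le_iff.mpr h3.2.1]
      have a2 : x4 ≤ P - 1 := by linarith [Int.add_one_le_iff.mpr h4.2.1]
      linarith [h1.1, h2.1]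
    have e6 : -(2 * P - 2) ≤ (x3 + x4) - (x1 + x2) := by
      have a1 : x1 ≤ P - 1 := by linarith [Int.add_one_le_iff.mpr h1.2.1]
      have a2 : x2 ≤ P - 1 := by linarith [Int.add_one_le_iff.mpr h2.2.1]
      linarith [h3.1, h4.1]
    have e7 : (y1 + y2) - (y3 + y4) = 0 := by
      by_contra hne
      rcases lt_or_gt_of_ne hne with hlt | hgt
      · have : (y1 + y2) - (y3 + y4) ≤ -1 := by linarith [Int.add_one_le_iff.mpr hlt]
        nlinarith
      · have : 1 ≤ (y1 + y2) - (y3 + y4) := by linarith [Int.add_one_le_iff.mpr hgt]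
        nlinarith
    rw [e7, mul_zero] at e4
    constructor <;> linarith

end Pool.Agent.Helper580_sidon
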