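import Pool.Agent.Helper580_sidon.Structure

set_option autoImplicit false

namespace Pool.Agent.Helper580_sidon

theorem t1 (j : ℕ) : (2 * j + 1) ^ 5 ≤ (j + 1) ^ 8 := by
  by_cases h0 : j = 0
  · subst h0; norm_num
  by_cases h1 : j = 1
  · subst h1; norm_num
  by_cases h2 : j = 2
  · subst h2; norm_num
  have hj : 4 ≤ j + 1 := by omega
  calc (2 * j + 1) ^ 5 ≤ (2 * (j + 1)) ^ 5 := Nat.pow_le_pow_left (by omega) 5
    _ = 32 * (j + 1) ^ 5 := by ring
    _ ≤ (j + 1) ^ 3 * (j + 1) ^ 5 := by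
        apply Nat.mul_le_mul_right
        calc 32 ≤ 4 ^ 3 := by norm_num
          _ ≤ (j + 1) ^ 3 := Nat.pow_le_pow_left hj 3
    _ = (j + 1) ^ 8 := by ring

theorem t2 (j : ℕ) : (2 * j + 1) ^ 64 ≤ 3 ^ 15 * (j + 1) ^ 79 := by
  by_cases h0 : j < 6
  · interval_cases j <;> norm_num
  have hj : 7 ≤ j + 1 := by omega
  calc (2 * j + 1) ^ 64 ≤ (2 * (j + 1)) ^ 64 := Nat.pow_le_pow_left (by omega) 64
    _ = 2 ^ 64 * (j + 1) ^ 64 := mul_pow _ _ _
    _ ≤ (3 ^ 15 * (j + 1) ^ 15) * (j + 1) ^ 64 := by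
        apply Nat.mul_le_mul_right
        calc 2 ^ 64 ≤ 3 ^ 15 * 7 ^ 15 := by norm_num
          _ ≤ 3 ^ 15 * (j + 1) ^ 15 := Nat.mul_le_mul_left _ (Nat.pow_le_pow_left hj 15)
    _ = 3 ^ 15 * (j + 1) ^ 79 := by rw [mul_assoc, ← pow_add]

theorem t3 (j : ℕ) (hj13 : 13 ≤ j) : (2 * j + 1) ^ 4 ≤ (j + 1) ^ 5 := by
  by_cases h0 : j = 13
  · subst h0; norm_num
  by_cases h1 : j = 14
  · subst h1; norm_num
  have hj : 16 ≤ j + 1 := by omega
  calc (2 * j + 1) ^ 4 ≤ (2 * (j + 1)) ^ 4 := Nat.pow_le_pow_left (by omega) 4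
    _ = 16 * (j + 1) ^ 4 := by ring
    _ ≤ (j + 1) * (j + 1) ^ 4 := Nat.mul_le_mul_right _ hj
    _ = (j + 1) ^ 5 := by ring

theorem log_le_of_pow {a b : ℕ} {s t : ℕ} (ha : 0 < a) (h : a ^ s ≤ b ^ t) :
    s * Real.log a ≤ t * Real.log b := by
  have h1 : ((a : ℝ) ^ s) ≤ (b : ℝ) ^ t := by exact_mod_cast h
  have h2 : (0 : ℝ) < (a : ℝ) ^ s := by positivity
  have h3 := Real.log_le_log h2 h1
  rwa [Real.log_pow, Real.log_pow] at h3

theorem one_add_le_exp (D L : ℝ) (hD : 1 ≤ D) (hL : 0 ≤ L) : 1 + L ≤ D * Real.exp (L / D) := by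
  have h1 : L / D + 1 ≤ Real.exp (L / D) := Real.add_one_le_exp _
  have hD0 : 0 < D := by linarith
  have h2 : D * (L / D + 1) ≤ D * Real.exp (L / D) := mul_le_mul_of_nonneg_left h1 hD0.le
  have h3 : D * (L / D + 1) = L + D := by field_simp
  linarith

/-- The numerical heart: `F_q^n × [0,N)` inside a group of order `q^n M`. -/
theorem slab_final (q : ℕ) [hq : Fact q.Prime] (hq2 : q ≠ 2) (hq29 : q < 29) (n N M : ℕ)
    (hN : 1 ≤ N) (hM : 1 ≤ M) (hNM : N ≤ M) (h1 : M ^ 5 ≤ N ^ 8)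
    (h2 : M ^ 64 ≤ (3 ^ 15) ^ n * N ^ 79) :
    Big (Slab q n N) (1 / (7200 * (29 : ℝ) ^ 30) *
      Real.exp (2 / 5 * (n * Real.log q + Real.log M))) := by
  have hq3 : 3 ≤ q := by
    have := hq.out.two_le
    omega
  have hqpos : 0 < q := hq.out.pos
  have hqR : (1 : ℝ) ≤ q := by exact_mod_cast hqpos
  have hqR29 : (q : ℝ) ≤ 29 := by exact_mod_cast hq29.le
  have hlogq := one_le_log hq3
  set X : ℝ := n * Real.log q with hX
  set Y : ℝ := Real.log N with hY
  set Z : ℝ := Real.log M with hZ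
  have hX0 : 0 ≤ X := by positivity
  have hY0 : 0 ≤ Y := Real.log_nonneg (by exact_mod_cast hN)
  have hYZ : Y ≤ Z := Real.log_le_log (by exact_mod_cast hN) (by exact_mod_cast hNM)
  have hZ0 : 0 ≤ Z := hY0.trans hYZ
  have e1 : 5 * Z ≤ 8 * Y := by
    have := log_le_of_pow (by omega) h1
    exact_mod_cast this
  have e2 : 64 * Z ≤ 15 * X + 79 * Y := by
    have h3 : (M : ℝ) ^ 64 ≤ ((3 : ℝ) ^ 15) ^ n * (N : ℝ) ^ 79 := by exact_mod_cast h2
    have h4 := Real.log_le_log (by positivity) h3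
    rw [Real.log_mul (by positivity) (by positivity), Real.log_pow, Real.log_pow, Real.log_pow,
      Real.log_pow] at h4
    have h5 : Real.log 3 ≤ Real.log q :=
      Real.log_le_log (by norm_num) (by exact_mod_cast hq3)
    have h6 : (n : ℝ) * Real.log 3 ≤ X := mul_le_mul_of_nonneg_left h5 (by positivity)
    push_cast at h4
    nlinarith
  have hC0 : (0 : ℝ) < (29 : ℝ) ^ 30 := by positivity
  have hKq : ∀ k : ℕ, k ≤ q + 2 → (q : ℝ) ^ k ≤ (29 : ℝ) ^ 30 := by
    intro k hk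
    calc (q : ℝ) ^ k ≤ (29 : ℝ) ^ k := pow_le_pow_left₀ (by positivity) hqR29 k
      _ ≤ (29 : ℝ) ^ 30 := pow_le_pow_right₀ (by norm_num) (by omega)
  set L : ℝ := X + Z with hL
  have hL0 : 0 ≤ L := by linarith
  -- a general comparison
  have hcmp : ∀ (E K : ℝ), 0 < K → K ≤ (29 : ℝ) ^ 30 → (2 / 5 + 1 / 800) * L ≤ E →
      1 / (7200 * (29 : ℝ) ^ 30) * Real.exp (2 / 5 * L) ≤ Real.exp E / (9 * K * (1 + (X + Y))) := by
    intro E K hK0 hK hE
    rw [le_div_iff₀ (by positivity)]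
    have a1 : 1 + (X + Y) ≤ 800 * Real.exp (L / 800) := by
      have := one_add_le_exp 800 L (by norm_num) hL0
      linarith
    have a2 : 9 * K * (1 + (X + Y)) ≤ 9 * (29 : ℝ) ^ 30 * (800 * Real.exp (L / 800)) := by
      apply mul_le_mul _ a1 (by positivity) (by positivity)
      linarith
    calc 1 / (7200 * (29 : ℝ) ^ 30) * Real.exp (2 / 5 * L) * (9 * K * (1 + (X + Y)))
        ≤ 1 / (7200 * (29 : ℝ) ^ 30) * Real.exp (2 / 5 * L) *
          (9 * (29 : ℝ) ^ 30 * (800 * Real.exp (L / 800))) := by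
          apply mul_le_mul_of_nonneg_left a2 (by positivity)
      _ = Real.exp (2 / 5 * L) * Real.exp (L / 800) := by
          field_simp
          ring
      _ = Real.exp (2 / 5 * L + L / 800) := (Real.exp_add _ _).symm
      _ ≤ Real.exp E := by
          apply Real.exp_le_exp.mpr
          linarith
  by_cases hc : q ^ n ≤ N ^ 2
  · have hcond : q ^ n ≤ (q * N) ^ (q - 1) := by
      calc q ^ n ≤ N ^ 2 := hc
        _ ≤ (q * N) ^ 2 := Nat.pow_le_pow_left (by nlinarith) 2
        _ ≤ (q * N) ^ (q - 1) := Nat.pow_le_pow_right (by positivity) (by omega)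
    apply (bnd1 q hq2 n N hN hcond).mono
    apply hcmp _ _ (by positivity) (hKq _ (by omega))
    linarith
  · push Not at hc
    by_cases hc2 : (2 / 5 + 1 / 800) * L ≤ 3 / 8 * X + 3 / 4 * Y
    · apply (bnd2 q hq2 n N hN hc).mono
      exact hcmp _ _ (by positivity) (hKq _ le_rfl) hc2
    · push Not at hc2
      apply (bnd3 q hq2 n N hN).mono
      have hE : (2 / 5 + 1 / 800) * L ≤ 1 / 2 * X + 1 / 4 * Y := by linarith
      rw [le_div_iff₀ (by positivity)]
      have h5 : (3 * q : ℝ) ≤ 7200 * (29 : ℝ) ^ 30 := by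
        have := hKq 1 (by omega)
        rw [pow_one] at this
        nlinarith
      calc 1 / (7200 * (29 : ℝ) ^ 30) * Real.exp (2 / 5 * L) * (3 * q)
          ≤ 1 / (7200 * (29 : ℝ) ^ 30) * Real.exp (2 / 5 * L) * (7200 * (29 : ℝ) ^ 30) := by
            apply mul_le_mul_of_nonneg_left h5 (by positivity)
        _ = Real.exp (2 / 5 * L) := by field_simp
        _ ≤ Real.exp (1 / 2 * X + 1 / 4 * Y) := by
            apply Real.exp_le_exp.mpr
            linarith

theorem prod_half_le {n : ℕ} (m : Fin n → ℕ) : ∏ i, (m i + 1) / 2 ≤ ∏ i, (m i + 1) / 2 := le_rfl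

/-- Every finite abelian group of odd order `n` contains a Sidon set of size `c n^(2/5)`. -/
theorem two_fifths (G : Type) [AddCommGroup G] [Fintype G] (hodd : Odd (Fintype.card G)) :
    Big (Set.univ : Set G) (1 / (7200 * (29 : ℝ) ^ 30) * (Fintype.card G : ℝ) ^ (2 / 5 : ℝ)) := by
  classical
  obtain ⟨q, n, K, hq, hqK, hK0, ⟨E⟩⟩ := structure_common G
  have hNZ : ∀ i, NeZero (K i) := fun i => ⟨hK0 i⟩
  have hcard : Fintype.card G = ∏ i, K i := by
    rw [← Nat.card_eq_fintype_card, Nat.card_congr E.toEquiv, Nat.card_pi]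
    apply Finset.prod_congr rfl
    intro i _
    rw [Nat.card_eq_fintype_card, ZMod.card]
  have hKodd : ∀ i, Odd (K i) := by
    intro i
    rw [hcard] at hodd
    exact hodd.of_dvd_nat (Finset.dvd_prod_of_mem K (Finset.mem_univ i))
  have hcardpos : 0 < Fintype.card G := Fintype.card_pos
  have htrans : ∀ x, Big (Set.univ : Set ((i : Fin n) → ZMod (K i))) x → Big (Set.univ : Set G) x := by
    intro x hx
    refine Big.transfer E.symm (fun _ _ => Set.mem_univ _) ?_ hx
    intro a _ b _ c _ d _ h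
    rw [← map_add, ← map_add] at h
    exact E.symm.injective h
  have hpow : (Fintype.card G : ℝ) ^ (2 / 5 : ℝ) = Real.exp (2 / 5 * Real.log (Fintype.card G)) := by
    rw [Real.rpow_def_of_pos (by exact_mod_cast hcardpos), mul_comm]
  have hhalf : ∀ a : ℕ, Odd a → ∃ j, a = 2 * j + 1 ∧ (a + 1) / 2 = j + 1 := by
    intro a ha
    obtain ⟨j, hj⟩ := ha
    exact ⟨j, hj, by omega⟩
  by_cases hn : n = 0
  · -- trivial group
    subst hn
    rw [Finset.univ_eq_empty, Finset.prod_empty] at hcard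
    apply Big.of_le_one 0 (Set.mem_univ _)
    rw [hcard]
    norm_num
  have hq3 : 3 ≤ q := by
    have h2 := hq.two_le
    have h3 : Odd q := (hKodd ⟨0, Nat.pos_of_ne_zero hn⟩).of_dvd_nat (hqK _)
    have h4 : q ≠ 2 := by
      rintro rfl
      exact absurd h3 (by decide)
    omega
  by_cases hq29 : q < 29
  · -- small common prime
    have : Fact q.Prime := ⟨hq⟩
    let m : Fin n → ℕ := fun i => K i / q
    have hKm : ∀ i, K i = q * m i := fun i => (Nat.mul_div_cancel' (hqK i)).symm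
    have hm : ∀ i, Odd (m i) := by
      intro i
      exact (hKodd i).of_dvd_nat ⟨q, by rw [mul_comm]; exact hKm i⟩
    set N := ∏ i, (m i + 1) / 2 with hN
    set M := ∏ i, m i with hM
    have hN1 : 1 ≤ N := by
      apply Nat.one_le_iff_ne_zero.mpr
      rw [hN, Finset.prod_ne_zero_iff]
      intro i _
      obtain ⟨j, _, hj⟩ := hhalf _ (hm i)
      omega
    have hM1 : 1 ≤ M := by
      apply Nat.one_le_iff_ne_zero.mpr
      rw [hM, Finset.prod_ne_zero_iff]
      intro i _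
      exact (hm i).pos.ne'
    have hNM : N ≤ M := by
      apply Finset.prod_le_prod'
      intro i _
      obtain ⟨j, hj1, hj2⟩ := hhalf _ (hm i)
      omega
    have h1 : M ^ 5 ≤ N ^ 8 := by
      rw [hN, hM, ← Finset.prod_pow, ← Finset.prod_pow]
      apply Finset.prod_le_prod'
      intro i _
      obtain ⟨j, hj1, hj2⟩ := hhalf _ (hm i)
      rw [hj2, hj1]
      exact t1 j
    have h2 : M ^ 64 ≤ (3 ^ 15) ^ n * N ^ 79 := by
      have h3 : ((3 : ℕ) ^ 15) ^ n = ∏ _i : Fin n, 3 ^ 15 := by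
        rw [Finset.prod_const, Finset.card_univ, Fintype.card_fin]
      rw [hN, hM, ← Finset.prod_pow, ← Finset.prod_pow, h3, ← Finset.prod_mul_distrib]
      apply Finset.prod_le_prod'
      intro i _
      obtain ⟨j, hj1, hj2⟩ := hhalf _ (hm i)
      rw [hj2, hj1]
      exact t2 j
    have hB := slab_final q (by omega) hq29 n N M hN1 hM1 hNM h1 h2
    have hlog : Real.log (Fintype.card G) = n * Real.log q + Real.log M := by
      have h3 : Fintype.card G = q ^ n * M := by
        rw [hcard, hM]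
        calc ∏ i, K i = ∏ i, (q * m i) := Finset.prod_congr rfl (fun i _ => hKm i)
          _ = q ^ n * ∏ i, m i := by
            rw [Finset.prod_mul_distrib, Finset.prod_const, Finset.card_univ, Fintype.card_fin]
      rw [h3]
      push_cast
      rw [Real.log_mul (by positivity) (by positivity), Real.log_pow]
    rw [hpow, hlog]
    exact htrans _ (host q hq.pos K m hm hKm _ hB)
  · -- large common prime: the box
    push Not at hq29
    set N := ∏ i, (K i + 1) / 2 with hN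
    have hN1 : 1 ≤ N := by
      apply Nat.one_le_iff_ne_zero.mpr
      rw [hN, Finset.prod_ne_zero_iff]
      intro i _
      obtain ⟨j, _, hj⟩ := hhalf _ (hKodd i)
      omega
    have h1 : (Fintype.card G) ^ 4 ≤ N ^ 5 := by
      rw [hcard, hN, ← Finset.prod_pow, ← Finset.prod_pow]
      apply Finset.prod_le_prod'
      intro i _
      obtain ⟨j, hj1, hj2⟩ := hhalf _ (hKodd i)
      have hle : q ≤ K i := Nat.le_of_dvd (hKodd i).pos (hqK i)
      rw [hj2, hj1]
      exact t3 j (by omega)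
    apply htrans
    apply (box K hKodd _ (big_interval N hN1)).mono
    have hNpos : (0 : ℝ) < N := by exact_mod_cast hN1
    have h2 := log_le_of_pow hcardpos h1
    push_cast at h2
    rw [hpow, sqrt_eq_exp hNpos, le_div_iff₀ (by norm_num)]
    have h3 : Real.exp (2 / 5 * Real.log (Fintype.card G)) ≤ Real.exp (Real.log N / 2) := by
      apply Real.exp_le_exp.mpr
      linarith
    have h4 : 1 / (7200 * (29 : ℝ) ^ 30) * 6 ≤ 1 := by norm_num
    calc 1 / (7200 * (29 : ℝ) ^ 30) * Real.exp (2 / 5 * Real.log (Fintype.card G)) * 6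
        = (1 / (7200 * (29 : ℝ) ^ 30) * 6) * Real.exp (2 / 5 * Real.log (Fintype.card G)) := by ring
      _ ≤ 1 * Real.exp (2 / 5 * Real.log (Fintype.card G)) :=
          mul_le_mul_of_nonneg_right h4 (Real.exp_pos _).le
      _ ≤ Real.exp (Real.log N / 2) := by linarith

end Pool.Agent.Helper580_sidon
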