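import Pool.Agent.Helper580_sidon.Irred

set_option autoImplicit false

open Polynomial

namespace Pool.Agent.Helper580_sidon

theorem adjoin_equiv {S : Type} [CommRing S] {F : S[X]} (hF : F.Monic) (r : ℕ)
    (hr : F.natDegree = r) [Nontrivial S] : Nonempty (AdjoinRoot F ≃+ (Fin r → S)) := by
  subst hr
  have e1 : AdjoinRoot F ≃+ (Fin (AdjoinRoot.powerBasis' hF).dim → S) :=
    ((AdjoinRoot.powerBasis' hF).basis.equivFun).toAddEquiv
  rw [AdjoinRoot.powerBasis'_dim hF] at e1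
  exact ⟨e1⟩

section red

variable (p : ℕ) [hp : Fact p.Prime]

/-- Reduction `Z/p^2 → Z/p`. -/
def red : ZMod (p ^ 2) →+* ZMod p := ZMod.castHom (dvd_pow_self p two_ne_zero) (ZMod p)

theorem red_surj : Function.Surjective (red p) := ZMod.castHom_surjective _

theorem red_natCast (n : ℕ) : red p (n : ZMod (p ^ 2)) = (n : ZMod p) := map_natCast _ n

theorem red_zero {a : ZMod (p ^ 2)} (h : red p a = 0) : (p : ZMod (p ^ 2)) ∣ a := by
  have : NeZero (p ^ 2) := ⟨pow_ne_zero 2 hp.out.ne_zero⟩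
  have h1 : ((a.val : ℕ) : ZMod (p ^ 2)) = a := ZMod.natCast_zmod_val a
  rw [← h1, red_natCast, ZMod.natCast_eq_zero_iff] at h
  obtain ⟨m, hm⟩ := h
  refine ⟨(m : ZMod (p ^ 2)), ?_⟩
  rw [← h1, hm]
  push_cast
  ring

theorem red_tors {a : ZMod (p ^ 2)} (h : (p : ZMod (p ^ 2)) * a = 0) : red p a = 0 := by
  have : NeZero (p ^ 2) := ⟨pow_ne_zero 2 hp.out.ne_zero⟩
  have h1 : ((a.val : ℕ) : ZMod (p ^ 2)) = a := ZMod.natCast_zmod_val a
  rw [← h1] at h ⊢
  rw [red_natCast, ZMod.natCast_eq_zero_iff]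
  rw [← Nat.cast_mul, ZMod.natCast_eq_zero_iff] at h
  have h2 : p * p ∣ p * a.val := by
    rw [← pow_two]
    exact h
  exact Nat.dvd_of_mul_dvd_mul_left hp.out.pos h2

end red

theorem exists_irred3 (p : ℕ) [hp : Fact p.Prime] (hp2 : p ≠ 2) (d : ℕ) (hd : 0 < d) :
    ∃ P : (ZMod p)[X], P.Monic ∧ Irreducible P ∧ P.natDegree = d := by
  obtain ⟨S, hS1, hS2⟩ := many_irred p hp2 d hd
  have h1 : 0 < p ^ d := pow_pos hp.out.pos d
  have h2 : 0 < S.card := by
    by_contra hcon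
    have h3 : S.card = 0 := by omega
    rw [h3, mul_zero] at hS2
    omega
  obtain ⟨P, hP⟩ := Finset.card_pos.mp h2
  exact ⟨P, hS1 P hP⟩

theorem card_adjoin' {p : ℕ} [Fact p.Prime] {m : (ZMod p)[X]} (hm : m.Monic) :
    Finite (AdjoinRoot m) ∧ Nat.card (AdjoinRoot m) = p ^ m.natDegree := by
  obtain ⟨e⟩ := adjoin_equiv hm m.natDegree rfl
  refine ⟨Finite.of_equiv _ e.symm.toEquiv, ?_⟩
  rw [Nat.card_congr e.toEquiv]
  simp

/-- The Galois ring of characteristic `p^2` and residue field of size `p^r`. -/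
theorem galois_ring (p : ℕ) [hp : Fact p.Prime] (hp2 : p ≠ 2) (r : ℕ) (hr : 0 < r) :
    ∃ (R K : Type) (_ : CommRing R) (_ : Field K) (_ : Fintype K) (ρ : R →+* K) (l : K →+ ZMod p),
      Function.Surjective ρ ∧ Fintype.card K = p ^ r ∧ CharP K p ∧
      (∀ a, ρ a = 0 → ∃ w, a = (p : R) * w) ∧ (∀ a, (p : R) * a = 0 → ρ a = 0) ∧
      ((p : R) ^ 2 = 0) ∧ Function.Surjective l ∧ Nonempty (R ≃+ (Fin r → ZMod (p ^ 2))) := by
  obtain ⟨f, hf1, hf2, hf3⟩ := exists_irred3 p hp2 r hr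
  have : NeZero (p ^ 2) := ⟨pow_ne_zero 2 hp.out.ne_zero⟩
  have hnt : Nontrivial (ZMod (p ^ 2)) := (red p).domain_nontrivial
  have hlift : f ∈ lifts (red p) := by
    rw [mem_lifts]
    exact map_surjective _ (red_surj p) f
  obtain ⟨F, hF1, hF2, hF3⟩ := lifts_and_natDegree_eq_and_monic hlift hf1
  have hirr : Fact (Irreducible f) := ⟨hf2⟩
  have hfin := (card_adjoin' hf1).1
  let _ : Fintype (AdjoinRoot f) := Fintype.ofFinite _
  have h0 : F.eval₂ ((AdjoinRoot.of f).comp (red p)) (AdjoinRoot.root f) = 0 := by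
    rw [← eval₂_map, hF1]
    exact AdjoinRoot.eval₂_root f
  let ρ : AdjoinRoot F →+* AdjoinRoot f :=
    AdjoinRoot.lift ((AdjoinRoot.of f).comp (red p)) (AdjoinRoot.root f) h0
  have hρ : ∀ P : (ZMod (p ^ 2))[X], ρ (AdjoinRoot.mk F P) = AdjoinRoot.mk f (P.map (red p)) := by
    intro P
    simp only [ρ]
    rw [AdjoinRoot.lift_mk, ← eval₂_map]
    exact AdjoinRoot.aeval_eq _
  have hcast : ∀ Q : (ZMod (p ^ 2))[X], (p : AdjoinRoot F) * AdjoinRoot.mk F Q =
      AdjoinRoot.mk F (C (p : ZMod (p ^ 2)) * Q) := by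
    intro Q
    rw [map_mul]
    congr 1
  obtain ⟨eK⟩ := adjoin_equiv hf1 r hf3
  let l : AdjoinRoot f →+ ZMod p :=
    (Pi.evalAddMonoidHom (fun _ : Fin r => ZMod p) ⟨0, hr⟩).comp eK.toAddMonoidHom
  refine ⟨AdjoinRoot F, AdjoinRoot f, inferInstance, inferInstance, inferInstance, ρ, l,
    ?_, ?_, ?_, ?_, ?_, ?_, ?_, ?_⟩
  · intro y
    obtain ⟨P, rfl⟩ := AdjoinRoot.mk_surjective y
    obtain ⟨Q, rfl⟩ := map_surjective _ (red_surj p) P
    exact ⟨AdjoinRoot.mk F Q, hρ Q⟩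
  · rw [← Nat.card_eq_fintype_card, (card_adjoin' hf1).2, hf3]
  · exact charP_of_injective_algebraMap (algebraMap (ZMod p) (AdjoinRoot f)).injective p
  · intro a ha
    obtain ⟨P, rfl⟩ := AdjoinRoot.mk_surjective a
    rw [hρ, AdjoinRoot.mk_eq_zero] at ha
    obtain ⟨G, hG⟩ := ha
    obtain ⟨G', rfl⟩ := map_surjective _ (red_surj p) G
    have h1 : (P - F * G').map (red p) = 0 := by
      rw [Polynomial.map_sub, Polynomial.map_mul, hF1, hG, sub_self]
    have h2 : C (p : ZMod (p ^ 2)) ∣ P - F * G' := by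
      rw [C_dvd_iff_dvd_coeff]
      intro i
      apply red_zero p
      rw [← coeff_map, h1, coeff_zero]
    obtain ⟨Q, hQ⟩ := h2
    refine ⟨AdjoinRoot.mk F Q, ?_⟩
    rw [hcast, AdjoinRoot.mk_eq_mk, ← hQ]
    exact ⟨G', by ring⟩
  · intro a ha
    obtain ⟨P, rfl⟩ := AdjoinRoot.mk_surjective a
    have hmod : AdjoinRoot.mk F P = AdjoinRoot.mk F (P %ₘ F) := by
      rw [AdjoinRoot.mk_eq_mk]
      refine ⟨P /ₘ F, ?_⟩
      have := modByMonic_add_div P F
      linear_combination -this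
    rw [hmod] at ha ⊢
    rw [hcast, AdjoinRoot.mk_eq_zero] at ha
    have hdeg : (C (p : ZMod (p ^ 2)) * (P %ₘ F)).degree < F.degree :=
      lt_of_le_of_lt (by rw [← smul_eq_C_mul]; exact degree_smul_le _ _)
        (degree_modByMonic_lt P hF3)
    have h1 : C (p : ZMod (p ^ 2)) * (P %ₘ F) = 0 := by
      by_contra hne
      exact hF3.not_dvd_of_degree_lt hne hdeg ha
    have h2 : (P %ₘ F).map (red p) = 0 := by
      ext i
      rw [coeff_map, coeff_zero]
      apply red_tors p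
      rw [← coeff_C_mul, h1, coeff_zero]
    rw [hρ, h2, map_zero]
  · have h1 : ((p ^ 2 : ℕ) : ZMod (p ^ 2)) = 0 := ZMod.natCast_self _
    have h2 : ((p ^ 2 : ℕ) : AdjoinRoot F) = 0 := by
      rw [← map_natCast (AdjoinRoot.of F) (p ^ 2), h1, map_zero]
    exact_mod_cast h2
  · intro c
    refine ⟨eK.symm (fun _ => c), ?_⟩
    simp [l]
  · exact adjoin_equiv hF3 r (hF2.trans hf3)

end Pool.Agent.Helper580_sidon
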