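import Pool.Agent.Helper580_sidon.Bounds

set_option autoImplicit false

namespace Pool.Agent.Helper580_sidon

/-- Digits of an integer in mixed radix, `0` outside of the range. -/
noncomputable def dig {n : ℕ} (b : Fin n → ℕ) (y : ℤ) (i : Fin n) : ℕ :=
  if h : y.toNat < ∏ j, b j then ((finPiFinEquiv.symm ⟨y.toNat, h⟩ : (j : Fin n) → Fin (b j)) i : ℕ)
  else 0

/-- Weights of the mixed radix system. -/
noncomputable def wt {n : ℕ} (b : Fin n → ℕ) (i : Fin n) : ℕ :=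
  ∏ j : Fin i, b (Fin.castLE i.is_lt.le j)

theorem dig_lt {n : ℕ} (b : Fin n → ℕ) (y : ℤ) (h0 : 0 ≤ y) (h1 : y < ((∏ j, b j : ℕ) : ℤ))
    (i : Fin n) : dig b y i < b i := by
  have h : y.toNat < ∏ j, b j := by
    zify
    rw [Int.toNat_of_nonneg h0]
    exact_mod_cast h1
  rw [dig, dif_pos h]
  exact Fin.is_lt _

theorem dig_sum {n : ℕ} (b : Fin n → ℕ) (y : ℤ) (h0 : 0 ≤ y) (h1 : y < ((∏ j, b j : ℕ) : ℤ)) :
    y = ∑ i, (dig b y i : ℤ) * (wt b i : ℤ) := by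
  have h : y.toNat < ∏ j, b j := by
    zify
    rw [Int.toNat_of_nonneg h0]
    exact_mod_cast h1
  have h2 := finPiFinEquiv_apply (finPiFinEquiv.symm ⟨y.toNat, h⟩ : (j : Fin n) → Fin (b j))
  rw [Equiv.apply_symm_apply] at h2
  have h3 : (y.toNat : ℤ) = y := Int.toNat_of_nonneg h0
  rw [← h3]
  have h4 : y.toNat = ∑ i, dig b y i * wt b i := by
    rw [show y.toNat = ((⟨y.toNat, h⟩ : Fin (∏ j, b j)) : ℕ) from rfl, h2]
    apply Finset.sum_congr rfl
    intro i _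
    rw [dig, dif_pos h, wt]
  rw [h3]
  conv_lhs => rw [← h3, h4]
  push_cast
  rfl

/-- One coordinate of the host lemma. -/
theorem host_coord (p m K : ℕ) (hp : 0 < p) (hm : Odd m) (hK : K = p * m)
    (x1 x2 x3 x4 : ℕ) (v1 v2 v3 v4 : ZMod p)
    (h1 : x1 < (m + 1) / 2) (h2 : x2 < (m + 1) / 2) (h3 : x3 < (m + 1) / 2)
    (h4 : x4 < (m + 1) / 2)
    (he : ((x1 : ZMod K) + (m : ZMod K) * ((v1.val : ℕ) : ZMod K)) +
      ((x2 : ZMod K) + (m : ZMod K) * ((v2.val : ℕ) : ZMod K)) =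
      ((x3 : ZMod K) + (m : ZMod K) * ((v3.val : ℕ) : ZMod K)) +
      ((x4 : ZMod K) + (m : ZMod K) * ((v4.val : ℕ) : ZMod K))) :
    x1 + x2 = x3 + x4 ∧ v1 + v2 = v3 + v4 := by
  have : NeZero p := ⟨hp.ne'⟩
  subst hK
  have hmpos : 0 < m := hm.pos
  have he' : (((x1 + x2) + m * (v1.val + v2.val) : ℕ) : ZMod (p * m)) =
      (((x3 + x4) + m * (v3.val + v4.val) : ℕ) : ZMod (p * m)) := by
    push_cast at he ⊢
    linear_combination he
  rw [ZMod.natCast_eq_natCast_iff] at he'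
  have ha : x1 + x2 < m := by omega
  have hb : x3 + x4 < m := by omega
  have hx : x1 + x2 = x3 + x4 := by
    have h5 : ((x1 + x2) + m * (v1.val + v2.val)) % m = ((x3 + x4) + m * (v3.val + v4.val)) % m :=
      he'.of_mul_left p
    rw [Nat.add_mul_mod_self_left, Nat.add_mul_mod_self_left, Nat.mod_eq_of_lt ha,
      Nat.mod_eq_of_lt hb] at h5
    exact h5
  refine ⟨hx, ?_⟩
  rw [hx] at he'
  have h6 := Nat.ModEq.add_left_cancel' _ he'
  rw [mul_comm p m] at h6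
  have h7 := Nat.ModEq.mul_left_cancel' hmpos.ne' h6
  rw [← ZMod.natCast_eq_natCast_iff] at h7
  push_cast at h7
  simpa using h7

/-- The group `∏ Z_{p m_i}` hosts `F_p^n × [0, ∏ (m_i+1)/2)`. -/
theorem host (p : ℕ) (hp : 0 < p) {n : ℕ} (K m : Fin n → ℕ) (hm : ∀ i, Odd (m i))
    (hK : ∀ i, K i = p * m i) (x : ℝ) (h : Big (Slab p n (∏ i, (m i + 1) / 2)) x) :
    Big (Set.univ : Set ((i : Fin n) → ZMod (K i))) x := by
  refine Big.transfer (fun w => fun i => ((dig (fun i => (m i + 1) / 2) w.2 i : ℕ) : ZMod (K i)) +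
    (m i : ZMod (K i)) * (((w.1 i).val : ℕ) : ZMod (K i))) (fun _ _ => Set.mem_univ _) ?_ h
  rintro ⟨v1, y1⟩ h1 ⟨v2, y2⟩ h2 ⟨v3, y3⟩ h3 ⟨v4, y4⟩ h4 he
  simp only [Slab, Set.mem_ofPred_eq] at h1 h2 h3 h4
  have hc : ∀ i, dig (fun i => (m i + 1) / 2) y1 i + dig (fun i => (m i + 1) / 2) y2 i =
      dig (fun i => (m i + 1) / 2) y3 i + dig (fun i => (m i + 1) / 2) y4 i ∧
      v1 i + v2 i = v3 i + v4 i := by
    intro i
    have hei := congrFun he i
    simp only [Pi.add_apply] at hei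
    exact host_coord p (m i) (K i) hp (hm i) (hK i) _ _ _ _ _ _ _ _
      (dig_lt (fun i => (m i + 1) / 2) y1 h1.1 h1.2 i)
      (dig_lt (fun i => (m i + 1) / 2) y2 h2.1 h2.2 i)
      (dig_lt (fun i => (m i + 1) / 2) y3 h3.1 h3.2 i)
      (dig_lt (fun i => (m i + 1) / 2) y4 h4.1 h4.2 i) hei
  simp only [Prod.mk_add_mk, Prod.mk.injEq]
  constructor
  · funext i
    exact (hc i).2
  · rw [dig_sum _ y1 h1.1 h1.2, dig_sum _ y2 h2.1 h2.2, dig_sum _ y3 h3.1 h3.2,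
      dig_sum _ y4 h4.1 h4.2, ← Finset.sum_add_distrib, ← Finset.sum_add_distrib]
    apply Finset.sum_congr rfl
    intro i _
    rw [← add_mul, ← add_mul]
    congr 1
    exact_mod_cast (hc i).1

/-- The group `∏ Z_{k_i}` hosts `[0, ∏ (k_i+1)/2)`. -/
theorem box {n : ℕ} (k : Fin n → ℕ) (hk : ∀ i, Odd (k i)) (x : ℝ)
    (h : Big (Ico0 (∏ i, (k i + 1) / 2)) x) :
    Big (Set.univ : Set ((i : Fin n) → ZMod (k i))) x := by
  refine host 1 one_pos k k hk (fun i => (one_mul _).symm) x ?_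
  refine Big.transfer (fun z => ((0 : Fin n → ZMod 1), z)) ?_ ?_ h
  · intro z hz
    exact hz
  · intro a _ b _ c _ d _ he
    simp only [Prod.mk_add_mk, Prod.mk.injEq] at he
    exact he.2

end Pool.Agent.Helper580_sidon
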