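import Pool.Agent.Helper580_sidon.Core1

set_option autoImplicit false

namespace Pool.Agent.Helper580_sidon

theorem one_le_log {p : ℕ} (hp : 3 ≤ p) : 1 ≤ Real.log p := by
  rw [Real.le_log_iff_exp_le (by positivity)]
  have h1 : Real.exp 1 < 3 := by
    have := Real.exp_one_lt_d9
    linarith
  have h2 : (3 : ℝ) ≤ p := by exact_mod_cast hp
  linarith

theorem log_pow_mul {p r N : ℕ} (hp : 0 < p) (hN : 0 < N) :
    Real.log ((p : ℝ) ^ r * N) = r * Real.log p + Real.log N := by
  have h1 : (p : ℝ) ^ r ≠ 0 := by positivity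
  have h2 : (N : ℝ) ≠ 0 := by positivity
  rw [Real.log_mul h1 h2, Real.log_pow]

/-- `F_p^r × [0,N)` with `p^r ≤ (p N)^(p-1)` contains a Sidon set of size
`√(p^r N) / (9 p^(p+1) (1 + log (p^r N)))`. -/
theorem iml1 (p : ℕ) [hp : Fact p.Prime] (hp2 : p ≠ 2) (r N : ℕ) (hN : 1 ≤ N)
    (hrN : p ^ r ≤ (p * N) ^ (p - 1)) :
    Big (Slab p r N) (Real.sqrt ((p : ℝ) ^ r * N) /
      (9 * (p : ℝ) ^ (p + 1) * (1 + Real.log ((p : ℝ) ^ r * N)))) := by
  have hp3 : 3 ≤ p := by
    have := hp.out.two_le
    omega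
  have hppos : 0 < p := hp.out.pos
  have hp1 : 1 < p := hp.out.one_lt
  have hpR : (1 : ℝ) ≤ p := by exact_mod_cast hppos
  have hlogp := one_le_log hp3
  set Q : ℝ := (p : ℝ) ^ r * N with hQ
  have hQ1 : 1 ≤ Q := by
    have h1 : (1 : ℝ) ≤ (p : ℝ) ^ r := one_le_pow₀ hpR
    have h2 : (1 : ℝ) ≤ N := by exact_mod_cast hN
    calc (1 : ℝ) = 1 * 1 := (one_mul 1).symm
      _ ≤ Q := mul_le_mul h1 h2 (by norm_num) (by positivity)
  have hlogQ : 0 ≤ Real.log Q := Real.log_nonneg hQ1
  have hL1 : 1 ≤ 1 + Real.log Q := by linarith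
  have hzero : (0 : (Fin r → ZMod p) × ℤ) ∈ Slab p r N := by
    simp only [Slab, Set.mem_ofPred_eq, Prod.snd_zero]
    exact ⟨le_refl _, by exact_mod_cast hN⟩
  -- a convenient sufficient condition for a singleton
  have hsingle : ∀ c : ℝ, 0 ≤ c → Real.sqrt Q ≤ c → c ≤ 9 * (p : ℝ) ^ (p + 1) * (1 + Real.log Q) →
      Big (Slab p r N) (Real.sqrt Q / (9 * (p : ℝ) ^ (p + 1) * (1 + Real.log Q))) := by
    intro c _ h1 h2
    apply Big.of_le_one 0 hzero
    rw [div_le_one (by positivity)]
    exact h1.trans h2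
  set b := Nat.log p N with hb
  have hb1 : p ^ b ≤ N := Nat.pow_log_le_self p (by omega)
  have hb2 : N < p ^ (b + 1) := Nat.lt_pow_succ_log_self hp1 N
  have hr : r < (b + 2) * (p - 1) := by
    have h1 : p ^ r < p ^ ((b + 2) * (p - 1)) := by
      calc p ^ r ≤ (p * N) ^ (p - 1) := hrN
        _ < (p ^ (b + 2)) ^ (p - 1) := by
          apply Nat.pow_lt_pow_left _ (by omega)
          calc p * N < p * p ^ (b + 1) := Nat.mul_lt_mul_of_pos_left hb2 hppos
            _ = p ^ (b + 2) := by ring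
        _ = p ^ ((b + 2) * (p - 1)) := (pow_mul _ _ _).symm
    exact (Nat.pow_lt_pow_iff_right hp1).mp h1
  have hr2 : r / (p - 1) < b + 2 := by
    rw [Nat.div_lt_iff_lt_mul (by omega)]
    exact hr
  set g := min (r / (p - 1)) b with hg
  have hgr : g ≤ r / (p - 1) := min_le_left _ _
  have hgb : g ≤ b := min_le_right _ _
  have hrg : r / (p - 1) ≤ g + 1 := by
    rcases min_choice (r / (p - 1)) b with h | h
    · rw [hg, h]; omega
    · rw [hg, h]; omega
  have hr3 : r < (p - 1) * (g + 2) := by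
    have h1 : r < (p - 1) * (r / (p - 1) + 1) := Nat.lt_mul_div_succ r (by omega)
    calc r < (p - 1) * (r / (p - 1) + 1) := h1
      _ ≤ (p - 1) * (g + 2) := Nat.mul_le_mul_left _ (by omega)
  have hr4 : (p - 1) * g ≤ r := by
    calc (p - 1) * g ≤ (p - 1) * (r / (p - 1)) := Nat.mul_le_mul_left _ hgr
      _ ≤ r := Nat.mul_div_le r (p - 1)
  by_cases hg0 : g = 0
  · -- small cases
    by_cases hr5 : r < p - 1
    · -- use the interval only
      have h1 := big_interval N hN
      have h2 : Big (Slab p r N) (Real.sqrt N / 6) := by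
        refine Big.transfer (fun z => ((0 : Fin r → ZMod p), z)) ?_ ?_ h1
        · intro z hz
          exact hz
        · intro a _ b _ c _ d _ he
          simp only [Prod.mk_add_mk, Prod.mk.injEq] at he
          exact he.2
      apply h2.mono
      have h3 : Real.sqrt Q ≤ (p : ℝ) ^ p * Real.sqrt N := by
        rw [hQ, Real.sqrt_mul (by positivity)]
        apply mul_le_mul_of_nonneg_right _ (Real.sqrt_nonneg _)
        rw [Real.sqrt_le_left (by positivity), ← pow_mul]
        apply pow_le_pow_right₀ hpR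
        omega
      rw [div_le_div_iff₀ (by positivity) (by norm_num)]
      have h4 : (0 : ℝ) ≤ Real.sqrt N := Real.sqrt_nonneg _
      have h5 : (p : ℝ) ^ p ≤ (p : ℝ) ^ (p + 1) := pow_le_pow_right₀ hpR (by omega)
      calc Real.sqrt Q * 6 ≤ (p : ℝ) ^ p * Real.sqrt N * 6 := by linarith
        _ ≤ (p : ℝ) ^ (p + 1) * Real.sqrt N * 9 := by nlinarith [mul_nonneg (sub_nonneg.mpr h5) h4, mul_nonneg (show (0:ℝ) ≤ (p:ℝ)^p by positivity) h4]
        _ = Real.sqrt N * (9 * (p : ℝ) ^ (p + 1) * 1) := by ring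
        _ ≤ Real.sqrt N * (9 * (p : ℝ) ^ (p + 1) * (1 + Real.log Q)) := by
          apply mul_le_mul_of_nonneg_left _ h4
          apply mul_le_mul_of_nonneg_left hL1 (by positivity)
    · have hb0 : b = 0 := by
        have h1 : 0 < r / (p - 1) := Nat.div_pos (by omega) (by omega)
        rcases min_choice (r / (p - 1)) b with h | h
        · omega
        · omega
      apply hsingle ((p : ℝ) ^ (p + 1)) (by positivity)
      · rw [Real.sqrt_le_left (by positivity), hQ]
        have h1 : (N : ℝ) ≤ p := by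
          rw [hb0, zero_add, pow_one] at hb2
          exact_mod_cast hb2.le
        calc (p : ℝ) ^ r * N ≤ (p : ℝ) ^ r * p := by
              apply mul_le_mul_of_nonneg_left h1 (by positivity)
          _ = (p : ℝ) ^ (r + 1) := by ring
          _ ≤ (p : ℝ) ^ (2 * (p + 1)) := by
              apply pow_le_pow_right₀ hpR
              rw [hg0] at hr3
              omega
          _ = ((p : ℝ) ^ (p + 1)) ^ 2 := by rw [← pow_mul]; ring_nf
      · nlinarith [show (0 : ℝ) ≤ (p : ℝ) ^ (p + 1) by positivity,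
          mul_nonneg (show (0 : ℝ) ≤ (p : ℝ) ^ (p + 1) by positivity) hlogQ]
  · have hgpos : 0 < g := Nat.pos_of_ne_zero hg0
    obtain ⟨h, hh1, hh2, hh3⟩ : ∃ h : ℕ, h ≠ g ∧ g + h ≤ b ∧ b ≤ g + h + 1 := by
      by_cases hc : b - g = g
      · exact ⟨g - 1, by omega, by omega, by omega⟩
      · exact ⟨b - g, hc, by omega, by omega⟩
    set d := (p * g + h) / 2 with hd
    have hpg : 3 ≤ p * g := by nlinarith
    have hd0 : 0 < d := by omega
    have hd1 : 2 * d ≤ p * g + h := by omega
    have hd2 : p * g + h ≤ 2 * d + 1 := by omega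
    obtain ⟨s, hs, hB⟩ := core2 p hp2 g h hgpos hh1 d hd0 hd1 r N hr4
      ((Nat.pow_le_pow_right hppos hh2).trans hb1)
    -- bounds for Q
    have hQup : Real.sqrt Q ≤ (p : ℝ) ^ d * (p : ℝ) ^ (p + 1) := by
      rw [← pow_add, Real.sqrt_le_left (by positivity), hQ, ← pow_mul]
      have h1 : (N : ℝ) ≤ (p : ℝ) ^ (b + 1) := by exact_mod_cast hb2.le
      calc (p : ℝ) ^ r * N ≤ (p : ℝ) ^ r * (p : ℝ) ^ (b + 1) := by
            apply mul_le_mul_of_nonneg_left h1 (by positivity)
        _ = (p : ℝ) ^ (r + (b + 1)) := (pow_add _ _ _).symm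
        _ ≤ (p : ℝ) ^ ((d + (p + 1)) * 2) := by
            apply pow_le_pow_right₀ hpR
            have h2 : (p - 1) * (g + 2) = p * g + 2 * p - g - 2 := by
              obtain ⟨q, rfl⟩ : ∃ q, p = q + 1 := ⟨p - 1, by omega⟩
              rw [Nat.add_sub_cancel]
              have : (q + 1) * g = q * g + g := by ring
              rw [this]
              have : q * (g + 2) = q * g + 2 * q := by ring
              rw [this]
              omega
            rw [h2] at hr3
            omega
    have hQlow : (2 * d : ℝ) ≤ Real.log Q := by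
      have h1 : (p : ℝ) ^ (2 * d) ≤ Q := by
        rw [hQ]
        have h2 : (p : ℝ) ^ b ≤ N := by exact_mod_cast hb1
        calc (p : ℝ) ^ (2 * d) ≤ (p : ℝ) ^ (r + b) := by
              apply pow_le_pow_right₀ hpR
              have h3 : (p - 1) * g + g = p * g := by
                obtain ⟨q, rfl⟩ : ∃ q, p = q + 1 := ⟨p - 1, by omega⟩
                rw [Nat.add_sub_cancel]
                ring
              omega
          _ = (p : ℝ) ^ r * (p : ℝ) ^ b := pow_add _ _ _
          _ ≤ (p : ℝ) ^ r * N := by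
              apply mul_le_mul_of_nonneg_left h2 (by positivity)
      have h4 : Real.log ((p : ℝ) ^ (2 * d)) ≤ Real.log Q :=
        Real.log_le_log (by positivity) h1
      rw [Real.log_pow] at h4
      push_cast at h4
      have h5 : (0 : ℝ) ≤ 2 * d := by positivity
      nlinarith
    set L : ℝ := 1 + Real.log Q with hL
    have hs' : (p : ℝ) ^ d ≤ L * s := by
      have h1 : (p : ℝ) ^ d ≤ 2 * d * s := by exact_mod_cast hs
      have h2 : (2 * d : ℝ) * s ≤ L * s := by
        apply mul_le_mul_of_nonneg_right _ (by positivity)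
        linarith
      linarith
    have hLpos : 0 < L := by linarith
    by_cases hcase : 4 * L ≤ (p : ℝ) ^ d
    · apply hB.mono
      have hs4 : (4 : ℝ) ≤ s := by
        by_contra hcon
        push Not at hcon
        have : L * s < L * 4 := mul_lt_mul_of_pos_left hcon hLpos
        linarith
      have h1 : (s : ℝ) / 9 ≤ (2 * (s : ℝ) - 4) / 9 := by linarith
      refine le_trans ?_ h1
      rw [div_le_div_iff₀ (by positivity) (by norm_num)]
      have h2 : (0 : ℝ) < (p : ℝ) ^ (p + 1) := by positivity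
      calc Real.sqrt Q * 9 ≤ ((p : ℝ) ^ d * (p : ℝ) ^ (p + 1)) * 9 := by linarith
        _ ≤ (L * s * (p : ℝ) ^ (p + 1)) * 9 := by
            have := mul_le_mul_of_nonneg_right hs' h2.le
            linarith
        _ = (s : ℝ) * (9 * (p : ℝ) ^ (p + 1) * L) := by ring
    · push Not at hcase
      apply hsingle _ (by positivity) hQup
      have h2 : (0 : ℝ) < (p : ℝ) ^ (p + 1) := by positivity
      calc (p : ℝ) ^ d * (p : ℝ) ^ (p + 1) ≤ (4 * L) * (p : ℝ) ^ (p + 1) :=
            mul_le_mul_of_nonneg_right hcase.le h2.le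
        _ ≤ 9 * (p : ℝ) ^ (p + 1) * L := by nlinarith [mul_pos hLpos h2]

end Pool.Agent.Helper580_sidon
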