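import Pool.Agent.Helper580_sidon.Parabola

set_option autoImplicit false

open Polynomial IntermediateField

namespace Pool.Agent.Helper580_sidon

theorem two_geom_le (p : ℕ) (hp : 3 ≤ p) (d : ℕ) :
    2 * (∑ e ∈ Finset.range d, p ^ e) ≤ p ^ d := by
  induction d with
  | zero => simp
  | succ d ih =>
    rw [Finset.sum_range_succ, mul_add, pow_succ]
    have : 0 < p ^ d := by positivity
    nlinarith

/-- Elements whose minimal polynomial has degree `e` satisfy `x ^ (p ^ e) = x`. -/
theorem pow_of_natDegree (p : ℕ) [hp : Fact p.Prime] (L : Type) [Field L] [Fintype L]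
    [Algebra (ZMod p) L] (x : L) :
    x ^ (p ^ (minpoly (ZMod p) x).natDegree) = x := by
  classical
  have hfin : Module.Finite (ZMod p) L := Module.Finite.of_finite
  have hint : IsIntegral (ZMod p) x := Algebra.IsIntegral.isIntegral x
  have : Fintype (ZMod p)⟮x⟯ := Fintype.ofFinite _
  have hcard : Fintype.card (ZMod p)⟮x⟯ = p ^ (minpoly (ZMod p) x).natDegree := by
    rw [Module.card_eq_pow_finrank (K := ZMod p), IntermediateField.adjoin.finrank hint, ZMod.card]
  have h := FiniteField.pow_card (IntermediateField.AdjoinSimple.gen (ZMod p) x)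
  rw [hcard] at h
  have h2 := congrArg (algebraMap (ZMod p)⟮x⟯ L) h
  rw [map_pow, IntermediateField.AdjoinSimple.algebraMap_gen] at h2
  exact h2

/-- Lower bound on the number of monic irreducible polynomials of degree `d` over `F_p`,
`p` an odd prime. -/
theorem many_irred (p : ℕ) [hp : Fact p.Prime] (hp2 : p ≠ 2) (d : ℕ) (hd : 0 < d) :
    ∃ S : Finset (ZMod p)[X], (∀ P ∈ S, P.Monic ∧ Irreducible P ∧ P.natDegree = d) ∧
      p ^ d ≤ 2 * d * S.card := by
  classical
  have hp3 : 3 ≤ p := by
    have := hp.out.two_le
    omega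
  let L := GaloisField p d
  have : Fintype L := Fintype.ofFinite _
  have hcard : Fintype.card L = p ^ d := by
    rw [← Nat.card_eq_fintype_card]
    exact GaloisField.card p d hd.ne'
  have hfin : Module.finrank (ZMod p) L = d := GaloisField.finrank p hd.ne'
  let f : L → (ZMod p)[X] := fun x => minpoly (ZMod p) x
  have hint : ∀ x : L, IsIntegral (ZMod p) x := fun x => Algebra.IsIntegral.isIntegral x
  let T : Finset L := Finset.univ.filter (fun x => (f x).natDegree = d)
  let B : ℕ → Finset L := fun e => Finset.univ.filter (fun x => x ^ (p ^ e) = x)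
  have hB : ∀ e, 0 < e → (B e).card ≤ p ^ e := by
    intro e he
    have hne := FiniteField.X_pow_card_pow_sub_X_ne_zero L he.ne' hp.out.one_lt
    have hdeg := FiniteField.X_pow_card_pow_sub_X_natDegree_eq L he.ne' hp.out.one_lt
    have hsub : B e ⊆ (X ^ p ^ e - X : L[X]).roots.toFinset := by
      intro x hx
      rw [Finset.mem_filter] at hx
      rw [Multiset.mem_toFinset, mem_roots hne]
      simp [IsRoot, hx.2]
    calc (B e).card ≤ ((X ^ p ^ e - X : L[X]).roots.toFinset).card := Finset.card_le_card hsub
      _ ≤ (X ^ p ^ e - X : L[X]).roots.card := Multiset.toFinset_card_le _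
      _ ≤ (X ^ p ^ e - X : L[X]).natDegree := card_roots' _
      _ = p ^ e := hdeg
  have hcover : (Finset.univ : Finset L) ⊆
      T ∪ (Finset.Ico 1 d).biUnion B := by
    intro x _
    rw [Finset.mem_union, Finset.mem_biUnion]
    have h1 : (f x).natDegree ≤ d := by
      rw [← hfin]
      exact minpoly.natDegree_le x
    have h2 : 0 < (f x).natDegree := minpoly.natDegree_pos (hint x)
    rcases h1.lt_or_eq with h | h
    · right
      refine ⟨(f x).natDegree, Finset.mem_Ico.mpr ⟨h2, h⟩, ?_⟩
      rw [Finset.mem_filter]
      exact ⟨Finset.mem_univ _, pow_of_natDegree p L x⟩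
    · left
      rw [Finset.mem_filter]
      exact ⟨Finset.mem_univ _, h⟩
  have hTcard : p ^ d ≤ 2 * T.card := by
    have h1 : p ^ d ≤ T.card + ∑ e ∈ Finset.Ico 1 d, p ^ e := by
      calc p ^ d = (Finset.univ : Finset L).card := by rw [Finset.card_univ, hcard]
        _ ≤ (T ∪ (Finset.Ico 1 d).biUnion B).card := Finset.card_le_card hcover
        _ ≤ T.card + ((Finset.Ico 1 d).biUnion B).card := Finset.card_union_le _ _
        _ ≤ T.card + ∑ e ∈ Finset.Ico 1 d, (B e).card :=
          Nat.add_le_add_left Finset.card_biUnion_le _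
        _ ≤ T.card + ∑ e ∈ Finset.Ico 1 d, p ^ e := by
          apply Nat.add_le_add_left
          apply Finset.sum_le_sum
          intro e he
          exact hB e (Finset.mem_Ico.mp he).1
    have h2 : ∑ e ∈ Finset.Ico 1 d, p ^ e ≤ ∑ e ∈ Finset.range d, p ^ e := by
      apply Finset.sum_le_sum_of_subset
      intro e he
      rw [Finset.mem_range]
      exact (Finset.mem_Ico.mp he).2
    have h3 := two_geom_le p hp3 d
    omega
  refine ⟨T.image f, ?_, ?_⟩
  · intro P hP
    rw [Finset.mem_image] at hP
    obtain ⟨x, hx, rfl⟩ := hP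
    rw [Finset.mem_filter] at hx
    exact ⟨minpoly.monic (hint x), minpoly.irreducible (hint x), hx.2⟩
  · have hfib : ∀ P ∈ T.image f, (T.filter (fun x => f x = P)).card ≤ d := by
      intro P hP
      rw [Finset.mem_image] at hP
      obtain ⟨y, hy, rfl⟩ := hP
      rw [Finset.mem_filter] at hy
      have hmon : (f y).Monic := minpoly.monic (hint y)
      have hne : (f y).map (algebraMap (ZMod p) L) ≠ 0 := (hmon.map _).ne_zero
      have hsub : T.filter (fun x => f x = f y) ⊆
          ((f y).map (algebraMap (ZMod p) L)).roots.toFinset := by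
        intro x hx
        rw [Finset.mem_filter] at hx
        rw [Multiset.mem_toFinset, mem_roots hne, IsRoot, eval_map_algebraMap, ← hx.2]
        exact minpoly.aeval _ _
      calc (T.filter (fun x => f x = f y)).card
          ≤ (((f y).map (algebraMap (ZMod p) L)).roots.toFinset).card := Finset.card_le_card hsub
        _ ≤ ((f y).map (algebraMap (ZMod p) L)).roots.card := Multiset.toFinset_card_le _
        _ ≤ ((f y).map (algebraMap (ZMod p) L)).natDegree := card_roots' _
        _ ≤ (f y).natDegree := natDegree_map_le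
        _ = d := hy.2
    have h1 := Finset.card_le_mul_card_image T d hfib
    calc p ^ d ≤ 2 * T.card := hTcard
      _ ≤ 2 * (d * (T.image f).card) := Nat.mul_le_mul_left _ h1
      _ = 2 * d * (T.image f).card := by ring

end Pool.Agent.Helper580_sidon
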