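import Pool.Agent.Helper580_sidon.Basic

set_option autoImplicit false

namespace Pool.Agent.Helper580_sidon

/-- An injective linear map exists when the dimension does not drop. -/
theorem exists_inj_linear (K : Type) [Field K] (V W : Type) [AddCommGroup V] [Module K V]
    [AddCommGroup W] [Module K W] [Module.Finite K V] [Module.Finite K W]
    (h : Module.finrank K V ≤ Module.finrank K W) :
    ∃ f : V →ₗ[K] W, Function.Injective f := by
  rw [← rank_le_iff_exists_linearMap]
  rw [← Module.finrank_eq_rank, ← Module.finrank_eq_rank]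
  exact_mod_cast h

theorem parabola_field (F : Type) [Field F] [Fintype F] (h2 : (2 : F) ≠ 0) :
    Big (Set.univ : Set (F × F)) (Fintype.card F) := by
  classical
  let f : F → F × F := fun x => (x, x * x)
  have key : ∀ x y u v : F, f x + f y = f u + f v → (x = u ∧ y = v) ∨ (x = v ∧ y = u) := by
    intro x y u v h
    simp only [f, Prod.mk_add_mk, Prod.mk.injEq] at h
    obtain ⟨h1, h3⟩ := h
    have h4 : (2 : F) * ((x - u) * (x - v)) = 0 := by
      have hy : y = u + v - x := by rw [← h1]; ring
      rw [hy] at h3
      linear_combination h3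
    rcases mul_eq_zero.mp h4 with h | h
    · exact absurd h h2
    rcases mul_eq_zero.mp h with h | h
    · left
      have hx : x = u := sub_eq_zero.mp h
      refine ⟨hx, ?_⟩
      rw [hx] at h1
      exact add_left_cancel h1
    · right
      have hx : x = v := sub_eq_zero.mp h
      refine ⟨hx, ?_⟩
      rw [hx, add_comm u v] at h1
      exact add_left_cancel h1
  have hinj : Function.Injective f := by
    intro x y h
    simp only [f, Prod.mk.injEq] at h
    exact h.1
  refine ⟨Finset.univ.image f, fun a _ => Set.mem_univ a, ?_, ?_⟩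
  · intro a ha b hb c hc d hd habcd
    rw [Finset.mem_image] at ha hb hc hd
    obtain ⟨a, _, rfl⟩ := ha
    obtain ⟨b, _, rfl⟩ := hb
    obtain ⟨c, _, rfl⟩ := hc
    obtain ⟨d, _, rfl⟩ := hd
    rcases key a b c d habcd with ⟨h2, h3⟩ | ⟨h2, h3⟩
    · left; exact ⟨by rw [h2], by rw [h3]⟩
    · right; exact ⟨by rw [h2], by rw [h3]⟩
  · rw [Finset.card_image_of_injective _ hinj, Finset.card_univ]

/-- `F_p^n` contains a Sidon set with `p ^ (n / 2)` elements, `p` odd. -/
theorem parabola (p : ℕ) [hp : Fact p.Prime] (hp2 : p ≠ 2) (n : ℕ) :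
    Big (Set.univ : Set (Fin n → ZMod p)) ((p : ℝ) ^ (n / 2)) := by
  classical
  by_cases ht : n / 2 = 0
  · rw [ht, pow_zero]
    exact Big.of_le_one 0 (Set.mem_univ _) (le_refl _)
  set t := n / 2 with htdef
  have : Fintype (GaloisField p t) := Fintype.ofFinite _
  have hcard : Fintype.card (GaloisField p t) = p ^ t := by
    rw [← Nat.card_eq_fintype_card]
    exact GaloisField.card p t ht
  have h2 : (2 : GaloisField p t) ≠ 0 := by
    intro h
    have h' : ((2 : ℕ) : GaloisField p t) = 0 := by exact_mod_cast h
    rw [CharP.cast_eq_zero_iff (GaloisField p t) p] at h'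
    have hle := Nat.le_of_dvd (by norm_num) h'
    have := hp.out.two_le
    omega
  have hfin : Module.finrank (ZMod p) (GaloisField p t) = t := GaloisField.finrank p ht
  obtain ⟨f, hf⟩ := exists_inj_linear (ZMod p) (GaloisField p t × GaloisField p t)
    (Fin n → ZMod p) (by
      rw [Module.finrank_prod, hfin, Module.finrank_fin_fun]
      omega)
  have h := parabola_field (GaloisField p t) h2
  rw [hcard] at h
  push_cast at h
  refine Big.transfer f (fun a _ => Set.mem_univ _) ?_ h
  intro a _ b _ c _ d _ habcd
  rw [← map_add, ← map_add] at habcd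
  exact hf habcd

end Pool.Agent.Helper580_sidon
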