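import Pool.Agent.Helper580_sidon.Irred

set_option autoImplicit false

namespace Pool.Agent.Helper580_sidon

/-- Averaging: a multiplicative Sidon set of a finite group, pulled back along a homomorphism
which is injective on `Dom`, gives an additive Sidon set inside `Dom` of proportional size. -/
theorem pullback {W Γ : Type} [AddCommGroup W] [CommGroup Γ] [Fintype Γ]
    (Φ : W → Γ) (hΦ : ∀ a b, Φ (a + b) = Φ a * Φ b) (Dom : Finset W)
    (hinj : Set.InjOn Φ (Dom : Set W)) (A : Finset Γ)
    (hA : ∀ a ∈ A, ∀ b ∈ A, ∀ c ∈ A, ∀ d ∈ A, a * b = c * d → (a = c ∧ b = d) ∨ (a = d ∧ b = c)) :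
    ∃ B : Finset W, (∀ b ∈ B, b ∈ Dom) ∧ IsSidon B ∧
      A.card * Dom.card ≤ B.card * Fintype.card Γ := by
  classical
  let B : Γ → Finset W := fun τ => Dom.filter (fun z => τ * Φ z ∈ A)
  have hsum : ∑ τ : Γ, (B τ).card = A.card * Dom.card := by
    have h1 : ∀ τ : Γ, (B τ).card = ∑ z ∈ Dom, if τ * Φ z ∈ A then 1 else 0 := by
      intro τ
      simp only [B]
      rw [Finset.card_filter]
    simp_rw [h1]
    rw [Finset.sum_comm]
    have h2 : ∀ z ∈ Dom, (∑ τ : Γ, if τ * Φ z ∈ A then 1 else 0) = A.card := by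
      intro z _
      rw [← Finset.card_filter]
      have h3 : (Finset.univ.filter (fun τ : Γ => τ * Φ z ∈ A)) = A.image (fun a => a * (Φ z)⁻¹) := by
        ext τ
        simp only [Finset.mem_filter, Finset.mem_univ, true_and, Finset.mem_image]
        constructor
        · intro h
          exact ⟨_, h, by simp⟩
        · rintro ⟨a, ha, rfl⟩
          simpa using ha
      rw [h3, Finset.card_image_of_injective]
      exact mul_left_injective _
    rw [Finset.sum_congr rfl h2, Finset.sum_const, smul_eq_mul, mul_comm]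
  have hex : ∃ τ : Γ, A.card * Dom.card ≤ (B τ).card * Fintype.card Γ := by
    by_contra hcon
    push Not at hcon
    have h1 : ∑ τ : Γ, ((B τ).card * Fintype.card Γ) < ∑ _τ : Γ, A.card * Dom.card := by
      apply Finset.sum_lt_sum_of_nonempty
      · exact Finset.univ_nonempty
      · intro τ _
        exact hcon τ
    rw [← Finset.sum_mul, hsum, Finset.sum_const, Finset.card_univ, smul_eq_mul, mul_comm] at h1
    exact lt_irrefl _ h1
  obtain ⟨τ, hτ⟩ := hex
  refine ⟨B τ, ?_, ?_, hτ⟩
  · intro b hb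
    exact (Finset.mem_filter.mp hb).1
  · intro a ha b hb c hc d hd habcd
    have ha' := Finset.mem_filter.mp ha
    have hb' := Finset.mem_filter.mp hb
    have hc' := Finset.mem_filter.mp hc
    have hd' := Finset.mem_filter.mp hd
    have h1 : (τ * Φ a) * (τ * Φ b) = (τ * Φ c) * (τ * Φ d) := by
      have h2 : Φ a * Φ b = Φ c * Φ d := by rw [← hΦ, ← hΦ, habcd]
      calc (τ * Φ a) * (τ * Φ b) = (τ * τ) * (Φ a * Φ b) := by
            rw [mul_mul_mul_comm]
        _ = (τ * τ) * (Φ c * Φ d) := by rw [h2]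
        _ = (τ * Φ c) * (τ * Φ d) := by rw [mul_mul_mul_comm]
    rcases hA _ ha'.2 _ hb'.2 _ hc'.2 _ hd'.2 h1 with ⟨h3, h4⟩ | ⟨h3, h4⟩
    · left
      exact ⟨hinj ha'.1 hc'.1 (mul_left_cancel h3), hinj hb'.1 hd'.1 (mul_left_cancel h4)⟩
    · right
      exact ⟨hinj ha'.1 hd'.1 (mul_left_cancel h3), hinj hb'.1 hc'.1 (mul_left_cancel h4)⟩

end Pool.Agent.Helper580_sidon
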