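import Pool.Agent.Helper580_sidon.Pullback

set_option autoImplicit false

open Polynomial

namespace Pool.Agent.Helper580_sidon

theorem isUnit_mk {p : ℕ} [Fact p.Prime] {m P : (ZMod p)[X]} (h : IsCoprime P m) :
    IsUnit (AdjoinRoot.mk m P) := by
  obtain ⟨a, b, hab⟩ := h
  have h1 : AdjoinRoot.mk m P * AdjoinRoot.mk m a = 1 := by
    rw [← map_mul, ← map_one (AdjoinRoot.mk m), AdjoinRoot.mk_eq_mk]
    refine ⟨-b, ?_⟩
    linear_combination hab
  exact IsUnit.of_mul_eq_one _ h1

theorem card_adjoin {p : ℕ} [Fact p.Prime] {m : (ZMod p)[X]} (hm : m.Monic) :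
    Finite (AdjoinRoot m) ∧ Nat.card (AdjoinRoot m) = p ^ m.natDegree := by
  have e : AdjoinRoot m ≃ (Fin m.natDegree → ZMod p) :=
    ((AdjoinRoot.powerBasis' hm).basis.equivFun).toEquiv.trans
      (Equiv.arrowCongr (finCongr (AdjoinRoot.powerBasis'_dim hm)) (Equiv.refl _))
  refine ⟨Finite.of_equiv _ e.symm, ?_⟩
  rw [Nat.card_congr e]
  simp

theorem exists_red {p : ℕ} [Fact p.Prime] (π : (ZMod p)[X]) (k : ℕ) (hk : k ≠ 0) :
    ∃ ρ : AdjoinRoot (π ^ k) →+* AdjoinRoot π,
      ∀ P, ρ (AdjoinRoot.mk (π ^ k) P) = AdjoinRoot.mk π P := by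
  have h0 : (π ^ k).eval₂ (AdjoinRoot.of π) (AdjoinRoot.root π) = 0 := by
    rw [eval₂_pow, AdjoinRoot.eval₂_root, zero_pow hk]
  refine ⟨AdjoinRoot.lift (AdjoinRoot.of π) (AdjoinRoot.root π) h0, ?_⟩
  intro P
  rw [AdjoinRoot.lift_mk]
  exact AdjoinRoot.aeval_eq P

theorem exists_inj_addHom0 (p : ℕ) [hp : Fact p.Prime] (U : Type) [AddCommGroup U] [Finite U]
    [Module (ZMod p) U] (k : ℕ) (hcard : p ^ k ≤ Nat.card U) :
    ∃ L : (Fin k → ZMod p) →+ U, Function.Injective L := by
  have : Fintype U := Fintype.ofFinite _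
  have : Module.Finite (ZMod p) U := Module.Finite.of_finite
  have hrank : k ≤ Module.finrank (ZMod p) U := by
    rw [Nat.card_eq_fintype_card, Module.card_eq_pow_finrank (K := ZMod p), ZMod.card] at hcard
    exact (Nat.pow_le_pow_iff_right hp.out.one_lt).mp hcard
  have hx := exists_inj_linear (ZMod p) (Fin k → ZMod p) U
  rw [Module.finrank_fin_fun] at hx
  obtain ⟨L, hL⟩ := hx hrank
  exact ⟨L.toAddMonoidHom, hL⟩

theorem exists_inj_addHom (p : ℕ) [hp : Fact p.Prime] (U : Type) [AddCommGroup U] [Finite U]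
    (hmod : ∀ x : U, p • x = 0) (k : ℕ) (hcard : p ^ k ≤ Nat.card U) :
    ∃ L : (Fin k → ZMod p) →+ U, Function.Injective L := 
  @exists_inj_addHom0 p hp U _ _ (AddCommGroup.zmodModule hmod) k hcard

/-- The elementary abelian part and the cyclic part of the units modulo `π ^ p`. -/
theorem exists_hom {p : ℕ} [hp : Fact p.Prime] (π : (ZMod p)[X]) (hmon : π.Monic)
    (hirr : Irreducible π) (g : ℕ) (hg : π.natDegree = g) (hg0 : 0 < g) :
    ∃ (ψ : (Fin ((p - 1) * g) → ZMod p) → (AdjoinRoot (π ^ p))ˣ) (ω : (AdjoinRoot (π ^ p))ˣ),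
      (∀ v w, ψ (v + w) = ψ v * ψ w) ∧
      (∀ v v' : Fin ((p - 1) * g) → ZMod p, ∀ x x' : ℤ, 0 ≤ x → x < (p : ℤ) ^ g - 1 → 0 ≤ x' →
        x' < (p : ℤ) ^ g - 1 → ψ v * ω ^ x = ψ v' * ω ^ x' → v = v' ∧ x = x') := by
  classical
  have hp0 : p ≠ 0 := hp.out.ne_zero
  obtain ⟨ρ, hρ⟩ := exists_red π p hp0
  have hmonp : (π ^ p).Monic := hmon.pow p
  have hπ0 : π ≠ 0 := hmon.ne_zero
  have hfinR : Finite (AdjoinRoot (π ^ p)) := (card_adjoin hmonp).1
  have hfinF : Finite (AdjoinRoot π) := (card_adjoin hmon).1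
  have : Fact (Irreducible π) := ⟨hirr⟩
  -- the kernel of the reduction on units
  let R := AdjoinRoot (π ^ p)
  let rU : Rˣ →* (AdjoinRoot π)ˣ := Units.map ρ.toMonoidHom
  let U : Subgroup Rˣ := rU.ker
  have hUexp : ∀ u : U, u ^ p = 1 := by
    intro u
    obtain ⟨P, hP⟩ := AdjoinRoot.mk_surjective (g := π ^ p) (u : Rˣ).val
    have h1 : rU (u : Rˣ) = 1 := u.2
    have h2 : AdjoinRoot.mk π P = AdjoinRoot.mk π 1 := by
      rw [← hρ, hP, map_one]
      have := congrArg Units.val h1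
      simpa [rU] using this
    rw [AdjoinRoot.mk_eq_mk] at h2
    obtain ⟨Q, hQ⟩ := h2
    have h3 : P ^ p = 1 + π ^ p * Q ^ p := by
      have : P = 1 + π * Q := by linear_combination hQ
      rw [this, add_pow_char, one_pow, mul_pow]
    have h4 : ((u : Rˣ) ^ p).val = (1 : Rˣ).val := by
      rw [Units.val_pow_eq_pow_val, ← hP, ← map_pow, h3, Units.val_one,
        ← map_one (AdjoinRoot.mk (π ^ p)), AdjoinRoot.mk_eq_mk]
      exact ⟨Q ^ p, by ring⟩
    apply Subtype.ext
    rw [Subgroup.coe_pow]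
    exact Units.ext h4
  have hmod : ∀ x : Additive U, p • x = 0 := by
    intro x
    have := hUexp (Additive.toMul x)
    exact this
  -- many elements in the kernel
  have hcop : ∀ a : (ZMod p)[X], IsCoprime (1 + π * a) (π ^ p) := by
    intro a
    apply IsCoprime.pow_right
    exact ⟨1, -a, by ring⟩
  let j : degreeLT (ZMod p) ((p - 1) * g) → Additive U := fun a =>
    Additive.ofMul ⟨(isUnit_mk (hcop (a : (ZMod p)[X]))).unit, by
      rw [MonoidHom.mem_ker]
      apply Units.ext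
      simp only [rU, Units.coe_map, Units.val_one, IsUnit.unit_spec]
      change ρ (AdjoinRoot.mk (π ^ p) (1 + π * (a : (ZMod p)[X]))) = 1
      rw [hρ, ← map_one (AdjoinRoot.mk π), AdjoinRoot.mk_eq_mk]
      exact ⟨(a : (ZMod p)[X]), by ring⟩⟩
  have hj : Function.Injective j := by
    intro a b hab
    have h1 : (isUnit_mk (hcop (a : (ZMod p)[X]))).unit = (isUnit_mk (hcop (b : (ZMod p)[X]))).unit := by
      have := congrArg (fun x : Additive U => (Additive.toMul x : U).1) hab
      exact this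
    have h2 : AdjoinRoot.mk (π ^ p) (1 + π * (a : (ZMod p)[X])) =
        AdjoinRoot.mk (π ^ p) (1 + π * (b : (ZMod p)[X])) := by
      have := congrArg Units.val h1
      simpa only [IsUnit.unit_spec] using this
    rw [AdjoinRoot.mk_eq_mk] at h2
    have h3 : π ^ p = π * π ^ (p - 1) := by
      rw [← pow_succ', Nat.sub_add_cancel hp.out.one_le]
    have h4 : π ^ (p - 1) ∣ (a : (ZMod p)[X]) - b := by
      rw [h3] at h2
      have h5 : (1 + π * (a : (ZMod p)[X])) - (1 + π * (b : (ZMod p)[X])) =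
        π * ((a : (ZMod p)[X]) - b) := by ring
      rw [h5] at h2
      exact (mul_dvd_mul_iff_left hπ0).mp h2
    have h6 : ((a : (ZMod p)[X]) - b).degree < (π ^ (p - 1)).degree := by
      have hdeg : (π ^ (p - 1)).degree = (((p - 1) * g : ℕ) : WithBot ℕ) := by
        rw [degree_eq_natDegree (pow_ne_zero _ hπ0), hmon.natDegree_pow, hg]
      rw [hdeg]
      have ha := mem_degreeLT.mp a.2
      have hb := mem_degreeLT.mp b.2
      exact lt_of_le_of_lt (degree_sub_le _ _) (max_lt ha hb)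
    have h7 : (a : (ZMod p)[X]) - b = 0 := eq_zero_of_dvd_of_degree_lt h4 h6
    exact Subtype.ext (sub_eq_zero.mp h7)
  have hcardU : p ^ ((p - 1) * g) ≤ Nat.card (Additive U) := by
    have h1 : Nat.card (degreeLT (ZMod p) ((p - 1) * g)) = p ^ ((p - 1) * g) := by
      rw [Nat.card_congr (degreeLTEquiv (ZMod p) ((p - 1) * g)).toEquiv]
      simp
    rw [← h1]
    exact Nat.card_le_card_of_injective j hj
  obtain ⟨L, hL⟩ := exists_inj_addHom p (Additive U) hmod _ hcardU
  -- a generator of the residue field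
  have : Fintype (AdjoinRoot π) := Fintype.ofFinite _
  obtain ⟨ω0, hω0⟩ := IsCyclic.exists_generator (α := (AdjoinRoot π)ˣ)
  have hord : orderOf ω0 = p ^ g - 1 := by
    rw [orderOf_eq_card_of_forall_mem_zpowers hω0, Nat.card_units, (card_adjoin hmon).2, hg]
  obtain ⟨a, ha⟩ := AdjoinRoot.mk_surjective (g := π) ω0.val
  have hacop : IsCoprime a (π ^ p) := by
    apply IsCoprime.pow_right
    apply IsCoprime.symm
    rw [hirr.coprime_iff_not_dvd]
    intro hdvd
    have h1 : AdjoinRoot.mk π a = 0 := AdjoinRoot.mk_eq_zero.mpr hdvd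
    rw [ha] at h1
    exact ω0.ne_zero h1
  let ω : Rˣ := (isUnit_mk hacop).unit
  have hω : rU ω = ω0 := by
    apply Units.ext
    simp only [rU, Units.coe_map, ω, IsUnit.unit_spec]
    change ρ (AdjoinRoot.mk (π ^ p) a) = _
    rw [hρ, ha]
  refine ⟨fun v => ((Additive.toMul (L v) : U) : Rˣ), ω, ?_, ?_⟩
  · intro v w
    have h := L.map_add v w
    change ((Additive.toMul (L (v + w)) : U) : Rˣ) = _
    rw [h]
    rfl
  · intro v v' x x' hx0 hx1 hx0' hx1' heq
    have h1 : ω0 ^ x = ω0 ^ x' := by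
      have h2 := congrArg rU heq
      rw [map_mul, map_mul, map_zpow, map_zpow, hω] at h2
      have h3 : ∀ u : U, rU (u : Rˣ) = 1 := fun u => u.2
      rw [h3, h3, one_mul, one_mul] at h2
      exact h2
    have h4 : x = x' := by
      rw [← orderOf_dvd_sub_iff_zpow_eq_zpow, hord] at h1
      have h5 : ((p ^ g - 1 : ℕ) : ℤ) = (p : ℤ) ^ g - 1 := by
        have : 1 ≤ p ^ g := Nat.one_le_pow _ _ hp.out.pos
        push_cast [Nat.cast_sub this]
        ring
      rw [h5] at h1
      have h6 : x - x' = 0 := by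
        apply Int.eq_zero_of_abs_lt_dvd h1
        rw [abs_lt]
        constructor <;> linarith
      linarith
    refine ⟨?_, h4⟩
    rw [h4] at heq
    have h7 := mul_right_cancel heq
    have h8 : Additive.toMul (L v) = Additive.toMul (L v') := Subtype.ext h7
    exact hL (Additive.toMul.injective h8)

end Pool.Agent.Helper580_sidon
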