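import Pool.Agent.Helper580_sidon.Host

set_option autoImplicit false

open scoped DirectSum

namespace Pool.Agent.Helper580_sidon

/-- Regrouping a finite product along the fibres of a map. -/
def fibreEquiv {ι J : Type} (c : ι → J) (A : ι → Type) [∀ i, AddCommGroup (A i)] :
    (∀ i, A i) ≃+ (∀ j : J, ∀ i : {i // c i = j}, A i.1) where
  toFun f := fun _ i => f i.1
  invFun g := fun i => g (c i) ⟨i, rfl⟩
  left_inv f := rfl
  right_inv g := by
    funext j ⟨i, hi⟩
    subst hi
    rfl
  map_add' f g := rfl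

/-- Every finite abelian group is a product of cyclic groups whose orders share a prime. -/
theorem structure_common (G : Type) [AddCommGroup G] [Finite G] :
    ∃ (q n : ℕ) (K : Fin n → ℕ), q.Prime ∧ (∀ i, q ∣ K i) ∧ (∀ i, K i ≠ 0) ∧
      Nonempty (G ≃+ (∀ i, ZMod (K i))) := by
  classical
  obtain ⟨ι, hι, p, hp, e, ⟨E⟩⟩ := AddCommGroup.equiv_directSum_zmod_of_finite G
  have E1 : G ≃+ (∀ i, ZMod (p i ^ e i)) := E.trans (DirectSum.addEquivProd _)
  by_cases hall : ∀ i, e i = 0
  · refine ⟨2, 0, fun _ => 2, Nat.prime_two, fun i => i.elim0, fun i => i.elim0, ?_⟩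
    have : ∀ i, Subsingleton (ZMod (p i ^ e i)) := by
      intro i
      rw [hall i, pow_zero]
      infer_instance
    have hsub : Subsingleton (∀ i, ZMod (p i ^ e i)) := inferInstance
    have : Subsingleton G := E1.toEquiv.subsingleton
    exact ⟨{ toFun := fun _ => 0, invFun := fun _ => 0, left_inv := fun _ => Subsingleton.elim _ _,
             right_inv := fun _ => Subsingleton.elim _ _, map_add' := fun _ _ => by simp }⟩
  push Not at hall
  obtain ⟨i1, hi1⟩ := hall
  let I : ℕ → Finset ι := fun q => Finset.univ.filter (fun i => p i = q ∧ e i ≠ 0)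
  obtain ⟨i0, _, hmax⟩ := Finset.exists_max_image Finset.univ (fun i => (I (p i)).card)
    ⟨i1, Finset.mem_univ i1⟩
  set q0 := p i0 with hq0
  have hmax' : ∀ q, (I q).card ≤ (I q0).card := by
    intro q
    by_cases hq : ∃ i, p i = q
    · obtain ⟨i, rfl⟩ := hq
      exact hmax i (Finset.mem_univ i)
    · have : I q = ∅ := by
        rw [Finset.filter_eq_empty_iff]
        intro i _ hi
        exact hq ⟨i, hi.1⟩
      rw [this]
      simp
  have hne : (I q0).Nonempty := by
    rw [← Finset.card_pos]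
    have h1 : 0 < (I (p i1)).card := by
      rw [Finset.card_pos]
      exact ⟨i1, by simp [I, hi1]⟩
    exact lt_of_lt_of_le h1 (hmax' _)
  obtain ⟨j0, hj0⟩ := hne
  have hF : ∀ q, Nonempty (I q ↪ I q0) := by
    intro q
    apply Function.Embedding.nonempty_of_card_le
    rw [Fintype.card_coe, Fintype.card_coe]
    exact hmax' q
  let F : ∀ q, (I q ↪ I q0) := fun q => Classical.choice (hF q)
  let c : ι → I q0 := fun i =>
    if h : e i ≠ 0 then F (p i) ⟨i, by simp [I, h]⟩ else ⟨j0, hj0⟩
  -- coprimality in the fibres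
  have hcop : ∀ j : I q0, Pairwise (Function.onFun Nat.Coprime
      (fun i : {i // c i = j} => p i.1 ^ e i.1)) := by
    rintro j ⟨a, ha⟩ ⟨b, hb⟩ hab
    simp only [Function.onFun]
    by_cases hea : e a = 0
    · rw [hea, pow_zero]; exact Nat.coprime_one_left _
    by_cases heb : e b = 0
    · rw [heb, pow_zero]; exact Nat.coprime_one_right _
    apply Nat.Coprime.pow
    rw [Nat.coprime_primes (hp a) (hp b)]
    intro hpab
    apply hab
    have hc : c a = c b := ha.trans hb.symm
    simp only [c] at hc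
    rw [dif_pos hea, dif_pos heb] at hc
    have hgen : ∀ (q : ℕ) (hqa : a ∈ I q) (hqb : b ∈ I q), F q ⟨a, hqa⟩ = F q ⟨b, hqb⟩ → a = b := by
      intro q hqa hqb h
      have := (F q).injective h
      exact congrArg Subtype.val this
    have hab' : a = b := by
      have hmem_a : a ∈ I (p b) := by simp [I, hpab, hea]
      have hmem_b : b ∈ I (p b) := by simp [I, heb]
      apply hgen (p b) hmem_a hmem_b
      have hcongr : ∀ (q q' : ℕ) (hqq : q = q') (h1 : a ∈ I q) (h2 : a ∈ I q'),
          F q ⟨a, h1⟩ = F q' ⟨a, h2⟩ := by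
        intro q q' hqq h1 h2
        subst hqq
        rfl
      rw [← hc]
      exact (hcongr (p a) (p b) hpab _ _).symm
    subst hab'
    rfl
  let K0 : I q0 → ℕ := fun j => ∏ i : {i // c i = j}, p i.1 ^ e i.1
  have hdvd : ∀ j, q0 ∣ K0 j := by
    intro j
    have hsurj : Function.Surjective (F q0) := Finite.injective_iff_surjective.mp (F q0).injective
    obtain ⟨⟨i, hi⟩, hij⟩ := hsurj j
    have hi' : p i = q0 ∧ e i ≠ 0 := by
      have := hi
      simp only [I, Finset.mem_filter, Finset.mem_univ, true_and] at this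
      exact this
    have hci : c i = j := by
      simp only [c]
      rw [dif_pos hi'.2, ← hij]
      have hcongr : ∀ (q q' : ℕ) (hqq : q = q') (h1 : i ∈ I q) (h2 : i ∈ I q'),
          F q ⟨i, h1⟩ = F q' ⟨i, h2⟩ := by
        intro q q' hqq h1 h2
        subst hqq
        rfl
      exact hcongr _ _ hi'.1 _ _
    have h1 : p i ^ e i ∣ K0 j :=
      Finset.dvd_prod_of_mem (fun i : {i // c i = j} => p i.1 ^ e i.1)
        (Finset.mem_univ (⟨i, hci⟩ : {i // c i = j}))
    refine dvd_trans ?_ h1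
    rw [hi'.1]
    exact dvd_pow_self q0 hi'.2
  have hne0 : ∀ j, K0 j ≠ 0 := by
    intro j
    rw [Finset.prod_ne_zero_iff]
    intro i _
    exact pow_ne_zero _ (hp _).ne_zero
  let E2 : (∀ i, ZMod (p i ^ e i)) ≃+ (∀ j : I q0, ∀ i : {i // c i = j}, ZMod (p i.1 ^ e i.1)) :=
    fibreEquiv c (fun i => ZMod (p i ^ e i))
  let E3 : (∀ j : I q0, ∀ i : {i // c i = j}, ZMod (p i.1 ^ e i.1)) ≃+ (∀ j : I q0, ZMod (K0 j)) :=
    AddEquiv.piCongrRight (fun j =>
      (ZMod.prodEquivPi (fun i : {i // c i = j} => p i.1 ^ e i.1) (hcop j)).symm.toAddEquiv)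
  let eq := Fintype.equivFin (I q0)
  let E4 : (∀ j : I q0, ZMod (K0 j)) ≃+ (∀ i : Fin (Fintype.card (I q0)), ZMod (K0 (eq.symm i))) :=
    (LinearEquiv.piCongrLeft' ℤ (fun j => ZMod (K0 j)) eq).toAddEquiv
  exact ⟨q0, Fintype.card (I q0), fun i => K0 (eq.symm i), hp i0, fun i => hdvd _, fun i => hne0 _,
    ⟨((E1.trans E2).trans E3).trans E4⟩⟩

end Pool.Agent.Helper580_sidon
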