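import Pool.Agent.Helper580_sidon.Host

set_option autoImplicit false

namespace Pool.Agent.Helper580_sidon

/-- Part of the elementary abelian factor is used as a box `{0,…,(p-1)/2}^{r1}`. -/
theorem subbox (p : ℕ) [hp : Fact p.Prime] (hp2 : p ≠ 2) (r' r1 r N : ℕ) (hr : r' + r1 ≤ r)
    (x : ℝ) (h : Big (Slab p r' (N * ((p + 1) / 2) ^ r1)) x) : Big (Slab p r N) x := by
  classical
  set hh := (p + 1) / 2 with hhh
  have hp3 : 3 ≤ p := by
    have := hp.out.two_le
    omega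
  have hpodd : Odd p := hp.out.odd_of_ne_two hp2
  have hhpos : 0 < hh := by omega
  have h2h : 2 * hh = p + 1 := by
    obtain ⟨j, hj⟩ := hpodd
    omega
  obtain ⟨L, hL⟩ := exists_inj_linear (ZMod p)
    ((Fin r' → ZMod p) × (Fin r1 → ZMod p)) (Fin r → ZMod p)
    (by
      rw [Module.finrank_prod, Module.finrank_fin_fun, Module.finrank_fin_fun,
        Module.finrank_fin_fun]
      exact hr)
  let b : Fin r1 → ℕ := fun _ => hh
  have hprod : ∏ i, b i = hh ^ r1 := by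
    simp [b]
  set m : ℤ := ((hh ^ r1 : ℕ) : ℤ) with hm
  have hm0 : 0 < m := by
    rw [hm]
    exact_mod_cast pow_pos hhpos r1
  have hmod0 : ∀ y : ℤ, 0 ≤ y % m := fun y => Int.emod_nonneg _ hm0.ne'
  have hmod1 : ∀ y : ℤ, y % m < ((∏ i, b i : ℕ) : ℤ) := by
    intro y
    rw [hprod]
    exact Int.emod_lt_of_pos _ hm0
  refine Big.transfer (fun w => (L (w.1, fun i => ((dig b (w.2 % m) i : ℕ) : ZMod p)), w.2 / m))
    ?_ ?_ h
  · rintro ⟨v, y⟩ hw
    simp only [Slab, Set.mem_ofPred_eq] at hw ⊢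
    refine ⟨Int.ediv_nonneg hw.1 hm0.le, ?_⟩
    rw [Int.ediv_lt_iff_lt_mul hm0]
    have := hw.2
    push_cast at this
    rw [hm]
    push_cast
    exact this
  · rintro ⟨v1, y1⟩ _ ⟨v2, y2⟩ _ ⟨v3, y3⟩ _ ⟨v4, y4⟩ _ he
    simp only [Prod.mk_add_mk, Prod.mk.injEq] at he ⊢
    obtain ⟨e1, e2⟩ := he
    rw [← map_add, ← map_add] at e1
    have e3 := hL e1
    simp only [Prod.mk_add_mk, Prod.mk.injEq] at e3
    refine ⟨e3.1, ?_⟩
    have hdig : ∀ i, dig b (y1 % m) i + dig b (y2 % m) i = dig b (y3 % m) i + dig b (y4 % m) i := by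
      intro i
      have e4 := congrFun e3.2 i
      simp only [Pi.add_apply] at e4
      rw [← Nat.cast_add, ← Nat.cast_add, ZMod.natCast_eq_natCast_iff'] at e4
      have a1 : dig b (y1 % m) i < hh := dig_lt b (y1 % m) (hmod0 _) (hmod1 _) i
      have a2 : dig b (y2 % m) i < hh := dig_lt b (y2 % m) (hmod0 _) (hmod1 _) i
      have a3 : dig b (y3 % m) i < hh := dig_lt b (y3 % m) (hmod0 _) (hmod1 _) i
      have a4 : dig b (y4 % m) i < hh := dig_lt b (y4 % m) (hmod0 _) (hmod1 _) i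
      rw [Nat.mod_eq_of_lt (by omega), Nat.mod_eq_of_lt (by omega)] at e4
      exact e4
    have hmods : y1 % m + y2 % m = y3 % m + y4 % m := by
      rw [dig_sum b (y1 % m) (hmod0 _) (hmod1 _), dig_sum b (y2 % m) (hmod0 _) (hmod1 _),
        dig_sum b (y3 % m) (hmod0 _) (hmod1 _), dig_sum b (y4 % m) (hmod0 _) (hmod1 _),
        ← Finset.sum_add_distrib, ← Finset.sum_add_distrib]
      apply Finset.sum_congr rfl
      intro i _
      rw [← add_mul, ← add_mul]
      congr 1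
      exact_mod_cast hdig i
    have d1 := Int.emod_add_mul_ediv y1 m
    have d2 := Int.emod_add_mul_ediv y2 m
    have d3 := Int.emod_add_mul_ediv y3 m
    have d4 := Int.emod_add_mul_ediv y4 m
    have e4 : m * (y1 / m + y2 / m) = m * (y3 / m + y4 / m) := by rw [e2]
    linarith

/-- Enlarging a slab. -/
theorem slab_mono (p : ℕ) [hp : Fact p.Prime] (r' r N' N : ℕ) (hr : r' ≤ r) (hN : N' ≤ N)
    (x : ℝ) (h : Big (Slab p r' N') x) : Big (Slab p r N) x := by
  obtain ⟨L, hL⟩ := exists_inj_linear (ZMod p) (Fin r' → ZMod p) (Fin r → ZMod p)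
    (by rw [Module.finrank_fin_fun, Module.finrank_fin_fun]; exact hr)
  refine Big.transfer (fun w => (L w.1, w.2)) ?_ ?_ h
  · rintro ⟨v, y⟩ hw
    simp only [Slab, Set.mem_ofPred_eq] at hw ⊢
    refine ⟨hw.1, lt_of_lt_of_le hw.2 ?_⟩
    exact_mod_cast hN
  · rintro ⟨v1, y1⟩ _ ⟨v2, y2⟩ _ ⟨v3, y3⟩ _ ⟨v4, y4⟩ _ he
    simp only [Prod.mk_add_mk, Prod.mk.injEq] at he ⊢
    refine ⟨?_, he.2⟩
    have e1 := he.1
    rw [← map_add, ← map_add] at e1
    exact hL e1

/-- The composition `F_p^{r+t} × [0,N1) → F_p^r × [0,N)` with labels in a Sidon set of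
`[0,N2)`, `2 N1 N2 ≤ N`. -/
theorem compose_label2 (p : ℕ) [hp : Fact p.Prime] (r t N1 N2 N : ℕ) (hN : 2 * N1 * N2 ≤ N)
    (S : Finset ℤ) (hS1 : ∀ a ∈ S, a ∈ Ico0 N2) (hS2 : IsSidon S) (hS3 : p ^ t ≤ S.card) (x : ℝ)
    (h : Big (Slab p (r + t) N1) x) : Big (Slab p r N) x := by
  classical
  have hppos : 0 < p := hp.out.pos
  obtain ⟨u, hu1, hu2⟩ := exists_label S (Fin t → ZMod p) (by
    rw [Fintype.card_fun, ZMod.card, Fintype.card_fin]
    exact hS3)
  have hN2pos : (0 : ℤ) < N2 := by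
    have h1 := hS1 _ (hu2 (fun _ => 0))
    exact lt_of_le_of_lt h1.1 h1.2
  refine Big.transfer (fun w => ((fun i => w.1 (Fin.castAdd t i)),
    2 * (N2 : ℤ) * w.2 + u (fun i => w.1 (Fin.natAdd r i)))) ?_ ?_ h
  · rintro ⟨w, y⟩ hw
    simp only [Slab, Set.mem_ofPred_eq] at hw ⊢
    have h1 := hS1 _ (hu2 (fun i => w (Fin.natAdd r i)))
    have h2 : 2 * (N1 : ℤ) * N2 ≤ N := by exact_mod_cast hN
    have h3 : y + 1 ≤ N1 := hw.2
    constructor
    · have := h1.1
      have := hw.1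
      positivity
    · have h4 := h1.2
      nlinarith
  · rintro ⟨a, y1⟩ h1 ⟨b, y2⟩ h2 ⟨c, y3⟩ h3 ⟨d, y4⟩ h4 he
    simp only [Prod.mk_add_mk, Prod.mk.injEq] at he
    obtain ⟨e1, e2⟩ := he
    set ua := u (fun i => a (Fin.natAdd r i)) with hua
    set ub := u (fun i => b (Fin.natAdd r i)) with hub
    set uc := u (fun i => c (Fin.natAdd r i)) with huc
    set ud := u (fun i => d (Fin.natAdd r i)) with hud
    have ba := hS1 _ (hu2 (fun i => a (Fin.natAdd r i)))
    have bb := hS1 _ (hu2 (fun i => b (Fin.natAdd r i)))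
    have bc := hS1 _ (hu2 (fun i => c (Fin.natAdd r i)))
    have bd := hS1 _ (hu2 (fun i => d (Fin.natAdd r i)))
    rw [← hua] at ba
    rw [← hub] at bb
    rw [← huc] at bc
    rw [← hud] at bd
    have e3 : 2 * (N2 : ℤ) * ((y1 + y2) - (y3 + y4)) = (uc + ud) - (ua + ub) := by
      linear_combination e2
    have e4 : (y1 + y2) - (y3 + y4) = 0 := by
      by_contra hne
      rcases lt_or_gt_of_ne hne with hlt | hgt
      · have h5 : (y1 + y2) - (y3 + y4) ≤ -1 := by omega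
        nlinarith [ba.1, ba.2, bb.1, bb.2, bc.1, bc.2, bd.1, bd.2]
      · have h5 : 1 ≤ (y1 + y2) - (y3 + y4) := by omega
        nlinarith [ba.1, ba.2, bb.1, bb.2, bc.1, bc.2, bd.1, bd.2]
    have e5 : ua + ub = uc + ud := by
      rw [e4, mul_zero] at e3
      linarith
    simp only [Prod.mk_add_mk, Prod.mk.injEq]
    refine ⟨?_, by linarith⟩
    funext i
    refine Fin.addCases (fun j => ?_) (fun j => ?_) i
    · exact congrFun e1 j
    · rcases hS2 _ (hu2 _) _ (hu2 _) _ (hu2 _) _ (hu2 _) e5 with ⟨h1, h2⟩ | ⟨h1, h2⟩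
      · have f1 := congrFun (hu1 h1) j
        have f2 := congrFun (hu1 h2) j
        simp only [Pi.add_apply] at f1 f2 ⊢
        rw [f1, f2]
      · have f1 := congrFun (hu1 h1) j
        have f2 := congrFun (hu1 h2) j
        simp only [Pi.add_apply] at f1 f2 ⊢
        rw [f1, f2, add_comm]

end Pool.Agent.Helper580_sidon
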